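import Mathlib

/-! Automorphisms of the alternating group of degree `m ≥ 5`, `m ≠ 6` (helper87). -/

set_option autoImplicit false

namespace Pool.Agent.CSK.Alt

open Equiv Equiv.Perm Subgroup Nat
open scoped Pointwise

/-! ## Three-cycles -/

section threeCycles

variable {α : Type*} [Fintype α] [DecidableEq α]

/-- the points of a three-cycle -/
theorem tc {u : Perm α} (hu : u.IsThreeCycle) {p : α} (hp : u p ≠ p) :
    u (u (u p)) = p ∧ u (u p) ≠ p ∧ u (u p) ≠ u p ∧
      ∀ x, u x ≠ x → x = p ∨ x = u p ∨ x = u (u p) := by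
  have h3 : u ^ 3 = 1 := by
    rw [← hu.orderOf]
    exact pow_orderOf_eq_one u
  have h1 : ∀ x, u (u (u x)) = x := fun x => by
    have := congrArg (fun v : Perm α => v x) h3
    simpa [pow_succ] using this
  have h2 : u (u p) ≠ u p := fun h => hp (u.injective h)
  have h4 : u (u p) ≠ p := fun h => by
    have := h1 p
    rw [h] at this
    exact hp this
  refine ⟨h1 p, h4, h2, fun x hx => ?_⟩
  have hs : ({p, u p, u (u p)} : Finset α) = u.support := by
    apply Finset.eq_of_subset_of_card_le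
    · intro y hy
      simp only [Finset.mem_insert, Finset.mem_singleton] at hy
      rw [mem_support]
      rcases hy with rfl | rfl | rfl
      · exact hp
      · exact h2
      · rw [h1 p]
        exact h4.symm
    · rw [hu.card_support]
      rw [Finset.card_insert_of_notMem, Finset.card_insert_of_notMem, Finset.card_singleton]
      · simpa using h2.symm
      · simp only [Finset.mem_insert, Finset.mem_singleton, not_or]
        exact ⟨hp.symm, h4.symm⟩
  have hx' : x ∈ u.support := mem_support.2 hx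
  rw [← hs] at hx'
  simpa using hx'

/-- a three-cycle is determined by two consecutive values -/
theorem tc_ext {u v : Perm α} (hu : u.IsThreeCycle) (hv : v.IsThreeCycle) {p : α} (hp : u p ≠ p)
    (h1 : u p = v p) (h2 : u (u p) = v (u p)) : u = v := by
  have hp' : v p ≠ p := h1 ▸ hp
  obtain ⟨a1, a2, a3, a4⟩ := tc hu hp
  obtain ⟨b1, b2, b3, b4⟩ := tc hv hp'
  ext x
  by_cases hx : u x = x
  · by_cases hx' : v x = x
    · rw [hx, hx']
    · rcases b4 x hx' with h | h | h
      · rw [h]
        exact h1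
      · rw [h, ← h1]
        exact h2
      · rw [h, b1, ← h1, ← h2]
        exact a1
  · rcases a4 x hx with h | h | h
    · rw [h]
      exact h1
    · rw [h]
      exact h2
    · rw [h, a1, h2, h1]
      exact b1.symm

/-- two three-cycles whose product is an involution have a common arrow -/
theorem edge {u v : Perm α} (hu : u.IsThreeCycle) (hv : v.IsThreeCycle) (h : u * v ≠ 1)
    (h2 : u * v * (u * v) = 1) : ∃ p, u p ≠ p ∧ u p = v p := by
  have hr : ∀ x, u (v (u (v x))) = x := fun x => by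
    have := congrArg (fun w : Perm α => w x) h2
    simpa using this
  by_cases hex : ∃ x, u x ≠ x ∧ v x = x
  · obtain ⟨x, hx, hvx⟩ := hex
    obtain ⟨a1, a2, a3, a4⟩ := tc hu hx
    refine ⟨u x, a3, ?_⟩
    have h3 := hr x
    rw [hvx] at h3
    apply u.injective
    rw [a1, h3]
  · push Not at hex
    by_contra hcon
    push Not at hcon
    apply h
    obtain ⟨p, hp⟩ : ∃ p, u p ≠ p := by
      by_contra hh
      push Not at hh
      exact hu.ne_one (Equiv.ext hh)
    have hsub : u.support ⊆ v.support := fun x hx => by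
      rw [mem_support] at hx ⊢
      exact hex x hx
    have hsupp : u.support = v.support := Finset.eq_of_subset_of_card_le hsub (by
      rw [hu.card_support, hv.card_support])
    ext x
    rw [mul_apply, one_apply]
    by_cases hx : u x = x
    · have hx' : v x = x := by
        by_contra hh
        have h5 : x ∈ u.support := by
          rw [hsupp]
          exact mem_support.2 hh
        exact mem_support.1 h5 hx
      rw [hx', hx]
    · have hvx : v x ≠ x := hex x hx
      have h5 : v x ∈ u.support := by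
        rw [hsupp]
        exact apply_mem_support.2 (mem_support.2 hvx)
      obtain ⟨a1, a2, a3, a4⟩ := tc hu hx
      rcases a4 (v x) (mem_support.1 h5) with h6 | h6 | h6
      · exact absurd h6 hvx
      · exact absurd h6.symm (hcon x hx)
      · rw [h6, a1]

/-- the three-cycle `z → o → i → z` -/
def cyc (z o i : α) : Perm α := swap z i * swap z o

theorem cyc_three {z o i : α} (h1 : z ≠ o) (h2 : i ≠ z) (h3 : i ≠ o) :
    (cyc z o i).IsThreeCycle :=
  isThreeCycle_swap_mul_swap_same h2.symm h1 h3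

theorem cyc_z {z o i : α} (h1 : z ≠ o) (h3 : i ≠ o) : cyc z o i z = o := by
  rw [cyc, mul_apply, swap_apply_left, swap_apply_of_ne_of_ne h1.symm h3.symm]

theorem cyc_o {z o i : α} : cyc z o i o = i := by
  rw [cyc, mul_apply, swap_apply_right, swap_apply_left]

theorem cyc_i {z o i : α} (h2 : i ≠ z) (h3 : i ≠ o) : cyc z o i i = z := by
  rw [cyc, mul_apply, swap_apply_of_ne_of_ne h2 h3, swap_apply_right]

theorem cyc_of_ne {z o i x : α} (h1 : x ≠ z) (h2 : x ≠ o) (h3 : x ≠ i) : cyc z o i x = x := by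
  rw [cyc, mul_apply, swap_apply_of_ne_of_ne h1 h2, swap_apply_of_ne_of_ne h1 h3]

theorem cyc_sq {z o i j : α} (h1 : z ≠ o) (hi : i ≠ z) (hi' : i ≠ o) (hj : j ≠ z) (hj' : j ≠ o)
    (hij : i ≠ j) : cyc z o i * cyc z o j * (cyc z o i * cyc z o j) = 1 := by
  ext x
  simp only [mul_apply, one_apply]
  by_cases h2 : x = z
  · subst h2
    rw [cyc_z h1 hj', cyc_o, cyc_of_ne hi hi' hij, cyc_i hi hi']
  by_cases h3 : x = o
  · subst h3
    rw [cyc_o, cyc_of_ne hj hj' hij.symm, cyc_i hj hj', cyc_z h1 hi']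
  by_cases h4 : x = i
  · subst h4
    rw [cyc_of_ne hi hi' hij, cyc_i hi hi', cyc_z h1 hj', cyc_o]
  by_cases h5 : x = j
  · subst h5
    rw [cyc_i hj hj', cyc_z h1 hi', cyc_o, cyc_of_ne hj hj' hij.symm]
  rw [cyc_of_ne h2 h3 h5, cyc_of_ne h2 h3 h4, cyc_of_ne h2 h3 h5, cyc_of_ne h2 h3 h4]

theorem cyc_mul_ne {z o i j : α} (h1 : z ≠ o) (hi : i ≠ z) (hj' : j ≠ o) :
    cyc z o i * cyc z o j ≠ 1 := by
  intro h
  have := congrArg (fun w : Perm α => w z) h
  simp only [mul_apply, one_apply] at this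
  rw [cyc_z h1 hj', cyc_o] at this
  exact hi this

end threeCycles

/-! ## Generation -/

section gen

variable {m : ℕ}

/-- the cycles `z → o → i → z` generate the alternating group -/
theorem gen {z o : Fin m} (hzo : z ≠ o) (hex : ∃ i : Fin m, i ≠ z ∧ i ≠ o)
    (H : Subgroup (Perm (Fin m))) (hH : ∀ i, i ≠ z → i ≠ o → cyc z o i ∈ H) :
    alternatingGroup (Fin m) ≤ H := by
  obtain ⟨i₀, hi₀, hi₀'⟩ := hex
  have hreach : ∀ x : Fin m, ∃ h : H, h • z = x := by
    intro x
    by_cases h1 : x = z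
    · exact ⟨1, by rw [h1, one_smul]⟩
    by_cases h2 : x = o
    · refine ⟨⟨cyc z o i₀, hH i₀ hi₀ hi₀'⟩, ?_⟩
      change cyc z o i₀ z = x
      rw [cyc_z hzo hi₀', h2]
    · refine ⟨⟨cyc z o x, hH x h1 h2⟩ * ⟨cyc z o x, hH x h1 h2⟩, ?_⟩
      change (cyc z o x * cyc z o x) z = x
      rw [mul_apply, cyc_z hzo h2, cyc_o]
  have htrans : MulAction.IsPretransitive H (Fin m) := ⟨fun x y => by
    obtain ⟨g, hg⟩ := hreach x
    obtain ⟨h, hh⟩ := hreach y
    refine ⟨h * g⁻¹, ?_⟩
    rw [← hg, smul_smul, inv_mul_cancel_right, hh]⟩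
  have hprim : MulAction.IsPreprimitive H (Fin m) := by
    refine MulAction.IsPreprimitive.of_isTrivialBlock_base z fun {B} hzB hB => ?_
    rw [MulAction.IsTrivialBlock, or_iff_not_imp_left]
    intro hns
    rw [Set.not_subsingleton_iff] at hns
    obtain ⟨w, hw, hwz⟩ := hns.exists_ne z
    have hstep : ∀ i, (hi : i ≠ z) → (hi' : i ≠ o) → ∀ x ∈ B, cyc z o i x ∈ B →
        ∀ y ∈ B, cyc z o i y ∈ B := by
      intro i hi hi' x hx hx' y hy
      have h1 : (⟨cyc z o i, hH i hi hi'⟩ : H) • B = B := by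
        refine MulAction.isBlock_iff_smul_eq_of_nonempty.1 hB ⟨cyc z o i x, ?_, hx'⟩
        exact Set.smul_mem_smul_set (a := (⟨cyc z o i, hH i hi hi'⟩ : H)) hx
      rw [← h1]
      exact Set.smul_mem_smul_set (a := (⟨cyc z o i, hH i hi hi'⟩ : H)) hy
    have ho : o ∈ B := by
      by_cases hwo : w = o
      · rw [← hwo]
        exact hw
      · have h1 := hstep w hwz hwo w hw (by
          rw [cyc_i hwz hwo]
          exact hzB) z hzB
        rwa [cyc_z hzo hwo] at h1
    rw [Set.eq_univ_iff_forall]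
    intro x
    by_cases h1 : x = z
    · rw [h1]
      exact hzB
    by_cases h2 : x = o
    · rw [h2]
      exact ho
    · have h3 := hstep x h1 h2 z hzB (by
        rw [cyc_z hzo h2]
        exact ho) o ho
      rwa [cyc_o] at h3
  exact alternatingGroup_le_of_isPreprimitive_of_isThreeCycle_mem hprim
    (cyc_three hzo hi₀ hi₀') (hH i₀ hi₀ hi₀')

end gen

/-! ## The class of three-cycles -/

section cls

variable {m : ℕ}

/-- the centraliser in the alternating group is at most that in the symmetric group -/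
theorem cA_le (y : alternatingGroup (Fin m)) : Nat.card (centralizer {y}) ≤
    Nat.card (centralizer {(y : Perm (Fin m))}) := by
  refine Nat.card_le_card_of_injective
    (fun x : centralizer {y} => (⟨((x : alternatingGroup (Fin m)) : Perm (Fin m)), ?_⟩ :
      centralizer {(y : Perm (Fin m))})) ?_
  · have := mem_centralizer_singleton_iff.1 x.2
    rw [mem_centralizer_singleton_iff]
    exact congrArg Subtype.val this
  · intro x x' h
    have h4 := congrArg (fun w : centralizer {(y : Perm (Fin m))} => (w : Perm (Fin m))) h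
    exact Subtype.ext (Subtype.ext h4)

/-- ... and at least half of it -/
theorem cS_le (y : alternatingGroup (Fin m)) : Nat.card (centralizer {(y : Perm (Fin m))}) ≤
    2 * Nat.card (centralizer {y}) := by
  classical
  let f : centralizer {(y : Perm (Fin m))} →* ℤˣ := sign.comp (centralizer _).subtype
  have h1 : Nat.card f.ker * f.ker.index = Nat.card (centralizer {(y : Perm (Fin m))}) :=
    Subgroup.card_mul_index _
  have h2 : f.ker.index ≤ 2 := by
    rw [index_ker]
    refine (Subgroup.card_le_card_group _).trans ?_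
    rw [Nat.card_eq_fintype_card, Fintype.card_units_int]
  have h3 : Nat.card f.ker ≤ Nat.card (centralizer {y}) := by
    refine Nat.card_le_card_of_injective
      (fun x : f.ker => (⟨⟨((x : centralizer {(y : Perm (Fin m))}) : Perm (Fin m)), x.2⟩, ?_⟩ :
        centralizer {y})) ?_
    · rw [mem_centralizer_singleton_iff]
      exact Subtype.ext (mem_centralizer_singleton_iff.1 x.1.2)
    · intro x x' h
      have h4 := congrArg (fun w : centralizer {y} => ((w : alternatingGroup (Fin m)) :
        Perm (Fin m))) h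
      exact Subtype.ext (Subtype.ext h4)
  calc _ = Nat.card f.ker * f.ker.index := h1.symm
    _ ≤ Nat.card (centralizer {y}) * 2 := Nat.mul_le_mul h3 h2
    _ = _ := Nat.mul_comm _ _

theorem fac_aux (j : ℕ) : 2 * (3 ^ (j + 2) * (j + 3)!) < (3 * j + 6)! := by
  induction j with
  | zero => decide
  | succ j ih =>
    have h1 : (3 * (j + 1) + 6)! = (3 * j + 9) * ((3 * j + 8) * ((3 * j + 7) * (3 * j + 6)!)) := by
      rw [show 3 * (j + 1) + 6 = (3 * j + 6) + 1 + 1 + 1 by ring, factorial_succ, factorial_succ,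
        factorial_succ]
    have h2 : 2 * (3 ^ (j + 1 + 2) * (j + 1 + 3)!) =
        3 * (j + 4) * (2 * (3 ^ (j + 2) * (j + 3)!)) := by
      rw [show j + 1 + 3 = (j + 3) + 1 by ring, factorial_succ]
      ring
    rw [h1, h2]
    have h3 : 3 * (j + 4) ≤ (3 * j + 9) * ((3 * j + 8) * (3 * j + 7)) := by
      have h4 : 8 * 7 ≤ (3 * j + 8) * (3 * j + 7) :=
        Nat.mul_le_mul (by omega) (by omega)
      have h5 := Nat.mul_le_mul_left (3 * j + 9) h4
      omega
    calc 3 * (j + 4) * (2 * (3 ^ (j + 2) * (j + 3)!))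
        < 3 * (j + 4) * (3 * j + 6)! := Nat.mul_lt_mul_of_pos_left ih (by positivity)
      _ ≤ (3 * j + 9) * ((3 * j + 8) * (3 * j + 7)) * (3 * j + 6)! := Nat.mul_le_mul_right _ h3
      _ = _ := by ring

/-- the inequality which separates the classes of elements of order three -/
theorem fac_lt {m k : ℕ} (hk : 2 ≤ k) (hm : 3 * k ≤ m) (hm7 : 7 ≤ m) :
    2 * ((m - 3 * k)! * 3 ^ k * k !) < (m - 3)! * 3 := by
  obtain rfl | hk3 := hk.eq_or_lt
  · obtain ⟨j, rfl⟩ : ∃ j, m = j + 7 := ⟨m - 7, by omega⟩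
    have h1 : j + 7 - 3 = (j + 1) + 1 + 1 + 1 := by omega
    have h2 : j + 7 - 3 * 2 = j + 1 := by omega
    rw [h1, h2, factorial_succ (j + 1 + 1 + 1), factorial_succ (j + 1 + 1),
      factorial_succ (j + 1)]
    have h3 : 0 < (j + 1)! := factorial_pos _
    have h4 : 24 ≤ (j + 1 + 1 + 1 + 1) * ((j + 1 + 1 + 1) * (j + 1 + 1)) :=
      Nat.mul_le_mul (show 4 ≤ j + 1 + 1 + 1 + 1 by omega)
        (Nat.mul_le_mul (show 3 ≤ j + 1 + 1 + 1 by omega) (show 2 ≤ j + 1 + 1 by omega))
    have h5 : (2 : ℕ)! = 2 := rfl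
    rw [h5]
    calc 2 * ((j + 1)! * 3 ^ 2 * 2) = 36 * (j + 1)! := by ring
      _ < 72 * (j + 1)! := by omega
      _ = 24 * (j + 1)! * 3 := by ring
      _ ≤ ((j + 1 + 1 + 1 + 1) * ((j + 1 + 1 + 1) * (j + 1 + 1))) * (j + 1)! * 3 :=
        Nat.mul_le_mul_right _ (Nat.mul_le_mul_right _ h4)
      _ = _ := by ring
  · obtain ⟨j, rfl⟩ : ∃ j, k = j + 3 := ⟨k - 3, by omega⟩
    have h1 : (m - 3 * (j + 3))! * (3 * j + 6)! ≤ (m - 3)! := by
      have h2 : (m - 3 * (j + 3)) + (3 * j + 6) = m - 3 := by omega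
      have h3 := Nat.factorial_mul_factorial_dvd_factorial_add (m - 3 * (j + 3)) (3 * j + 6)
      rw [h2] at h3
      exact Nat.le_of_dvd (factorial_pos _) h3
    have h4 := fac_aux j
    have h5 : 0 < (m - 3 * (j + 3))! := factorial_pos _
    calc 2 * ((m - 3 * (j + 3))! * 3 ^ (j + 3) * (j + 3)!)
        = (m - 3 * (j + 3))! * (2 * (3 ^ (j + 2) * (j + 3)!)) * 3 := by ring
      _ < (m - 3 * (j + 3))! * (3 * j + 6)! * 3 :=
        Nat.mul_lt_mul_of_pos_right (Nat.mul_lt_mul_of_pos_left h4 h5) (by norm_num)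
      _ ≤ _ := Nat.mul_le_mul_right _ h1

/-- automorphisms of the alternating group preserve three-cycles -/
theorem map_three (hm : 5 ≤ m) (hm6 : m ≠ 6)
    (ψ : alternatingGroup (Fin m) ≃* alternatingGroup (Fin m)) (g : alternatingGroup (Fin m))
    (hg : (g : Perm (Fin m)).IsThreeCycle) : (ψ g : Perm (Fin m)).IsThreeCycle := by
  classical
  have hord : orderOf (ψ g : Perm (Fin m)) = 3 := by
    rw [← hg.orderOf, Subgroup.orderOf_coe, Subgroup.orderOf_coe]
    exact MulEquiv.orderOf_eq ψ g
  obtain ⟨n, hn⟩ := cycleType_prime_order (σ := (ψ g : Perm (Fin m))) (by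
    rw [hord]
    exact Nat.prime_three)
  rw [hord] at hn
  by_cases hn0 : n = 0
  · rw [hn0] at hn
    exact hn
  exfalso
  have hsum : 3 * (n + 1) ≤ m := by
    have h1 := (sum_cycleType (ψ g : Perm (Fin m)))
    rw [hn, Multiset.sum_replicate, smul_eq_mul] at h1
    have h2 := Finset.card_le_univ (ψ g : Perm (Fin m)).support
    rw [Fintype.card_fin] at h2
    omega
  have hcS : Nat.card (centralizer {(g : Perm (Fin m))}) = (m - 3)! * 3 := by
    rw [nat_card_centralizer, hg.cycleType]
    simp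
  have hcS' : Nat.card (centralizer {(ψ g : Perm (Fin m))}) =
      (m - 3 * (n + 1))! * 3 ^ (n + 1) * (n + 1)! := by
    rw [nat_card_centralizer, hn, Multiset.sum_replicate, Multiset.prod_replicate,
      Multiset.toFinset_replicate, if_neg (Nat.succ_ne_zero n), Finset.prod_singleton,
      Multiset.count_replicate_self, Fintype.card_fin, smul_eq_mul, Nat.mul_comm (n + 1) 3]
  have hcA : Nat.card (centralizer {ψ g}) = Nat.card (centralizer {g}) := by
    symm
    refine Nat.card_congr (Equiv.subtypeEquiv ψ.toEquiv fun x => ?_)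
    rw [mem_centralizer_singleton_iff, mem_centralizer_singleton_iff]
    change _ ↔ ψ x * ψ g = ψ g * ψ x
    rw [← map_mul, ← map_mul]
    exact ψ.injective.eq_iff.symm
  have h1 := cS_le g
  have h2 := cA_le (ψ g)
  rw [hcS, ← hcA] at h1
  rw [hcS'] at h2
  have h3 : 7 ≤ m := by omega
  have h4 := fac_lt (k := n + 1) (by omega) hsum h3
  omega

end cls

/-! ## Automorphisms -/

/-- every automorphism of the alternating group of degree `m ≥ 5`, `m ≠ 6`, is the conjugation by
a permutation -/
theorem aut_alt {m : ℕ} (hm : 5 ≤ m) (hm6 : m ≠ 6)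
    (ψ : alternatingGroup (Fin m) ≃* alternatingGroup (Fin m)) :
    ∃ σ : Perm (Fin m), ∀ x, (ψ x : Perm (Fin m)) = σ * x * σ⁻¹ := by
  classical
  let z : Fin m := ⟨0, by omega⟩
  let o : Fin m := ⟨1, by omega⟩
  let i₁ : Fin m := ⟨2, by omega⟩
  let i₂ : Fin m := ⟨3, by omega⟩
  have hzo : z ≠ o := by simp [z, o]
  have h1z : i₁ ≠ z := by simp [z, i₁]
  have h1o : i₁ ≠ o := by simp [o, i₁]
  have h2z : i₂ ≠ z := by simp [z, i₂]
  have h2o : i₂ ≠ o := by simp [o, i₂]
  have h12 : i₁ ≠ i₂ := by simp [i₁, i₂]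
  -- the images of the three-cycles
  let a : ∀ i : Fin m, i ≠ z → i ≠ o → alternatingGroup (Fin m) := fun i hi hi' =>
    ⟨cyc z o i, (cyc_three hzo hi hi').mem_alternatingGroup⟩
  let b : ∀ i : Fin m, i ≠ z → i ≠ o → Perm (Fin m) := fun i hi hi' => (ψ (a i hi hi') :
    Perm (Fin m))
  have hb3 : ∀ i hi hi', (b i hi hi').IsThreeCycle := fun i hi hi' =>
    map_three hm hm6 ψ _ (cyc_three hzo hi hi')
  have hbinj : ∀ i hi hi' j hj hj', b i hi hi' = b j hj hj' → i = j := by
    intro i hi hi' j hj hj' h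
    have h1 : a i hi hi' = a j hj hj' := ψ.injective (Subtype.ext h)
    have h2 : cyc z o i = cyc z o j := congrArg Subtype.val h1
    have h3 := congrArg (fun w : Perm (Fin m) => w o) h2
    simpa only [cyc_o] using h3
  have hbe : ∀ i hi hi' j hj hj', i ≠ j → ∃ p, b i hi hi' p ≠ p ∧ b i hi hi' p = b j hj hj' p := by
    intro i hi hi' j hj hj' hij
    refine edge (hb3 i hi hi') (hb3 j hj hj') ?_ ?_
    · intro h
      have h1 : ψ (a i hi hi' * a j hj hj') = 1 := by
        rw [map_mul]
        exact Subtype.ext h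
      have h2 := (map_eq_one_iff ψ ψ.injective).1 h1
      exact cyc_mul_ne hzo hi hj' (congrArg Subtype.val h2)
    · have h1 : a i hi hi' * a j hj hj' * (a i hi hi' * a j hj hj') = 1 :=
        Subtype.ext (cyc_sq hzo hi hi' hj hj' hij)
      have h2 := congrArg ψ h1
      rw [map_mul, map_mul, map_one] at h2
      exact congrArg Subtype.val h2
  obtain ⟨p, hp, hp2⟩ := hbe i₁ h1z h1o i₂ h2z h2o h12
  obtain ⟨q, hq⟩ : ∃ q, b i₁ h1z h1o p = q := ⟨_, rfl⟩
  have hpq : p ≠ q := by
    rw [← hq]
    exact hp.symm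
  have hq2 : b i₂ h2z h2o p = q := by rw [← hp2, hq]
  -- the common arrow
  have hcom : ∀ i hi hi', b i hi hi' p = q := by
    intro i hi hi'
    by_cases hi1 : i = i₁
    · subst hi1
      exact hq
    by_cases hi2 : i = i₂
    · subst hi2
      exact hq2
    obtain ⟨x, hx, hx'⟩ := hbe i hi hi' i₁ h1z h1o hi1
    obtain ⟨y, hy, hy'⟩ := hbe i hi hi' i₂ h2z h2o hi2
    obtain ⟨u, hu⟩ : ∃ u, u = b i hi hi' := ⟨_, rfl⟩
    obtain ⟨v, hv⟩ : ∃ v, v = b i₁ h1z h1o := ⟨_, rfl⟩
    obtain ⟨w, hw⟩ : ∃ w, w = b i₂ h2z h2o := ⟨_, rfl⟩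
    have hu3 : u.IsThreeCycle := hu ▸ hb3 i hi hi'
    have hv3 : v.IsThreeCycle := hv ▸ hb3 i₁ h1z h1o
    have hw3 : w.IsThreeCycle := hw ▸ hb3 i₂ h2z h2o
    have hvw : v ≠ w := by
      rw [hv, hw]
      exact fun h => h12 (hbinj i₁ h1z h1o i₂ h2z h2o h)
    rw [← hu] at hx hy hx' hy' ⊢
    rw [← hv] at hx' hq
    rw [← hw] at hy' hq2
    have hvp : v p ≠ p := by
      rw [hq]
      exact hpq.symm
    have hwp : w p ≠ p := by
      rw [hq2]
      exact hpq.symm
    obtain ⟨a1, a2, a3, a4⟩ := tc hv3 hvp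
    obtain ⟨b1, b2, b3, b4⟩ := tc hw3 hwp
    rw [hq] at a1 a2 a3 a4
    rw [hq2] at b1 b2 b3 b4
    have hrs : v q ≠ w q := by
      intro h
      apply hvw
      refine tc_ext hv3 hw3 hvp (hq.trans hq2.symm) ?_
      rw [hq]
      exact h
    rcases a4 x (by rw [← hx']; exact hx) with h1 | h1 | h1
    · rw [h1] at hx'
      rw [hx', hq]
    · rcases b4 y (by rw [← hy']; exact hy) with h2 | h2 | h2
      · rw [h2] at hy'
        rw [hy', hq2]
      · exfalso
        rw [h1] at hx'
        rw [h2] at hy'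
        exact hrs (hx'.symm.trans hy')
      · exfalso
        rw [h1] at hx' hx
        rw [h2] at hy' hy
        -- `u q = v q`, `u (w q) = p`
        rw [b1] at hy'
        obtain ⟨c1, c2, c3, c4⟩ := tc hu3 hx
        rcases c4 (w q) hy with h3 | h3 | h3
        · exact b3 h3
        · exact hrs (by rw [h3, hx'])
        · rw [h3, c1] at hy'
          exact hpq hy'.symm
    · rcases b4 y (by rw [← hy']; exact hy) with h2 | h2 | h2
      · rw [h2] at hy'
        rw [hy', hq2]
      · exfalso
        rw [h1] at hx' hx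
        rw [h2] at hy' hy
        -- `u (v q) = p`, `u q = w q`
        rw [a1] at hx'
        obtain ⟨c1, c2, c3, c4⟩ := tc hu3 hy
        rcases c4 (v q) hx with h3 | h3 | h3
        · exact a3 h3
        · exact hrs (by rw [h3, hy'])
        · rw [h3, c1] at hx'
          exact hpq hx'.symm
      · exfalso
        rw [h1, a1] at hx'
        rw [h2, b1] at hy'
        exact hrs (u.injective (hx'.trans hy'.symm))
  have hbq : ∀ i hi hi', b i hi hi' q ≠ p ∧ b i hi hi' q ≠ q := by
    intro i hi hi'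
    have h1 := hcom i hi hi'
    obtain ⟨a1, a2, a3, a4⟩ := tc (hb3 i hi hi') (p := p) (by rw [h1]; exact hpq.symm)
    rw [h1] at a2 a3
    exact ⟨a2, a3⟩
  -- the permutation
  let s : Fin m → Fin m := fun i => if h : i = z then p else if h' : i = o then q else b i h h' q
  have hsz : s z = p := by simp [s]
  have hso : s o = q := by
    have h1 : s o = if h : o = z then p else if h' : o = o then q else b o h h' q := rfl
    rw [h1, dif_neg hzo.symm, dif_pos rfl]
  have hsi : ∀ i (hi : i ≠ z) (hi' : i ≠ o), s i = b i hi hi' q := by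
    intro i hi hi'
    have h1 : s i = if h : i = z then p else if h' : i = o then q else b i h h' q := rfl
    rw [h1, dif_neg hi, dif_neg hi']
  have hsinj : Function.Injective s := by
    have hkey : ∀ i, s i = p → i = z := by
      intro i h
      by_contra hi
      by_cases hi' : i = o
      · rw [hi', hso] at h
        exact hpq h.symm
      · rw [hsi i hi hi'] at h
        exact (hbq i hi hi').1 h
    have hkey' : ∀ i, s i = q → i = o := by
      intro i h
      by_contra hi'
      by_cases hi : i = z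
      · rw [hi, hsz] at h
        exact hpq h
      · rw [hsi i hi hi'] at h
        exact (hbq i hi hi').2 h
    intro i j hij
    by_cases hi : i = z
    · rw [hi, hsz] at hij
      rw [hi, hkey j hij.symm]
    by_cases hi' : i = o
    · rw [hi', hso] at hij
      rw [hi', hkey' j hij.symm]
    by_cases hj : j = z
    · rw [hj, hsz] at hij
      exact absurd (hkey i hij) hi
    by_cases hj' : j = o
    · rw [hj', hso] at hij
      exact absurd (hkey' i hij) hi'
    rw [hsi i hi hi', hsi j hj hj'] at hij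
    apply hbinj i hi hi' j hj hj'
    have h1 := hcom i hi hi'
    have h2 := hcom j hj hj'
    refine tc_ext (hb3 i hi hi') (hb3 j hj hj') (p := p) (by rw [h1]; exact hpq.symm)
      (h1.trans h2.symm) ?_
    rw [h1]
    exact hij
  obtain ⟨σ, hσ⟩ : ∃ σ : Perm (Fin m), ∀ i, σ i = s i :=
    ⟨Equiv.ofBijective s (Finite.injective_iff_bijective.1 hsinj), fun _ => rfl⟩
  refine ⟨σ, ?_⟩
  have hagree : ∀ i hi hi', (ψ (a i hi hi') : Perm (Fin m)) = σ * cyc z o i * σ⁻¹ := by
    intro i hi hi'
    have hc : (σ * cyc z o i * σ⁻¹).IsThreeCycle := by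
      unfold IsThreeCycle
      rw [cycleType_conj]
      exact cyc_three hzo hi hi'
    have h1 := hcom i hi hi'
    have hσp : σ⁻¹ p = z := by
      rw [inv_eq_iff_eq, hσ, hsz]
    have hσq : σ⁻¹ q = o := by
      rw [inv_eq_iff_eq, hσ, hso]
    refine tc_ext (hb3 i hi hi') hc (p := p) (by rw [h1]; exact hpq.symm) ?_ ?_
    · rw [h1, mul_apply, mul_apply, hσp, cyc_z hzo hi', hσ, hso]
    · rw [h1, mul_apply, mul_apply, hσq, cyc_o, hσ, hsi i hi hi']
  -- the equalizer
  let f₁ : alternatingGroup (Fin m) →* Perm (Fin m) :=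
    (alternatingGroup (Fin m)).subtype.comp ψ.toMonoidHom
  let f₂ : alternatingGroup (Fin m) →* Perm (Fin m) :=
    (MulAut.conj σ).toMonoidHom.comp (alternatingGroup (Fin m)).subtype
  have hle := gen hzo ⟨i₁, h1z, h1o⟩ ((f₁.eqLocus f₂).map (alternatingGroup (Fin m)).subtype) (by
    intro i hi hi'
    refine ⟨a i hi hi', ?_, rfl⟩
    exact hagree i hi hi')
  intro x
  obtain ⟨y, hy, hyx⟩ := hle x.2
  have hxy : y = x := Subtype.ext hyx
  rw [← hxy]
  exact hy

end Pool.Agent.CSK.Alt
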