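import Mathlib

/-! Centralisers in alternating groups (helper6, for helper87): the smallest centraliser in `A_m` has
more than `m / 2` elements, an odd permutation may commute with at most `m / 2` even ones, and for
every prime there is an element whose centraliser in `A_m` has order prime to it. -/

set_option autoImplicit false

namespace Pool.Agent.CSK.Alt

open Equiv Equiv.Perm Subgroup

/-- the centraliser in `A_m`, inside the centraliser in `S_m` -/
private def altEquiv {m : ℕ} (y : alternatingGroup (Fin m)) :
    ((alternatingGroup (Fin m)).subgroupOf (centralizer {(y : Perm (Fin m))})) ≃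
      (centralizer {y} : Subgroup (alternatingGroup (Fin m))) where
  toFun x := ⟨⟨x.1.1, mem_subgroupOf.1 x.2⟩, by
    rw [mem_centralizer_singleton_iff]
    apply Subtype.ext
    exact mem_centralizer_singleton_iff.1 x.1.2⟩
  invFun x := ⟨⟨x.1.1, by
    rw [mem_centralizer_singleton_iff]
    exact congrArg Subtype.val (mem_centralizer_singleton_iff.1 x.2)⟩, mem_subgroupOf.2 x.1.2⟩
  left_inv _ := rfl
  right_inv _ := rfl

private theorem index_le {m : ℕ} (hm : 5 ≤ m) (K : Subgroup (Perm (Fin m))) :
    ((alternatingGroup (Fin m)).subgroupOf K).index ≤ 2 := by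
  have : Nontrivial (Fin m) := Fin.nontrivial_iff_two_le.2 (by omega)
  have h1 : (alternatingGroup (Fin m)).relIndex K ∣ (alternatingGroup (Fin m)).index :=
    relIndex_dvd_index_of_normal _ _
  rw [alternatingGroup.index_eq_two] at h1
  exact Nat.le_of_dvd two_pos h1

private theorem card_cent_le {m : ℕ} (hm : 5 ≤ m) (y : alternatingGroup (Fin m)) :
    Nat.card (centralizer {(y : Perm (Fin m))}) ≤ 2 * Nat.card (centralizer {y}) := by
  have h1 := ((alternatingGroup (Fin m)).subgroupOf
    (centralizer {(y : Perm (Fin m))})).card_mul_index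
  rw [Nat.card_congr (altEquiv y)] at h1
  have h2 := index_le hm (centralizer {(y : Perm (Fin m))})
  rw [← h1, mul_comm]
  exact Nat.mul_le_mul_right _ h2

private theorem card_cent_dvd {m : ℕ} (y : alternatingGroup (Fin m)) :
    Nat.card (centralizer {y}) ∣ Nat.card (centralizer {(y : Perm (Fin m))}) := by
  have h1 := ((alternatingGroup (Fin m)).subgroupOf
    (centralizer {(y : Perm (Fin m))})).card_mul_index
  rw [Nat.card_congr (altEquiv y)] at h1
  exact ⟨_, h1.symm⟩

private theorem sum_le_prod (s : Multiset ℕ) (h2 : ∀ a ∈ s, 2 ≤ a) (h0 : s ≠ 0) :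
    2 ≤ s.sum ∧ s.sum ≤ s.prod := by
  induction s using Multiset.induction_on with
  | empty => exact absurd rfl h0
  | cons a s ih =>
    rw [Multiset.sum_cons, Multiset.prod_cons]
    have ha : 2 ≤ a := h2 a (Multiset.mem_cons_self a s)
    by_cases hs : s = 0
    · subst hs
      simp only [Multiset.sum_zero, Multiset.prod_zero, add_zero, mul_one]
      exact ⟨ha, le_rfl⟩
    · obtain ⟨h3, h4⟩ := ih (fun b hb => h2 b (Multiset.mem_cons_of_mem hb)) hs
      refine ⟨by omega, ?_⟩
      have h5 : a + s.sum ≤ a * s.sum := by nlinarith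
      exact h5.trans (Nat.mul_le_mul_left a h4)

/-- the centraliser in `A_m` of an even permutation has more than `m / 2` elements -/
theorem lt_card_centralizer {m : ℕ} (hm : 5 ≤ m) (y : alternatingGroup (Fin m)) :
    m / 2 < Nat.card (Subgroup.centralizer {y}) := by
  -- order
  have hord : orderOf (y : Perm (Fin m)) ≤ Nat.card (centralizer {y}) := by
    rw [Subgroup.orderOf_coe, ← Nat.card_zpowers]
    refine Subgroup.card_le_of_le ?_
    rw [Subgroup.zpowers_le, mem_centralizer_singleton_iff]
  have hle := card_cent_le hm y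
  obtain ⟨s, hs⟩ : ∃ s, s = (y : Perm (Fin m)).cycleType := ⟨_, rfl⟩
  have h2 : ∀ a ∈ s, 2 ≤ a := fun a ha => by
    rw [hs] at ha
    exact two_le_of_mem_cycleType ha
  have hsum : s.sum ≤ m := by
    have := sum_cycleType_le (y : Perm (Fin m))
    rwa [← hs, Fintype.card_fin] at this
  have hcard : Nat.card (centralizer {(y : Perm (Fin m))}) =
      (m - s.sum).factorial * s.prod * (∏ n ∈ s.toFinset, (s.count n).factorial) := by
    rw [nat_card_centralizer, ← hs, Fintype.card_fin]
  have hlcm : orderOf (y : Perm (Fin m)) = s.lcm := by rw [hs, lcm_cycleType]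
  have hsign : Even (s.sum + Multiset.card s) := by
    have h3 : Perm.sign (y : Perm (Fin m)) = 1 := y.2
    rw [sign_of_cycleType, ← hs] at h3
    by_contra h4
    rw [Nat.not_even_iff_odd] at h4
    rw [h4.neg_one_pow] at h3
    exact absurd h3 (by decide)
  have hpos : 1 ≤ ∏ n ∈ s.toFinset, (s.count n).factorial :=
    Finset.one_le_prod' fun n _ => Nat.succ_le_of_lt (Nat.factorial_pos _)
  -- it is enough to have many elements in the centraliser in `S_m`
  have hfin : m + 1 ≤ (m - s.sum).factorial * s.prod * (∏ n ∈ s.toFinset, (s.count n).factorial) →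
      m / 2 < Nat.card (centralizer {y}) := by
    intro h
    rw [← hcard] at h
    omega
  have hfin' : m + 1 ≤ (m - s.sum).factorial * s.prod → m / 2 < Nat.card (centralizer {y}) :=
    fun h => hfin (h.trans (Nat.le_mul_of_pos_right _ hpos))
  by_cases h0 : s = 0
  · apply hfin'
    rw [h0, Multiset.sum_zero, Multiset.prod_zero, Nat.sub_zero, mul_one]
    obtain ⟨k, rfl⟩ : ∃ k, m = k + 2 := ⟨m - 2, by omega⟩
    rw [Nat.factorial_succ]
    have := Nat.self_le_factorial (k + 1)
    nlinarith
  obtain ⟨hs2, hsp⟩ := sum_le_prod s h2 h0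
  obtain ⟨a, ha⟩ := Multiset.exists_mem_of_ne_zero h0
  obtain ⟨s1, hs1⟩ := Multiset.exists_cons_of_mem ha
  have ha2 : 2 ≤ a := h2 a ha
  by_cases h1 : s1 = 0
  · -- one cycle
    rw [h1] at hs1
    have hsa : s.sum = a := by rw [hs1]; simp
    have hpa : s.prod = a := by rw [hs1]; simp
    have hla : s.lcm = a := by rw [hs1]; simp
    rw [hla] at hlcm
    rw [hlcm] at hord
    by_cases h3 : m / 2 < a
    · omega
    · apply hfin'
      rw [hsa, hpa]
      have h4 : 3 ≤ m - a := by omega
      obtain ⟨f, hf⟩ : ∃ f, f = m - a := ⟨_, rfl⟩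
      rw [← hf] at h4 ⊢
      have h5 : 2 * f ≤ f.factorial := by
        obtain ⟨k, rfl⟩ : ∃ k, f = k + 2 := ⟨f - 2, by omega⟩
        rw [Nat.factorial_succ]
        have := Nat.self_le_factorial (k + 1)
        nlinarith
      have h6 : m = f + a := by omega
      rw [h6]
      nlinarith
  -- at least two cycles
  have h1' : ∀ b ∈ s1, 2 ≤ b := fun b hb => h2 b (by rw [hs1]; exact Multiset.mem_cons_of_mem hb)
  obtain ⟨hs12, hs1p⟩ := sum_le_prod s1 h1' h1
  have hsa : s.sum = a + s1.sum := by rw [hs1]; simp
  have hpa : s.prod = a * s1.prod := by rw [hs1]; simp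
  have hB : 2 * (s.sum - 2) ≤ s.prod := by
    rw [hpa, hsa]
    have h3 : a * s1.sum ≤ a * s1.prod := Nat.mul_le_mul_left a hs1p
    refine le_trans ?_ h3
    obtain ⟨u, rfl⟩ : ∃ u, a = u + 2 := ⟨a - 2, by omega⟩
    obtain ⟨v, hv⟩ : ∃ v, s1.sum = v + 2 := ⟨s1.sum - 2, by omega⟩
    rw [hv]
    have : u + 2 + (v + 2) - 2 = u + v + 2 := by omega
    rw [this]
    nlinarith
  obtain ⟨f, hf⟩ : ∃ f, f = m - s.sum := ⟨_, rfl⟩
  have hm' : m = f + s.sum := by omega
  rcases Nat.lt_or_ge f 2 with hf2 | hf2
  · rcases Nat.lt_or_ge f 1 with hf1 | hf1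
    · -- no fixed point
      have hf0 : f = 0 := by omega
      apply hfin'
      rw [← hf, hf0, Nat.factorial_zero, one_mul]
      omega
    · -- one fixed point
      have hf0 : f = 1 := by omega
      rcases Nat.lt_or_ge m 7 with h7 | h7
      · obtain ⟨b, hb⟩ := Multiset.exists_mem_of_ne_zero h1
        obtain ⟨s2, hs2'⟩ := Multiset.exists_cons_of_mem hb
        have hb2 : 2 ≤ b := h1' b hb
        have hsb : s1.sum = b + s2.sum := by rw [hs2']; simp
        have h20 : s2 = 0 := by
          by_contra h3
          have h2' : ∀ b ∈ s2, 2 ≤ b := fun b hb =>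
            h1' b (by rw [hs2']; exact Multiset.mem_cons_of_mem hb)
          obtain ⟨h4, -⟩ := sum_le_prod s2 h2' h3
          omega
        rw [h20] at hs2' hsb
        rw [Multiset.sum_zero] at hsb
        have hc2 : Multiset.card s = 2 := by rw [hs1, hs2']; simp
        rw [hc2] at hsign
        have h5 : m = 5 := by
          rcases hsign with ⟨k, hk⟩
          omega
        have ha' : a = 2 := by omega
        have hb' : b = 2 := by omega
        apply hfin
        rw [hs1, hs2', ha', hb', h5]
        decide
      · apply hfin'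
        rw [← hf, hf0, Nat.factorial_one, one_mul]
        omega
  · apply hfin'
    rw [← hf]
    have h5 : 2 ≤ f.factorial := by
      have := Nat.self_le_factorial f
      omega
    rcases Nat.lt_or_ge f 3 with hf3 | hf3
    · have hf0 : f = 2 := by omega
      rw [hf0, Nat.factorial_two]
      omega
    · have h6 : 2 * f ≤ f.factorial := by
        obtain ⟨k, rfl⟩ : ∃ k, f = k + 2 := ⟨f - 2, by omega⟩
        rw [Nat.factorial_succ]
        have := Nat.self_le_factorial (k + 1)
        nlinarith
      have h7 : 2 * f * s.sum ≤ f.factorial * s.prod := Nat.mul_le_mul h6 hsp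
      refine le_trans ?_ h7
      nlinarith

/-- there is an odd permutation which commutes with at most `m / 2` even ones -/
theorem exists_odd {m : ℕ} (hm : 5 ≤ m) : ∃ t : Equiv.Perm (Fin m), Equiv.Perm.sign t = -1 ∧
    Nat.card {x : alternatingGroup (Fin m) // t * (x : Equiv.Perm (Fin m)) * t⁻¹ = x} ≤ m / 2 := by
  -- the type
  obtain ⟨k, hk2, hkm, hkf, hke⟩ : ∃ k, 2 ≤ k ∧ k ≤ m ∧ m ≤ k + 1 ∧ Even k := by
    rcases Nat.even_or_odd m with h | h
    · exact ⟨m, by omega, le_rfl, by omega, h⟩
    · refine ⟨m - 1, by omega, by omega, by omega, ?_⟩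
      obtain ⟨j, hj⟩ := h
      exact ⟨j, by omega⟩
  obtain ⟨t, ht⟩ := (exists_with_cycleType_iff (Fin m) (m := ({k} : Multiset ℕ))).2
    ⟨by simpa using hkm, by simpa using hk2⟩
  have hs : Perm.sign t = -1 := by
    rw [sign_of_cycleType, ht]
    simp only [Multiset.sum_singleton, Multiset.card_singleton]
    exact hke.add_one.neg_one_pow
  refine ⟨t, hs, ?_⟩
  have hc : Nat.card (centralizer {t}) = k := by
    rw [nat_card_centralizer, ht]
    simp only [Multiset.sum_singleton, Multiset.prod_singleton, Multiset.toFinset_singleton,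
      Finset.prod_singleton, Multiset.count_singleton_self, Nat.factorial_one, mul_one,
      Fintype.card_fin]
    have : (m - k).factorial = 1 := Nat.factorial_eq_one.2 (by omega)
    rw [this, one_mul]
  have he : {x : alternatingGroup (Fin m) // t * (x : Perm (Fin m)) * t⁻¹ = x} ≃
      ((alternatingGroup (Fin m)).subgroupOf (centralizer {t})) :=
    { toFun := fun x => ⟨⟨x.1.1, by
        rw [mem_centralizer_singleton_iff]
        have := x.2
        rw [mul_inv_eq_iff_eq_mul] at this
        exact this.symm⟩, mem_subgroupOf.2 x.1.2⟩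
      invFun := fun x => ⟨⟨x.1.1, mem_subgroupOf.1 x.2⟩, by
        have := mem_centralizer_singleton_iff.1 x.1.2
        show t * (x.1.1 : Perm (Fin m)) * t⁻¹ = x.1.1
        rw [← this, mul_inv_cancel_right]⟩
      left_inv := fun _ => rfl
      right_inv := fun _ => rfl }
  rw [Nat.card_congr he]
  have h1 := ((alternatingGroup (Fin m)).subgroupOf (centralizer {t})).card_mul_index
  rw [hc] at h1
  have h2 : ((alternatingGroup (Fin m)).subgroupOf (centralizer {t})).index ≠ 1 := by
    intro h3
    rw [Subgroup.index_eq_one, subgroupOf_eq_top] at h3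
    have h4 : t ∈ centralizer {t} := mem_centralizer_singleton_iff.2 rfl
    have h5 : Perm.sign t = 1 := h3 h4
    rw [hs] at h5
    exact absurd h5 (by decide)
  have h3 : ((alternatingGroup (Fin m)).subgroupOf (centralizer {t})).index ≠ 0 := by
    intro h
    rw [h] at h1
    omega
  have h4 : 2 ≤ ((alternatingGroup (Fin m)).subgroupOf (centralizer {t})).index := by omega
  have h5 : Nat.card ((alternatingGroup (Fin m)).subgroupOf (centralizer {t})) * 2 ≤ m := by
    refine le_trans (Nat.mul_le_mul_left _ h4) ?_
    rw [h1]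
    exact hkm
  omega

/-- for every prime, an element of `A_m` with centraliser of order prime to it -/
theorem exists_prime_to {m r : ℕ} (hm : 5 ≤ m) (hr : r.Prime) :
    ∃ x : alternatingGroup (Fin m), ¬ r ∣ Nat.card (Subgroup.centralizer {x}) := by
  -- enough in `S_m`
  have key : ∀ s : Multiset ℕ, s.sum ≤ m → (∀ a ∈ s, 2 ≤ a) → Even (s.sum + Multiset.card s) →
      ¬ r ∣ (m - s.sum).factorial * s.prod * (∏ n ∈ s.toFinset, (s.count n).factorial) →
      ∃ x : alternatingGroup (Fin m), ¬ r ∣ Nat.card (centralizer {x}) := by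
    intro s h1 h2 h3 h4
    obtain ⟨t, ht⟩ := (exists_with_cycleType_iff (Fin m) (m := s)).2
      ⟨by rwa [Fintype.card_fin], h2⟩
    have hs : Perm.sign t = 1 := by
      rw [sign_of_cycleType, ht]
      exact h3.neg_one_pow
    refine ⟨⟨t, hs⟩, fun h5 => h4 ?_⟩
    have h6 := h5.trans (card_cent_dvd (⟨t, hs⟩ : alternatingGroup (Fin m)))
    rwa [show ((⟨t, hs⟩ : alternatingGroup (Fin m)) : Perm (Fin m)) = t from rfl,
      nat_card_centralizer, ht, Fintype.card_fin] at h6
  have key1 : ∀ k : ℕ, 2 ≤ k → k ≤ m → Odd k → ¬ r ∣ (m - k).factorial * k →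
      ∃ x : alternatingGroup (Fin m), ¬ r ∣ Nat.card (centralizer {x}) := by
    intro k hk hkm hodd h
    refine key {k} (by simpa using hkm) (by simpa using hk) ?_ ?_
    · simp only [Multiset.sum_singleton, Multiset.card_singleton]
      exact hodd.add_one
    · simpa using h
  rcases Nat.even_or_odd m with he | ho
  · by_cases h1 : r ∣ m - 1
    · have hr2 : r ≠ 2 := by
        rintro rfl
        obtain ⟨j, hj⟩ := he
        omega
      have hcop : ¬ r ∣ 2 * (m - 2) := by
        intro h2
        rcases (Nat.Prime.dvd_mul hr).1 h2 with h3 | h3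
        · exact hr2 ((Nat.prime_dvd_prime_iff_eq hr Nat.prime_two).1 h3)
        · have h4 : r ∣ (m - 1) - (m - 2) := Nat.dvd_sub h1 h3
          have h5 : (m - 1) - (m - 2) = 1 := by omega
          rw [h5] at h4
          exact hr.one_lt.ne' (Nat.dvd_one.1 h4)
      refine key {m - 2, 2} ?_ ?_ ?_ ?_
      · simp only [Multiset.insert_eq_cons, Multiset.sum_cons, Multiset.sum_singleton]
        omega
      · intro a ha
        simp only [Multiset.insert_eq_cons, Multiset.mem_cons, Multiset.mem_singleton] at ha
        omega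
      · simp only [Multiset.insert_eq_cons, Multiset.sum_cons, Multiset.sum_singleton,
          Multiset.card_cons, Multiset.card_singleton]
        obtain ⟨j, hj⟩ := he
        exact ⟨j + 1, by omega⟩
      · have h6 : m - 2 ≠ 2 := by
          intro h
          have : m = 4 := by omega
          omega
        have e1 : ({m - 2, 2} : Multiset ℕ).sum = m := by
          simp only [Multiset.insert_eq_cons, Multiset.sum_cons, Multiset.sum_singleton]
          omega
        have e2 : ({m - 2, 2} : Multiset ℕ).prod = 2 * (m - 2) := by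
          simp only [Multiset.insert_eq_cons, Multiset.prod_cons, Multiset.prod_singleton]
          ring
        have e3 : ∏ n ∈ ({m - 2, 2} : Multiset ℕ).toFinset,
            (({m - 2, 2} : Multiset ℕ).count n).factorial = 1 := by
          refine Finset.prod_eq_one fun n _ => ?_
          apply Nat.factorial_eq_one.2
          have hnd : ({m - 2, 2} : Multiset ℕ).Nodup := by
            simp only [Multiset.insert_eq_cons, Multiset.nodup_cons, Multiset.mem_singleton,
              Multiset.nodup_singleton, and_true]
            exact h6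
          exact Multiset.nodup_iff_count_le_one.1 hnd n
        rw [e1, e2, e3, Nat.sub_self, Nat.factorial_zero, one_mul, mul_one]
        exact hcop
    · refine key1 (m - 1) (by omega) (by omega) ?_ ?_
      · obtain ⟨j, hj⟩ := he
        exact ⟨j - 1, by omega⟩
      · have : (m - (m - 1)).factorial = 1 := Nat.factorial_eq_one.2 (by omega)
        rw [this, one_mul]
        exact h1
  · by_cases h1 : r ∣ m
    · have hr2 : r ≠ 2 := by
        rintro rfl
        obtain ⟨j, hj⟩ := ho
        omega
      refine key1 (m - 2) (by omega) (by omega) ?_ ?_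
      · obtain ⟨j, hj⟩ := ho
        exact ⟨j - 1, by omega⟩
      · have e1 : m - (m - 2) = 2 := by omega
        rw [e1, Nat.factorial_two]
        intro h2
        rcases (Nat.Prime.dvd_mul hr).1 h2 with h3 | h3
        · exact hr2 ((Nat.prime_dvd_prime_iff_eq hr Nat.prime_two).1 h3)
        · have h4 : r ∣ m - (m - 2) := Nat.dvd_sub h1 h3
          rw [e1] at h4
          exact hr2 ((Nat.prime_dvd_prime_iff_eq hr Nat.prime_two).1 h4)
    · refine key1 m (by omega) le_rfl ho ?_
      rw [Nat.sub_self, Nat.factorial_zero, one_mul]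
      exact h1

end Pool.Agent.CSK.Alt
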