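import Pool.Agent.CSK.DefsB

/-! Notions used in a statement on class sizes, one prime and powers of simple groups
(helper87). -/

set_option autoImplicit false

namespace Pool.Agent.CSK

/-- For some `d`, every coset of the group of inner automorphisms of `T` has an element with fewer
than `d` fixed points, and `d` times the size of any conjugacy class of `S` is less than the order
of `T`. -/
def Large (S : Type*) [Group S] (T : Type*) [Group T] : Prop :=
  ∃ d : ℕ, (∀ φ : T ≃* T, ∃ a : T, Nat.card {x : T // a * φ x * a⁻¹ = x} < d) ∧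
    ∀ y : S, Nat.card {x : S // IsConj y x} * d < Nat.card T

/-- `G` has a series `1 = L 0 ≤ L 1 ≤ ... ≤ L k = G` of normal subgroups in which every section
`L (i + 1) / L i` has order prime to `r`, or is isomorphic to a power of `S`, or is isomorphic to
a power of a finite nonabelian simple group `T` with `Large S T` such that every power of `r` which
divides the order of `T` divides the order of `S`. -/
def MixedSeries (S : Type*) [Group S] (G : Type*) [Group G] (r : ℕ) : Prop :=
  ∃ (k : ℕ) (L : ℕ → Subgroup G), L 0 = ⊥ ∧ L k = ⊤ ∧ (∀ i, (L i).Normal) ∧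
    ∀ i < k, L i ≤ L (i + 1) ∧ (¬ r ∣ (L i).relIndex (L (i + 1)) ∨
      (∃ (a : ℕ) (f : L (i + 1) →* (Fin a → S)), Function.Surjective f ∧
        f.ker = (L i).subgroupOf (L (i + 1))) ∨
      ∃ (T : Type) (_ : Group T) (_ : Finite T) (_ : IsSimpleGroup T),
        (∃ a b : T, a * b ≠ b * a) ∧ Large S T ∧
        (∀ e, r ^ e ∣ Nat.card T → r ^ e ∣ Nat.card S) ∧
        ∃ (a : ℕ) (f : L (i + 1) →* (Fin a → T)), Function.Surjective f ∧
          f.ker = (L i).subgroupOf (L (i + 1)))

end Pool.Agent.CSK
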