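import Pool.Agent.CSK.OnePrime
import Pool.Agent.CSK.DefsC

/-! Groups with class sizes of a power of a simple group: other composition factors (helper87). -/

set_option autoImplicit false

namespace Pool.Agent.CSK

open Subgroup

/-- fixed points in a section -/
theorem sec_quality {T : Type*} [Group T] [Finite T] [IsSimpleGroup T]
    (hT : ∃ a b : T, a * b ≠ b * a) (d : ℕ) (hd2 : 2 ≤ d)
    (hP : ∀ ψ : T ≃* T, ∃ a : T, Nat.card {x : T // a * ψ x * a⁻¹ = x} ≤ d ∧
      (Nat.card {x : T // a * ψ x * a⁻¹ = x} < d ∨ ∃ b, ∀ x, ψ x = b * x * b⁻¹))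
    {G : Type*} [Group G] [Finite G] (N K' : Subgroup G) (hN : N.Normal)
    (hK' : K'.Normal) (hle : K' ≤ N) {a : ℕ} (f : N →* (Fin a → T)) (hf : Function.Surjective f)
    (hker : f.ker = K'.subgroupOf N) (g : G) :
    ∃ m₀ : N, ∀ x ∈ K', Nat.card T ^ a * (centralizer {x * (m₀.1 * g)}).relIndex K' ≤
      d ^ a * (centralizer {x * (m₀.1 * g)}).relIndex N := by
  rcases best hT d hd2 hP N K' hK' hle f hf hker g with ⟨-, m₀, hm₀⟩ | ⟨m₀, hm₀⟩
  · exact ⟨m₀, hm₀⟩
  · exact ⟨m₀, fun x hx => (hm₀ x hx).le⟩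

/-- one step of the series -/
theorem up {G : Type*} [Group G] [Finite G] (N K' : Subgroup G) (hle : K' ≤ N)
    (M a B e e' : ℕ) (hM : 1 ≤ M)
    (hstep : ∀ g : G, ∃ m₀ : N, ∀ x ∈ K',
      M ^ a * (centralizer {x * (m₀.1 * g)}).relIndex K' + e ≤
        (centralizer {x * (m₀.1 * g)}).relIndex N)
    (h : ∀ g : G, ∃ x ∈ K', M ^ B + e' ≤ (centralizer {x * g}).relIndex K') :
    ∀ g : G, ∃ x ∈ N, M ^ (B + a) + (e' + e) ≤ (centralizer {x * g}).relIndex N := by
  intro g
  obtain ⟨m₀, hm₀⟩ := hstep g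
  obtain ⟨x, hx, hxb⟩ := h (m₀.1 * g)
  refine ⟨x * m₀.1, N.mul_mem (hle hx) m₀.2, ?_⟩
  rw [mul_assoc]
  have h1 := hm₀ x hx
  have h2 : 1 ≤ M ^ a := Nat.one_le_pow _ _ hM
  calc M ^ (B + a) + (e' + e) ≤ M ^ (B + a) + (M ^ a * e' + e) := by
        have : 1 * e' ≤ M ^ a * e' := Nat.mul_le_mul_right _ h2
        omega
    _ = M ^ a * (M ^ B + e') + e := by rw [pow_add]; ring
    _ ≤ M ^ a * (centralizer {x * (m₀.1 * g)}).relIndex K' + e :=
        Nat.add_le_add_right (Nat.mul_le_mul_left _ hxb) _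
    _ ≤ _ := h1

/-- a section has the order of the power -/
theorem rel_card {T : Type*} [Group T] {G : Type*} [Group G] [Finite G] (N K' : Subgroup G)
    {a : ℕ} (f : N →* (Fin a → T)) (hf : Function.Surjective f)
    (hker : f.ker = K'.subgroupOf N) : K'.relIndex N = Nat.card T ^ a := by
  have h2 : K'.relIndex N = f.ker.index := by
    rw [hker]
    rfl
  rw [h2, index_ker, MonoidHom.range_eq_top.2 hf, Subgroup.card_top, Nat.card_pi,
    Finset.prod_const, Finset.card_univ, Fintype.card_fin]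

/-- the sections of the two good kinds -/
def Good (S : Type*) [Group S] {G : Type*} [Group G] (r : ℕ) (K N : Subgroup G) : Prop :=
  ¬ r ∣ K.relIndex N ∨ ∃ (a : ℕ) (f : N →* (Fin a → S)), Function.Surjective f ∧
    f.ker = K.subgroupOf N

theorem mixed_aux {S : Type*} [Group S] [Finite S] [IsSimpleGroup S]
    (hS : ∃ a b : S, a * b ≠ b * a) (c : ℕ) (hc2 : 2 ≤ c)
    (hP : ∀ ψ : S ≃* S, ∃ a : S, Nat.card {x : S // a * ψ x * a⁻¹ = x} ≤ c ∧
      (Nat.card {x : S // a * ψ x * a⁻¹ = x} < c ∨ ∃ b, ∀ x, ψ x = b * x * b⁻¹))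
    (M : ℕ) (hMc : M * c = Nat.card S) (hMS : ∃ y : S, M = Nat.card {x : S // IsConj y x})
    {r : ℕ} (hr : r.Prime) {G : Type*} [Group G] [Finite G] (L : ℕ → Subgroup G) (h0 : L 0 = ⊥)
    (hn : ∀ i, (L i).Normal) (k : ℕ)
    (h : ∀ i < k, L i ≤ L (i + 1) ∧ (¬ r ∣ (L i).relIndex (L (i + 1)) ∨
      (∃ (a : ℕ) (f : L (i + 1) →* (Fin a → S)), Function.Surjective f ∧
        f.ker = (L i).subgroupOf (L (i + 1))) ∨
      ∃ (T : Type) (_ : Group T) (_ : Finite T) (_ : IsSimpleGroup T),
        (∃ a b : T, a * b ≠ b * a) ∧ Large S T ∧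
        (∀ e, r ^ e ∣ Nat.card T → r ^ e ∣ Nat.card S) ∧
        ∃ (a : ℕ) (f : L (i + 1) →* (Fin a → T)), Function.Surjective f ∧
          f.ker = (L i).subgroupOf (L (i + 1)))) :
    ∀ m ≤ k, ∃ B e : ℕ, (Nat.card (L m)).factorization r ≤ B * (Nat.card S).factorization r ∧
      (∀ g : G, ∃ x ∈ L m, M ^ B + e ≤ (centralizer {x * g}).relIndex (L m)) ∧
      ((∀ i < m, Good S r (L i) (L (i + 1))) ∨ 0 < e) := by
  have hM1 : 1 ≤ M := by
    rcases Nat.eq_zero_or_pos M with h1 | h1
    · rw [h1, zero_mul] at hMc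
      exact absurd hMc.symm Nat.card_pos.ne'
    · exact h1
  intro m
  induction m with
  | zero =>
    intro _
    refine ⟨0, 0, ?_, fun g => ⟨1, one_mem _, ?_⟩, Or.inl fun i hi => absurd hi (Nat.not_lt_zero i)⟩
    · rw [h0]
      simp
    · rw [pow_zero, add_zero]
      exact Nat.pos_of_ne_zero (rel_ne _ _)
  | succ m ih =>
    intro hm
    obtain ⟨B, e, hBr, hBq, hBg⟩ := ih (by omega)
    obtain ⟨hle, hor⟩ := h m (by omega)
    have hcard : Nat.card (L m) * (L m).relIndex (L (m + 1)) = Nat.card (L (m + 1)) := by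
      have h1 := Subgroup.card_mul_index ((L m).subgroupOf (L (m + 1)))
      rwa [Nat.card_congr (Subgroup.subgroupOfEquivOfLe hle).toEquiv] at h1
    have hfac : (Nat.card (L (m + 1))).factorization r =
        (Nat.card (L m)).factorization r + ((L m).relIndex (L (m + 1))).factorization r := by
      rw [← hcard, Nat.factorization_mul Nat.card_pos.ne' (rel_ne _ _), Finsupp.add_apply]
    have hgood : Good S r (L m) (L (m + 1)) →
        ((∀ i < m + 1, Good S r (L i) (L (i + 1))) ∨ 0 < e) := by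
      intro hg
      rcases hBg with hBg | hBg
      · left
        intro i hi
        rcases Nat.lt_succ_iff_lt_or_eq.1 hi with h1 | h1
        · exact hBg i h1
        · rw [h1]
          exact hg
      · exact Or.inr hBg
    by_cases hdvd : r ∣ (L m).relIndex (L (m + 1))
    · rcases hor with hor | ⟨a, f, hf, hker⟩ | ⟨T, iT, fT, sT, hTn, ⟨d, hd1, hd2⟩, hTr, a, f, hf,
          hker⟩
      · exact absurd hdvd hor
      · refine ⟨B + a, e, ?_, ?_, hgood (Or.inr ⟨a, f, hf, hker⟩)⟩
        · rw [hfac, rel_card _ _ f hf hker, Nat.factorization_pow, Finsupp.smul_apply, smul_eq_mul,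
            add_mul]
          exact Nat.add_le_add_right hBr _
        · have h1 := up (L (m + 1)) (L m) hle M a B 0 e hM1 (fun g => by
            obtain ⟨m₀, hm₀⟩ := sec_quality hS c hc2 hP (L (m + 1)) (L m) (hn _) (hn _) hle f hf
              hker g
            refine ⟨m₀, fun x hx => ?_⟩
            have h2 := hm₀ x hx
            rw [← hMc, mul_pow] at h2
            have hca : 0 < c ^ a := Nat.pow_pos (by omega)
            rw [add_zero]
            apply Nat.le_of_mul_le_mul_left _ hca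
            calc c ^ a * (M ^ a * (centralizer {x * (m₀.1 * g)}).relIndex (L m))
                = M ^ a * c ^ a * (centralizer {x * (m₀.1 * g)}).relIndex (L m) := by ring
              _ ≤ _ := h2) hBq
          simpa using h1
      · -- a power of another simple group
        have hrel := rel_card _ _ f hf hker
        have ha : a ≠ 0 := by
          intro ha
          rw [hrel, ha, pow_zero] at hdvd
          exact hr.one_lt.ne' (Nat.dvd_one.1 hdvd)
        obtain ⟨y, hy⟩ := hMS
        have hMd : M * d < Nat.card T := by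
          rw [hy]
          exact hd2 y
        have hd2' : 2 ≤ d := by
          obtain ⟨b, hb⟩ := hd1 (MulEquiv.refl T)
          have : 0 < Nat.card {x : T // b * (MulEquiv.refl T) x * b⁻¹ = x} := by
            have : Nonempty {x : T // b * (MulEquiv.refl T) x * b⁻¹ = x} := ⟨⟨1, by simp⟩⟩
            exact Nat.card_pos
          omega
        refine ⟨B + a, e + 1, ?_, ?_, Or.inr (Nat.succ_pos e)⟩
        · rw [hfac, hrel, Nat.factorization_pow, Finsupp.smul_apply, smul_eq_mul, add_mul]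
          refine Nat.add_le_add hBr (Nat.mul_le_mul_left _ ?_)
          have h1 := hTr _ (Nat.ordProj_dvd (Nat.card T) r)
          exact (hr.pow_dvd_iff_le_factorization Nat.card_pos.ne').1 h1
        · refine up (L (m + 1)) (L m) hle M a B 1 e hM1 (fun g => ?_) hBq
          obtain ⟨m₀, hm₀⟩ := sec_quality hTn d hd2' (fun ψ => by
            obtain ⟨b, hb⟩ := hd1 ψ
            exact ⟨b, hb.le, Or.inl hb⟩) (L (m + 1)) (L m) (hn _) (hn _) hle f hf hker g
          refine ⟨m₀, fun x hx => ?_⟩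
          have h2 := hm₀ x hx
          have hda : 0 < d ^ a := Nat.pow_pos (by omega)
          have h3 : (M * d) ^ a < Nat.card T ^ a := Nat.pow_lt_pow_left hMd ha
          have h4 : 0 < (centralizer {x * (m₀.1 * g)}).relIndex (L m) :=
            Nat.pos_of_ne_zero (rel_ne _ _)
          have h5 : d ^ a * (M ^ a * (centralizer {x * (m₀.1 * g)}).relIndex (L m)) <
              d ^ a * (centralizer {x * (m₀.1 * g)}).relIndex (L (m + 1)) := by
            calc d ^ a * (M ^ a * (centralizer {x * (m₀.1 * g)}).relIndex (L m))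
                = (M * d) ^ a * (centralizer {x * (m₀.1 * g)}).relIndex (L m) := by
                  rw [mul_pow]; ring
              _ < Nat.card T ^ a * (centralizer {x * (m₀.1 * g)}).relIndex (L m) :=
                  Nat.mul_lt_mul_of_pos_right h3 h4
              _ ≤ _ := h2
          exact Nat.lt_of_mul_lt_mul_left h5
    · refine ⟨B, e, ?_, ?_, hgood (Or.inl hdvd)⟩
      · rw [hfac, Nat.factorization_eq_zero_of_not_dvd hdvd, add_zero]
        exact hBr
      · intro g
        obtain ⟨x, hx, hxb⟩ := hBq g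
        exact ⟨x, hle hx, hxb.trans (relIndex_le_of_le_right hle (rel_ne _ _))⟩

/-- other composition factors do not occur -/
theorem mixed {S : Type*} [Group S] [Finite S] [IsSimpleGroup S]
    (hS : ∃ a b : S, a * b ≠ b * a) (hP : SmallOuter S) {r : ℕ} (hr : r.Prime)
    (hrS : r ∣ Nat.card S) (hx : ∃ x : S, ¬ r ∣ Nat.card (centralizer {x})) (n : ℕ) {G : Type*}
    [Group G] [Finite G]
    (hN : ∀ g : G, ∃ h : (Fin n → S),
      Nat.card {x : G // IsConj g x} ∣ Nat.card {x : (Fin n → S) // IsConj h x})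
    (hN' : ∀ h : (Fin n → S), ∃ g : G,
      Nat.card {x : (Fin n → S) // IsConj h x} ∣ Nat.card {x : G // IsConj g x})
    (hG : MixedSeries S G r) :
    ∃ F : G →* (Fin n → S), Function.Surjective F ∧ F.ker = center G := by
  classical
  obtain ⟨k, L, h0, hk, hn, h⟩ := hG
  obtain ⟨x₀, hx₀⟩ := Finite.exists_min (fun x : S => Nat.card (centralizer {x}))
  obtain ⟨c, hc⟩ : ∃ c, Nat.card (centralizer {x₀}) = c := ⟨_, rfl⟩
  obtain ⟨M, hM⟩ : ∃ M, M = Nat.card {x : S // IsConj x₀ x} := ⟨_, rfl⟩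
  rw [hc] at hx₀
  have hMc : M * c = Nat.card S := by
    rw [hM, ← hc]
    exact cs_mul x₀
  have hcS : c < Nat.card S := by
    obtain ⟨u, v, huv⟩ := hS
    refine (hx₀ u).trans_lt ?_
    refine lt_of_le_of_ne (Subgroup.card_le_card_group _) fun h => huv ?_
    have h1 : centralizer {u} = ⊤ := Subgroup.card_eq_iff_eq_top _ |>.1 h
    have h2 : v ∈ centralizer {u} := by
      rw [h1]
      exact mem_top _
    exact (mem_centralizer_singleton_iff.1 h2).symm
  have hx₀1 : x₀ ≠ 1 := by
    intro h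
    have h1 : centralizer {x₀} = ⊤ := by
      rw [eq_top_iff]
      intro y _
      rw [mem_centralizer_singleton_iff, h]
      simp
    rw [h1, Subgroup.card_top] at hc
    omega
  have hc2 : 2 ≤ c := by
    have : Nontrivial (centralizer {x₀}) := by
      refine ⟨⟨⟨x₀, ?_⟩, 1, ?_⟩⟩
      · rw [mem_centralizer_singleton_iff]
      · intro h1
        exact hx₀1 (congrArg Subtype.val h1)
    rw [← hc]
    exact Finite.one_lt_card
  have hM2 : 2 ≤ M := by
    by_contra hcon
    have h1 : M ≤ 1 := by omega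
    have h2 := Nat.mul_le_mul_right c h1
    rw [hMc, one_mul] at h2
    omega
  have hP' : ∀ ψ : S ≃* S, ∃ a : S, Nat.card {x : S // a * ψ x * a⁻¹ = x} ≤ c ∧
      (Nat.card {x : S // a * ψ x * a⁻¹ = x} < c ∨ ∃ b, ∀ x, ψ x = b * x * b⁻¹) := by
    intro ψ
    rcases hP ψ with ⟨b, hb⟩ | ⟨a, ha⟩
    · refine ⟨x₀ * b⁻¹, le_of_eq ?_, Or.inr ⟨b, hb⟩⟩
      rw [← hc]
      refine Nat.card_congr (Equiv.subtypeEquivRight fun x => ?_)
      rw [mem_centralizer_singleton_iff, hb]
      have h1 : x₀ * b⁻¹ * (b * x * b⁻¹) * (x₀ * b⁻¹)⁻¹ = x₀ * x * x₀⁻¹ := by group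
      rw [h1, mul_inv_eq_iff_eq_mul]
      exact ⟨fun h => h.symm, fun h => h.symm⟩
    · have := ha x₀
      rw [hc] at this
      exact ⟨a, this.le, Or.inl this⟩
  have hbd : ∀ g : G, Nat.card {x : G // IsConj g x} ≤ M ^ n := by
    intro g
    obtain ⟨h, hh⟩ := hN g
    refine (Nat.le_of_dvd (Nat.pos_of_ne_zero (cs_pos h)) hh).trans ?_
    rw [cs_pi]
    have h2 : (∏ _i : Fin n, M) = M ^ n := by
      rw [Finset.prod_const, Finset.card_univ, Fintype.card_fin]
    rw [← h2]
    refine Finset.prod_le_prod' fun i _ => ?_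
    have h3 := cs_mul (h i)
    have h4 : Nat.card {x : S // IsConj (h i) x} * c ≤ M * c := by
      rw [hMc, ← h3]
      exact Nat.mul_le_mul_left _ (hx₀ (h i))
    exact Nat.le_of_mul_le_mul_right h4 (by omega)
  obtain ⟨B, e, hBr, hBq, hBg⟩ := mixed_aux hS c hc2 hP' M hMc ⟨x₀, hM⟩ hr L h0 hn k h k le_rfl
  rw [hk, Subgroup.card_top] at hBr
  -- the `r`-part
  have hnB : n ≤ B := by
    obtain ⟨x, hx⟩ := hx
    obtain ⟨g, hg⟩ := hN' (fun _ => x)
    have h1 : (Nat.card {y : S // IsConj x y}).factorization r =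
        (Nat.card S).factorization r := by
      rw [← cs_mul x, Nat.factorization_mul (cs_pos x) Nat.card_pos.ne', Finsupp.add_apply,
        Nat.factorization_eq_zero_of_not_dvd hx, add_zero]
    have h2 : (Nat.card {y : (Fin n → S) // IsConj (fun _ => x) y}).factorization r =
        n * (Nat.card S).factorization r := by
      rw [cs_pi, Finset.prod_const, Finset.card_univ, Fintype.card_fin, Nat.factorization_pow,
        Finsupp.smul_apply, smul_eq_mul, h1]
    have h3 : Nat.card {y : (Fin n → S) // IsConj (fun _ => x) y} ∣ Nat.card G := by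
      refine hg.trans ?_
      rw [← cs_mul g]
      exact Dvd.intro _ rfl
    have h4 := (Nat.factorization_le_iff_dvd (cs_pos _) Nat.card_pos.ne').2 h3 r
    rw [h2] at h4
    have h5 : 0 < (Nat.card S).factorization r := hr.factorization_pos_of_dvd Nat.card_pos.ne' hrS
    exact Nat.le_of_mul_le_mul_right (h4.trans hBr) h5
  have he : ¬ 0 < e := by
    intro he
    obtain ⟨x, -, hxb⟩ := hBq 1
    rw [mul_one, hk, relIndex_top_right, ← cs_eq_index] at hxb
    have h1 := hbd x
    have h2 : M ^ n ≤ M ^ B := Nat.pow_le_pow_right (by omega) hnB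
    omega
  rcases hBg with hBg | hBg
  · exact one_prime hS hP hr hrS hx n hN hN' ⟨k, L, h0, hk, hn, fun i hi => ⟨(h i hi).1, hBg i hi⟩⟩
  · exact absurd hBg he

end Pool.Agent.CSK
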