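import Pool.Agent.CSK.AltA
import Pool.Agent.CSK.AltB
import Pool.Agent.CSK.Mixed

/-! Class sizes of powers of alternating groups (helper87). -/

set_option autoImplicit false

namespace Pool.Agent.CSK.Alt

open Equiv Equiv.Perm Subgroup Nat

/-- alternating groups of degree `m ≥ 5`, `m ≠ 6`, satisfy `SmallOuter` -/
theorem smallOuter_alt {m : ℕ} (hm : 5 ≤ m) (hm6 : m ≠ 6) :
    SmallOuter (alternatingGroup (Fin m)) := by
  intro ψ
  obtain ⟨σ, hσ⟩ := aut_alt hm hm6 ψ
  rcases Int.units_eq_one_or (sign σ) with h1 | h1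
  · refine Or.inl ⟨⟨σ, h1⟩, fun x => Subtype.ext ?_⟩
    exact hσ x
  · obtain ⟨t, ht, hcard⟩ := exists_odd hm
    have h2 : sign (t * σ⁻¹) = 1 := by
      rw [map_mul, map_inv, ht, h1]
      rfl
    refine Or.inr ⟨⟨t * σ⁻¹, h2⟩, fun y => ?_⟩
    refine lt_of_le_of_lt (le_trans (le_of_eq ?_) hcard) (lt_card_centralizer hm y)
    refine Nat.card_congr (Equiv.subtypeEquivRight fun x => ?_)
    rw [Subtype.ext_iff]
    change (t * σ⁻¹) * (ψ x : Perm (Fin m)) * (t * σ⁻¹)⁻¹ = x ↔ _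
    rw [hσ]
    have h3 : (t * σ⁻¹) * (σ * (x : Perm (Fin m)) * σ⁻¹) * (t * σ⁻¹)⁻¹ =
        t * (x : Perm (Fin m)) * t⁻¹ := by group
    rw [h3]

/-- alternating groups of degree at least five are not commutative -/
theorem noncomm_alt {m : ℕ} (hm : 5 ≤ m) :
    ∃ a b : alternatingGroup (Fin m), a * b ≠ b * a := by
  let z : Fin m := ⟨0, by omega⟩
  let o : Fin m := ⟨1, by omega⟩
  let i₁ : Fin m := ⟨2, by omega⟩
  let i₂ : Fin m := ⟨3, by omega⟩
  have hzo : z ≠ o := by simp [z, o]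
  have h1z : i₁ ≠ z := by simp [z, i₁]
  have h1o : i₁ ≠ o := by simp [o, i₁]
  have h2z : i₂ ≠ z := by simp [z, i₂]
  have h2o : i₂ ≠ o := by simp [o, i₂]
  have h12 : i₁ ≠ i₂ := by simp [i₁, i₂]
  refine ⟨⟨cyc z o i₁, (cyc_three hzo h1z h1o).mem_alternatingGroup⟩,
    ⟨cyc z o i₂, (cyc_three hzo h2z h2o).mem_alternatingGroup⟩, fun h => h12 ?_⟩
  have h1 : cyc z o i₁ * cyc z o i₂ = cyc z o i₂ * cyc z o i₁ := congrArg Subtype.val h
  have h2 := congrArg (fun w : Perm (Fin m) => w z) h1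
  simp only [mul_apply] at h2
  rwa [cyc_z hzo h2o, cyc_z hzo h1o, cyc_o, cyc_o] at h2

/-- primes up to `m` divide the order -/
theorem dvd_alt {m r : ℕ} (hm : 5 ≤ m) (hr : r.Prime) (hrm : r ≤ m) :
    r ∣ Nat.card (alternatingGroup (Fin m)) := by
  classical
  have : Nontrivial (Fin m) := Fin.nontrivial_iff_two_le.2 (by omega)
  have h1 : 2 * Nat.card (alternatingGroup (Fin m)) = m ! := by
    rw [two_mul_nat_card_alternatingGroup, Nat.card_eq_fintype_card, Fintype.card_perm,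
      Fintype.card_fin]
  by_cases hr2 : r = 2
  · subst hr2
    have h2 : 4 ! ∣ m ! := factorial_dvd_factorial (by omega)
    rw [← h1] at h2
    have h3 : (4 : ℕ)! = 24 := rfl
    rw [h3] at h2
    omega
  · have h2 : r ∣ m ! := (Nat.Prime.dvd_factorial hr).2 hrm
    rw [← h1] at h2
    rcases hr.dvd_mul.1 h2 with h3 | h3
    · exact absurd ((Nat.prime_dvd_prime_iff_eq hr Nat.prime_two).1 h3) hr2
    · exact h3

/-- powers of alternating groups and one prime -/
theorem alt_powers {m : ℕ} (hm : 5 ≤ m) (hm6 : m ≠ 6) {r : ℕ} (hr : r.Prime) (hrm : r ≤ m)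
    (n : ℕ) {G : Type*} [Group G] [Finite G]
    (hN : ∀ g : G, ∃ h : (Fin n → alternatingGroup (Fin m)), Nat.card {x : G // IsConj g x} ∣
      Nat.card {x : (Fin n → alternatingGroup (Fin m)) // IsConj h x})
    (hN' : ∀ h : (Fin n → alternatingGroup (Fin m)), ∃ g : G,
      Nat.card {x : (Fin n → alternatingGroup (Fin m)) // IsConj h x} ∣
        Nat.card {x : G // IsConj g x})
    (hG : MixedSeries (alternatingGroup (Fin m)) G r) :
    ∃ F : G →* (Fin n → alternatingGroup (Fin m)),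
      Function.Surjective F ∧ F.ker = Subgroup.center G := by
  have : IsSimpleGroup (alternatingGroup (Fin m)) :=
    alternatingGroup.isSimpleGroup (by rw [Nat.card_eq_fintype_card, Fintype.card_fin]; exact hm)
  exact Pool.Agent.CSK.mixed (noncomm_alt hm) (smallOuter_alt hm hm6) hr
    (dvd_alt hm hr hrm) (exists_prime_to hm hr) n hN hN' hG

end Pool.Agent.CSK.Alt
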