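import Mathlib

/-! Class sizes and kernels of homomorphisms, first part (helper87). -/

set_option autoImplicit false

namespace Pool.Agent.CSK

open Subgroup

/-- class equation -/
theorem cs_mul {G : Type*} [Group G] (g : G) :
    Nat.card {x : G // IsConj g x} * Nat.card (centralizer {g}) = Nat.card G := by
  rw [nat_card_centralizer_nat_card_stabilizer]
  have h1 := (MulAction.stabilizer (ConjAct G) g).card_mul_index
  rw [MulAction.index_stabilizer] at h1
  have h2 : Nat.card {x : G // IsConj g x} = (MulAction.orbit (ConjAct G) g).ncard := by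
    rw [← Nat.card_coe_set_eq]
    refine Nat.card_congr (Equiv.subtypeEquivRight fun x => ?_)
    rw [ConjAct.mem_orbit_conjAct]
    exact ⟨fun h => h.symm, fun h => h.symm⟩
  rw [h2, mul_comm, h1]
  rfl

/-- the class size of the image times the index in the kernel divides the class size -/
theorem cs_ker {G H : Type*} [Group G] [Group H] [Finite G] (f : G →* H)
    (hf : Function.Surjective f) (g : G) :
    Nat.card {x : H // IsConj (f g) x} * ((centralizer {g}).subgroupOf f.ker).index ∣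
      Nat.card {x : G // IsConj g x} := by
  have hH : Finite H := Finite.of_surjective f hf
  set C : Subgroup G := centralizer {g} with hC
  set R : Subgroup G := f.ker with hR
  let φ : C →* H := f.comp C.subtype
  have h1 : Nat.card φ.ker * Nat.card φ.range = Nat.card C := by
    rw [← index_ker, Subgroup.card_mul_index]
  have h2 : Nat.card φ.ker = Nat.card (C.subgroupOf R) := by
    refine Nat.card_congr ⟨fun x => ⟨⟨x.1.1, ?_⟩, ?_⟩, fun x => ⟨⟨x.1.1, ?_⟩, ?_⟩, ?_, ?_⟩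
    · exact x.2
    · exact x.1.2
    · exact x.2
    · exact x.1.2
    · intro x; rfl
    · intro x; rfl
  have h3 : Nat.card φ.range ∣ Nat.card (centralizer {f g}) := by
    apply Subgroup.card_dvd_of_le
    rintro _ ⟨c, rfl⟩
    rw [mem_centralizer_singleton_iff]
    have hc := mem_centralizer_singleton_iff.1 c.2
    change f c.1 * f g = f g * f c.1
    rw [← map_mul, ← map_mul, hc]
  have h4 := cs_mul g
  have h5 := cs_mul (f g)
  have h6 : Nat.card R * Nat.card H = Nat.card G := by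
    rw [← Subgroup.card_mul_index R, hR, index_ker, MonoidHom.range_eq_top.2 hf, Subgroup.card_top]
  have h7 := (C.subgroupOf R).card_mul_index
  obtain ⟨k, hk⟩ := h3
  have hpos : 0 < Nat.card C := Nat.card_pos
  refine ⟨k, ?_⟩
  apply Nat.eq_of_mul_eq_mul_right hpos
  rw [h4, ← h6, ← h7, ← h5, hk, ← h1, h2]
  ring

/-- a subgroup of prime to `r` index contains a conjugate of every `r`-subgroup -/
theorem conj_in {R : Type*} [Group R] [Finite R] {r : ℕ} [Fact r.Prime] (P : Subgroup R)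
    (hP : IsPGroup r P) (K : Subgroup R) (hK : ¬ r ∣ K.index) :
    ∃ x : R, ∀ p ∈ P, x⁻¹ * p * x ∈ K := by
  obtain ⟨q, hq⟩ := hP.nonempty_fixed_point_of_prime_not_dvd_card (R ⧸ K) hK
  obtain ⟨x, rfl⟩ := QuotientGroup.mk_surjective q
  refine ⟨x, fun p hp => ?_⟩
  have h1 := hq ⟨p, hp⟩
  have h2 : ((p * x : R) : R ⧸ K) = (x : R ⧸ K) := h1
  have h3 := QuotientGroup.eq.1 h2.symm
  rwa [← mul_assoc] at h3

/-- every element of a coset `yR` centralises a Sylow `r`-subgroup of `R`: then Sylow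
`r`-subgroups of `R` are central in their normalisers -/
theorem burn {G : Type*} [Group G] [Finite G] (R : Subgroup G) [R.Normal] {r : ℕ} [Fact r.Prime]
    (y : G) (hy : ∀ ρ ∈ R, ¬ r ∣ ((centralizer {y * ρ}).subgroupOf R).index) (P : Sylow r R) :
    normalizer P ≤ centralizer (P : Set R) := by
  classical
  -- elements of the coset which centralise `P`
  let A : Set R := {a | ∀ p ∈ P, (y * a.1) * p.1 = p.1 * (y * a.1)}
  have hstep : ∀ ρ : R, ∃ (x a : R), a ∈ A ∧ y * a.1 = x.1 * (y * ρ.1) * x.1⁻¹ := by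
    intro ρ
    obtain ⟨x, hx⟩ := conj_in (P : Subgroup R) P.2 _ (hy ρ.1 ρ.2)
    have hmem : y⁻¹ * (x.1 * (y * ρ.1) * x.1⁻¹) ∈ R := by
      have h1 : y⁻¹ * (x.1 * (y * ρ.1) * x.1⁻¹) = (y⁻¹ * x.1 * y) * ρ.1 * x.1⁻¹ := by group
      rw [h1]
      refine R.mul_mem (R.mul_mem ?_ ρ.2) (R.inv_mem x.2)
      have := (inferInstance : R.Normal).conj_mem x.1 x.2 y⁻¹
      rwa [inv_inv] at this
    refine ⟨x, ⟨_, hmem⟩, fun p hp => ?_, ?_⟩
    · have h1 := hx p hp
      rw [mem_subgroupOf, mem_centralizer_singleton_iff] at h1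
      have h2 : ((x⁻¹ * p * x : R) : G) = x.1⁻¹ * p.1 * x.1 := rfl
      rw [h2] at h1
      have h3 : p.1 * (x.1 * (y * ρ.1) * x.1⁻¹) = (x.1 * (y * ρ.1) * x.1⁻¹) * p.1 := by
        calc p.1 * (x.1 * (y * ρ.1) * x.1⁻¹)
            = x.1 * ((x.1⁻¹ * p.1 * x.1) * (y * ρ.1)) * x.1⁻¹ := by group
          _ = x.1 * ((y * ρ.1) * (x.1⁻¹ * p.1 * x.1)) * x.1⁻¹ := by rw [h1]
          _ = (x.1 * (y * ρ.1) * x.1⁻¹) * p.1 := by group
      calc y * (y⁻¹ * (x.1 * (y * ρ.1) * x.1⁻¹)) * p.1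
          = (x.1 * (y * ρ.1) * x.1⁻¹) * p.1 := by group
        _ = p.1 * (x.1 * (y * ρ.1) * x.1⁻¹) := h3.symm
        _ = p.1 * (y * (y⁻¹ * (x.1 * (y * ρ.1) * x.1⁻¹))) := by group
    · change y * (y⁻¹ * (x.1 * (y * ρ.1) * x.1⁻¹)) = _
      group
  choose X a ha hXa using hstep
  set N : Subgroup R := normalizer P with hN
  -- conjugation of elements of `A` by the normaliser
  have hconj : ∀ n ∈ N, ∀ ρ : R, y⁻¹ * (n.1 * (y * (a ρ).1) * n.1⁻¹) ∈ R := by
    intro n _ ρ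
    have h1 : y⁻¹ * (n.1 * (y * (a ρ).1) * n.1⁻¹) = (y⁻¹ * n.1 * y) * (a ρ).1 * n.1⁻¹ := by group
    rw [h1]
    refine R.mul_mem (R.mul_mem ?_ (a ρ).2) (R.inv_mem n.2)
    have := (inferInstance : R.Normal).conj_mem n.1 n.2 y⁻¹
    rwa [inv_inv] at this
  let Φ : N × R → R × A := fun z => (z.1.1 * X z.2,
    ⟨⟨y⁻¹ * (z.1.1.1 * (y * (a z.2).1) * z.1.1.1⁻¹), hconj z.1.1 z.1.2 z.2⟩, by
      intro p hp
      set n : R := z.1.1 with hn
      have hnN : n ∈ N := z.1.2
      have hp' : n⁻¹ * p * n ∈ P := by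
        have h1 := (mem_normalizer_iff.1 (N.inv_mem hnN) p).1 hp
        rwa [inv_inv] at h1
      have h2 := ha z.2 _ hp'
      have h3 : ((n⁻¹ * p * n : R) : G) = n.1⁻¹ * p.1 * n.1 := rfl
      rw [h3] at h2
      change y * (y⁻¹ * (n.1 * (y * (a z.2).1) * n.1⁻¹)) * p.1 =
        p.1 * (y * (y⁻¹ * (n.1 * (y * (a z.2).1) * n.1⁻¹)))
      calc y * (y⁻¹ * (n.1 * (y * (a z.2).1) * n.1⁻¹)) * p.1
          = n.1 * ((y * (a z.2).1) * (n.1⁻¹ * p.1 * n.1)) * n.1⁻¹ := by group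
        _ = n.1 * ((n.1⁻¹ * p.1 * n.1) * (y * (a z.2).1)) * n.1⁻¹ := by rw [h2]
        _ = p.1 * (y * (y⁻¹ * (n.1 * (y * (a z.2).1) * n.1⁻¹))) := by group⟩)
  have hΦ : Function.Injective Φ := by
    rintro ⟨⟨n, hn⟩, ρ⟩ ⟨⟨n', hn'⟩, ρ'⟩ h
    have h1 : n * X ρ = n' * X ρ' := congrArg Prod.fst h
    have h2 : y⁻¹ * (n.1 * (y * (a ρ).1) * n.1⁻¹) = y⁻¹ * (n'.1 * (y * (a ρ').1) * n'.1⁻¹) :=
      congrArg (fun z : R × A => z.2.1.1) h
    rw [hXa, hXa] at h2
    have h3 : n.1 * (X ρ).1 = n'.1 * (X ρ').1 := congrArg Subtype.val h1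
    have h4 : y⁻¹ * ((n.1 * (X ρ).1) * (y * ρ.1) * (n.1 * (X ρ).1)⁻¹) =
        y⁻¹ * ((n.1 * (X ρ).1) * (y * ρ'.1) * (n.1 * (X ρ).1)⁻¹) := by
      calc y⁻¹ * ((n.1 * (X ρ).1) * (y * ρ.1) * (n.1 * (X ρ).1)⁻¹)
          = y⁻¹ * (n.1 * ((X ρ).1 * (y * ρ.1) * (X ρ).1⁻¹) * n.1⁻¹) := by group
        _ = y⁻¹ * (n'.1 * ((X ρ').1 * (y * ρ'.1) * (X ρ').1⁻¹) * n'.1⁻¹) := h2
        _ = y⁻¹ * ((n'.1 * (X ρ').1) * (y * ρ'.1) * (n'.1 * (X ρ').1)⁻¹) := by group
        _ = _ := by rw [h3]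
    have h5 : ρ.1 = ρ'.1 := by
      exact mul_left_cancel (mul_left_cancel (mul_right_cancel (mul_left_cancel h4)))
    have h6 : ρ = ρ' := Subtype.ext h5
    subst h6
    have h7 : n = n' := mul_right_cancel h1
    subst h7
    rfl
  have hcard1 : Nat.card N * Nat.card R ≤ Nat.card R * Nat.card A := by
    have := Nat.card_le_card_of_injective Φ hΦ
    rwa [Nat.card_prod, Nat.card_prod] at this
  have hcard2 : Nat.card N ≤ Nat.card A := by
    rw [mul_comm] at hcard1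
    exact Nat.le_of_mul_le_mul_left hcard1 Nat.card_pos
  have hcard3 : Nat.card A ≤ Nat.card (centralizer (P : Set R)) := by
    let a₀ : R := a 1
    let Ψ : A → centralizer (P : Set R) := fun b => ⟨a₀⁻¹ * b.1, by
      rw [mem_centralizer_iff]
      intro p hp
      have h1 := ha 1 p hp
      have h2 := b.2 p hp
      apply Subtype.ext
      change p.1 * (a₀.1⁻¹ * b.1.1) = (a₀.1⁻¹ * b.1.1) * p.1
      have h1' : (y * a₀.1)⁻¹ * p.1 = p.1 * (y * a₀.1)⁻¹ :=
        (show Commute (y * a₀.1) p.1 from h1).inv_left.eq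
      calc p.1 * (a₀.1⁻¹ * b.1.1) = (p.1 * (y * a₀.1)⁻¹) * (y * b.1.1) := by group
        _ = ((y * a₀.1)⁻¹ * p.1) * (y * b.1.1) := by rw [h1']
        _ = (y * a₀.1)⁻¹ * (p.1 * (y * b.1.1)) := by group
        _ = (y * a₀.1)⁻¹ * ((y * b.1.1) * p.1) := by rw [h2]
        _ = (a₀.1⁻¹ * b.1.1) * p.1 := by group⟩
    refine Nat.card_le_card_of_injective Ψ fun b b' h => ?_
    have h1 : a₀⁻¹ * b.1 = a₀⁻¹ * b'.1 := congrArg Subtype.val h
    exact Subtype.ext (mul_left_cancel h1)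
  have hle : centralizer (P : Set R) ≤ N := centralizer_le_normalizer _
  exact (Subgroup.eq_of_le_of_card_ge hle (hcard2.trans hcard3)).ge

/-- a finite group in which all Sylow subgroups are central in their normalisers is abelian -/
theorem comm_of_burn {R : Type*} [Group R] [Finite R]
    (h : ∀ (r : ℕ) [Fact r.Prime] (P : Sylow r R), normalizer P ≤ centralizer (P : Set R))
    (a b : R) : a * b = b * a := by
  by_contra hab
  set c : R := a * b * a⁻¹ * b⁻¹ with hc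
  have hc1 : c ≠ 1 := by
    intro h1
    apply hab
    have := congrArg (fun z => z * b * a) h1
    simpa [hc, mul_assoc] using this
  have ho : orderOf c ≠ 1 := fun h1 => hc1 (orderOf_eq_one_iff.1 h1)
  obtain ⟨r, hr, hrd⟩ := Nat.exists_prime_and_dvd ho
  have : Fact r.Prime := ⟨hr⟩
  obtain ⟨P⟩ : Nonempty (Sylow r R) := inferInstance
  have hP := h r P
  have hcomm : ∀ u v : P, u * v = v * u := by
    intro u v
    apply Subtype.ext
    have h1 := hP (le_normalizer u.2)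
    rw [mem_centralizer_iff] at h1
    exact (h1 v.1 v.2).symm
  have hker : c ∈ (MonoidHom.transferSylow P hP).ker := by
    rw [MonoidHom.mem_ker, hc]
    simp only [map_mul, map_inv]
    rw [hcomm (MonoidHom.transferSylow P hP a) (MonoidHom.transferSylow P hP b)]
    group
  have h2 := MonoidHom.not_dvd_card_ker_transferSylow P hP
  apply h2
  exact hrd.trans (Subgroup.orderOf_dvd_natCard _ hker)

end Pool.Agent.CSK
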