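import Pool.Agent.CSK.AltA
import Pool.Agent.CSK.AltB
import Pool.Agent.CSK.Basic
import Pool.Agent.CSK.DefsC

/-! Alternating groups: large over a smaller one (helper6, for helper87). -/

set_option autoImplicit false

namespace Pool.Agent.CSK.Alt

open Equiv Equiv.Perm Subgroup

/-- an element of `A_l` with centraliser of order at most `l` -/
theorem exists_small {l : ℕ} (hl : 5 ≤ l) : ∃ x : alternatingGroup (Fin l),
    Nat.card (centralizer {x}) ≤ l := by
  obtain ⟨k, hk2, hkl, hkf, hke⟩ : ∃ k, 2 ≤ k ∧ k ≤ l ∧ l ≤ k + 1 ∧ Odd k := by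
    rcases Nat.even_or_odd l with h | h
    · refine ⟨l - 1, by omega, by omega, by omega, ?_⟩
      obtain ⟨j, hj⟩ := h
      exact ⟨j - 1, by omega⟩
    · exact ⟨l, by omega, le_rfl, by omega, h⟩
  obtain ⟨t, ht⟩ := (exists_with_cycleType_iff (Fin l) (m := ({k} : Multiset ℕ))).2
    ⟨by simpa using hkl, by simpa using hk2⟩
  have hs : Perm.sign t = 1 := by
    rw [sign_of_cycleType, ht]
    simp only [Multiset.sum_singleton, Multiset.card_singleton]
    exact hke.add_one.neg_one_pow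
  refine ⟨⟨t, hs⟩, (cA_le ⟨t, hs⟩).trans ?_⟩
  rw [show ((⟨t, hs⟩ : alternatingGroup (Fin l)) : Perm (Fin l)) = t from rfl,
    nat_card_centralizer, ht]
  simp only [Multiset.sum_singleton, Multiset.prod_singleton, Multiset.toFinset_singleton,
    Finset.prod_singleton, Multiset.count_singleton_self, Nat.factorial_one, mul_one,
    Fintype.card_fin]
  have : (l - k).factorial = 1 := Nat.factorial_eq_one.2 (by omega)
  rw [this, one_mul]
  exact hkl

/-- every coset of inner automorphisms of `A_l` has an element with at most `l` fixed points -/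
theorem fix_le {l : ℕ} (hl : 5 ≤ l) (hl6 : l ≠ 6)
    (ψ : alternatingGroup (Fin l) ≃* alternatingGroup (Fin l)) :
    ∃ b : alternatingGroup (Fin l),
      Nat.card {x : alternatingGroup (Fin l) // b * ψ x * b⁻¹ = x} ≤ l := by
  obtain ⟨σ, hσ⟩ := aut_alt hl hl6 ψ
  rcases Int.units_eq_one_or (Perm.sign σ) with h | h
  · obtain ⟨t, ht⟩ := exists_small hl
    refine ⟨t * (⟨σ, h⟩ : alternatingGroup (Fin l))⁻¹, le_trans (le_of_eq ?_) ht⟩
    refine Nat.card_congr (Equiv.subtypeEquivRight fun x => ?_)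
    rw [mem_centralizer_singleton_iff]
    have h1 : ψ x = (⟨σ, h⟩ : alternatingGroup (Fin l)) * x * (⟨σ, h⟩)⁻¹ := by
      apply Subtype.ext
      rw [hσ x]
      rfl
    rw [h1]
    have h2 : t * (⟨σ, h⟩ : alternatingGroup (Fin l))⁻¹ * (⟨σ, h⟩ * x * (⟨σ, h⟩)⁻¹) *
        (t * (⟨σ, h⟩ : alternatingGroup (Fin l))⁻¹)⁻¹ = t * x * t⁻¹ := by group
    rw [h2, mul_inv_eq_iff_eq_mul]
    exact eq_comm
  · obtain ⟨t, ht, htc⟩ := exists_odd hl
    have hs : Perm.sign (t * σ⁻¹) = 1 := by
      rw [Perm.sign_mul, Perm.sign_inv, ht, h]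
      decide
    refine ⟨⟨t * σ⁻¹, hs⟩, le_trans (le_of_eq ?_) (htc.trans (Nat.div_le_self l 2))⟩
    refine Nat.card_congr (Equiv.subtypeEquivRight fun x => ?_)
    rw [← Subtype.coe_inj]
    have h2 : (((⟨t * σ⁻¹, hs⟩ : alternatingGroup (Fin l)) * ψ x *
        (⟨t * σ⁻¹, hs⟩ : alternatingGroup (Fin l))⁻¹ : alternatingGroup (Fin l)) : Perm (Fin l)) =
        t * (x : Perm (Fin l)) * t⁻¹ := by
      show (t * σ⁻¹) * (ψ x : Perm (Fin l)) * (t * σ⁻¹)⁻¹ = _
      rw [hσ x]
      group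
    rw [h2]

/-- class sizes of `A_m` against the order of `A_l` -/
theorem class_lt {m l : ℕ} (hm : 5 ≤ m) (hml : m < l) (x : alternatingGroup (Fin m)) :
    Nat.card {y : alternatingGroup (Fin m) // IsConj x y} * (l + 1) <
      Nat.card (alternatingGroup (Fin l)) := by
  have hlm : Nontrivial (Fin m) := Fin.nontrivial_iff_two_le.2 (by omega)
  have hll : Nontrivial (Fin l) := Fin.nontrivial_iff_two_le.2 (by omega)
  have h1 := lt_card_centralizer hm x
  have h2 : Nat.card {y : alternatingGroup (Fin m) // IsConj x y} * Nat.card (centralizer {x}) =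
      Nat.card (alternatingGroup (Fin m)) := cs_mul x
  have h3 : 2 * Nat.card (alternatingGroup (Fin m)) = m.factorial := by
    rw [two_mul_nat_card_alternatingGroup, Nat.card_perm, Nat.card_fin]
  have h4 : 2 * Nat.card (alternatingGroup (Fin l)) = l.factorial := by
    rw [two_mul_nat_card_alternatingGroup, Nat.card_perm, Nat.card_fin]
  have h5 : l * m.factorial ≤ l.factorial := by
    obtain ⟨k, rfl⟩ : ∃ k, l = k + 1 := ⟨l - 1, by omega⟩
    rw [Nat.factorial_succ]
    exact Nat.mul_le_mul_left _ (Nat.factorial_le (by omega))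
  obtain ⟨cl, hcl⟩ : ∃ cl, cl = Nat.card {y : alternatingGroup (Fin m) // IsConj x y} := ⟨_, rfl⟩
  rw [← hcl] at h2 ⊢
  have h6 : cl * 3 ≤ Nat.card (alternatingGroup (Fin m)) := by
    rw [← h2]
    exact Nat.mul_le_mul_left _ (by omega)
  have h7 : 0 < Nat.card (alternatingGroup (Fin m)) := Nat.card_pos
  have h8 : l * (2 * Nat.card (alternatingGroup (Fin m))) ≤
      2 * Nat.card (alternatingGroup (Fin l)) := by rw [h3, h4]; exact h5
  nlinarith

/-- `A_l` is large over `A_m` for `5 ≤ m < l`, `l ≠ 6` -/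
theorem large_alt {m l : ℕ} (hm : 5 ≤ m) (hml : m < l) (hl6 : l ≠ 6) :
    Large (alternatingGroup (Fin m)) (alternatingGroup (Fin l)) := by
  refine ⟨l + 1, fun φ => ?_, fun y => class_lt hm hml y⟩
  obtain ⟨b, hb⟩ := fix_le (by omega) hl6 φ
  exact ⟨b, Nat.lt_succ_of_le hb⟩

end Pool.Agent.CSK.Alt
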