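import Pool.Agent.CSK.Kernel

/-! Automorphisms of powers of a nonabelian simple group, and their fixed points (helper87). -/

set_option autoImplicit false

namespace Pool.Agent.CSK

open Subgroup

/-- automorphisms of `S ^ ι` permute the factors -/
theorem aut_pi {ι S : Type*} [Finite ι] [DecidableEq ι] [Group S] [Finite S] [IsSimpleGroup S]
    (hS : ∃ a b : S, a * b ≠ b * a) (α : (ι → S) →* (ι → S)) (hα : Function.Bijective α) :
    ∃ (σ : Equiv.Perm ι) (φ : ι → (S ≃* S)), ∀ (x : ι → S) (i : ι), α x (σ i) = φ i (x i) := by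
  classical
  let θ : ι → ι → (S →* S) := fun i j =>
    ((Pi.evalMonoidHom (fun _ : ι => S) j).comp α).comp (MonoidHom.mulSingle (fun _ : ι => S) i)
  have hθ : ∀ i j s, θ i j s = α (Pi.mulSingle i s) j := fun i j s => rfl
  -- each component is trivial or surjective
  have hdich : ∀ i j, (∀ s, θ i j s = 1) ∨ Function.Surjective (θ i j) := by
    intro i j
    have hn : (θ i j).range.Normal := by
      constructor
      rintro _ ⟨s, rfl⟩ g
      obtain ⟨x, hx⟩ := hα.2 (Pi.mulSingle j g)
      refine ⟨x i * s * (x i)⁻¹, ?_⟩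
      rw [hθ, hθ]
      have h1 : (Pi.mulSingle i (x i * s * (x i)⁻¹) : ι → S) = x * Pi.mulSingle i s * x⁻¹ := by
        funext k
        rcases eq_or_ne k i with rfl | hk
        · simp
        · simp [Pi.mulSingle_eq_of_ne hk]
      rw [h1, map_mul, map_mul, map_inv, hx]
      simp
    rcases hn.eq_bot_or_eq_top with h | h
    · left
      intro s
      have : θ i j s ∈ (θ i j).range := ⟨s, rfl⟩
      rw [h, mem_bot] at this
      exact this
    · right
      exact MonoidHom.range_eq_top.1 h
  -- every row has a surjective component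
  have hrow : ∀ i, ∃ j, Function.Surjective (θ i j) := by
    intro i
    by_contra hcon
    push Not at hcon
    obtain ⟨s, hs⟩ := exists_ne (1 : S)
    apply hs
    have h1 : α (Pi.mulSingle i s) = 1 := by
      funext j
      rcases hdich i j with h | h
      · exact h s
      · exact absurd h (hcon j)
    have h2 : (Pi.mulSingle i s : ι → S) = 1 := hα.1 (by rw [h1, map_one])
    have := congrFun h2 i
    simpa using this
  -- every column has at most one
  have hcol : ∀ i i' j, Function.Surjective (θ i j) → Function.Surjective (θ i' j) → i = i' := by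
    intro i i' j h h'
    by_contra hne
    obtain ⟨a, b, hab⟩ := hS
    obtain ⟨s, rfl⟩ := h a
    obtain ⟨t, rfl⟩ := h' b
    apply hab
    rw [hθ, hθ, ← Pi.mul_apply, ← Pi.mul_apply, ← map_mul, ← map_mul]
    have hcm : (Pi.mulSingle i s : ι → S) * Pi.mulSingle i' t =
        Pi.mulSingle i' t * Pi.mulSingle i s := by
      funext k
      rcases eq_or_ne k i with rfl | hk
      · simp [Pi.mulSingle_eq_of_ne hne]
      · simp [Pi.mulSingle_eq_of_ne hk]
    rw [hcm]
  choose f hf using hrow
  have hfinj : Function.Injective f := by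
    intro i i' h
    have h1 := hf i'
    rw [← h] at h1
    exact hcol _ _ _ (hf i) h1
  have hfbij : Function.Bijective f := Finite.injective_iff_bijective.1 hfinj
  have hbij : ∀ i, Function.Bijective (θ i (f i)) := fun i =>
    (Finite.injective_iff_bijective.trans Finite.surjective_iff_bijective.symm).2 (hf i) |>
      fun h => ⟨h, hf i⟩
  refine ⟨Equiv.ofBijective f hfbij, fun i => MulEquiv.ofBijective (θ i (f i)) (hbij i), ?_⟩
  intro x i
  change α x (f i) = α (Pi.mulSingle i (x i)) (f i)
  set y : ι → S := (Pi.mulSingle i (x i))⁻¹ * x with hy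
  have hyi : y i = 1 := by simp [hy]
  have hx : x = Pi.mulSingle i (x i) * y := by rw [hy, mul_inv_cancel_left]
  have hy1 : α y (f i) = 1 := by
    by_contra hne
    obtain ⟨s, hs⟩ := exists_noncomm hS _ hne
    obtain ⟨t, rfl⟩ := hf i s
    apply hs
    rw [hθ, ← Pi.mul_apply, ← Pi.mul_apply, ← map_mul, ← map_mul]
    have hcm : y * Pi.mulSingle i t = Pi.mulSingle i t * y := by
      funext k
      rcases eq_or_ne k i with rfl | hk
      · simp [hyi]
      · simp [Pi.mulSingle_eq_of_ne hk]
    rw [hcm]
  conv_lhs => rw [hx]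
  rw [map_mul, Pi.mul_apply, hy1, mul_one]

end Pool.Agent.CSK
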