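import Mathlib

/-! Two notions used in a statement on class sizes and powers of simple groups (helper87). -/

set_option autoImplicit false

namespace Pool.Agent.CSK

open Subgroup

/-- Every automorphism of `S` is inner, or the coset of inner automorphisms which contains it has
an element with fewer fixed points than the centraliser of any element of `S`. -/
def SmallOuter (S : Type*) [Group S] : Prop :=
  ∀ φ : S ≃* S, (∃ b : S, ∀ x, φ x = b * x * b⁻¹) ∨
    ∃ a : S, ∀ y : S, Nat.card {x : S // a * φ x * a⁻¹ = x} < Nat.card (centralizer {y})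

/-- `G` has normal subgroups `K 0 ≤ N 0 ≤ K 1 ≤ N 1 ≤ ...` such that `N i / K i` is the power
`S ^ (a i)`, and the sum of the `a i` is at least `n`. -/
def ManyFactors (S : Type*) [Group S] (G : Type*) [Group G] (n : ℕ) : Prop :=
  ∃ (k : ℕ) (K N : Fin k → Subgroup G) (a : Fin k → ℕ) (f : ∀ i, N i →* (Fin (a i) → S)),
    (∀ i, (K i).Normal ∧ (N i).Normal ∧ K i ≤ N i) ∧ (∀ i j, i < j → N i ≤ K j) ∧
    (∀ i, Function.Surjective (f i) ∧ (f i).ker = (K i).subgroupOf (N i)) ∧ n ≤ ∑ i, a i

end Pool.Agent.CSK
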