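import Pool.Agent.CSK.Defs

/-! A notion used in a statement on class sizes, one prime and powers of simple groups
(helper87). -/

set_option autoImplicit false

namespace Pool.Agent.CSK

/-- `G` has a series `1 = L 0 ≤ L 1 ≤ ... ≤ L k = G` of normal subgroups in which every section
`L (i + 1) / L i` has order prime to `r` or is isomorphic to a power of `S`. -/
def SeriesAt (S : Type*) [Group S] (G : Type*) [Group G] (r : ℕ) : Prop :=
  ∃ (k : ℕ) (L : ℕ → Subgroup G), L 0 = ⊥ ∧ L k = ⊤ ∧ (∀ i, (L i).Normal) ∧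
    ∀ i < k, L i ≤ L (i + 1) ∧ (¬ r ∣ (L i).relIndex (L (i + 1)) ∨
      ∃ (a : ℕ) (f : L (i + 1) →* (Fin a → S)), Function.Surjective f ∧
        f.ker = (L i).subgroupOf (L (i + 1)))

end Pool.Agent.CSK
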