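import Pool.Agent.CSK.DefsC

/-! Notions used in a statement on class sizes and powers of simple groups (helper87). -/

set_option autoImplicit false

namespace Pool.Agent.CSK

/-- The section `N / K` is isomorphic to the power `T ^ a`, where `T` is `S` or a finite nonabelian
simple group with `Large S T`. -/
def PowerSection (S : Type*) [Group S] {G : Type*} [Group G] (K N : Subgroup G) (a : ℕ) : Prop :=
  (∃ f : N →* (Fin a → S), Function.Surjective f ∧ f.ker = K.subgroupOf N) ∨
    ∃ (T : Type) (_ : Group T) (_ : Finite T) (_ : IsSimpleGroup T),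
      (∃ s t : T, s * t ≠ t * s) ∧ Large S T ∧
      ∃ f : N →* (Fin a → T), Function.Surjective f ∧ f.ker = K.subgroupOf N

/-- `G` has normal subgroups `K 0 ≤ N 0 ≤ K 1 ≤ N 1 ≤ ...` such that `N i / K i` is the power
`T ^ (a i)` of `T = S` or of a simple group `T` which is large over `S`, and the sum of the `a i`
is at least `n`. -/
def ManyLarge (S : Type*) [Group S] (G : Type*) [Group G] (n : ℕ) : Prop :=
  ∃ (k : ℕ) (K N : Fin k → Subgroup G) (a : Fin k → ℕ),
    (∀ i, (K i).Normal ∧ (N i).Normal ∧ K i ≤ N i) ∧ (∀ i j, i < j → N i ≤ K j) ∧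
    (∀ i, PowerSection S (K i) (N i) (a i)) ∧ n ≤ ∑ i, a i

end Pool.Agent.CSK
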