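import Mathlib

/-! Fixed points of automorphisms of powers of a group (helper87). -/

set_option autoImplicit false

namespace Pool.Agent.CSK

/-- the product of the `φ`s along an orbit -/
def Psi {ι S : Type*} [Group S] (σ : ι → ι) (φ : ι → (S ≃* S)) (i : ι) : ℕ → (S ≃* S)
  | 0 => MulEquiv.refl S
  | j + 1 => (Psi σ φ i j).trans (φ (σ^[j] i))

theorem fix_both {n : ℕ} {S : Type*} [Group S] [Finite S] (c : ℕ) (hc2 : 2 ≤ c)
    (σ : Equiv.Perm (Fin n)) (φ : Fin n → (S ≃* S))
    (hP : ∀ ψ : S ≃* S, ∃ a : S, Nat.card {x : S // a * ψ x * a⁻¹ = x} ≤ c ∧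
      (Nat.card {x : S // a * ψ x * a⁻¹ = x} < c ∨ ∃ b, ∀ x, ψ x = b * x * b⁻¹)) :
    ∃ k : Fin n → S, Nat.card {x : Fin n → S //
      ∀ i, k (σ i) * φ i (x i) * (k (σ i))⁻¹ = x (σ i)} ≤ c ^ n ∧
      ((σ ≠ 1 ∨ ∃ i, ¬ ∃ b, ∀ x, φ i x = b * x * b⁻¹) → Nat.card {x : Fin n → S //
      ∀ i, k (σ i) * φ i (x i) * (k (σ i))⁻¹ = x (σ i)} < c ^ n) := by
  classical
  choose a ha1 ha2 using hP
  let l : Fin n → ℕ := fun i => Function.minimalPeriod σ i
  have hmem : ∀ i, i ∈ Function.periodicPts σ := fun i => σ.injective.mem_periodicPts i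
  have hl : ∀ i, 0 < l i := fun i => Function.minimalPeriod_pos_of_mem_periodicPts (hmem i)
  have hlit : ∀ i, σ^[l i] i = i := fun i => Function.iterate_minimalPeriod
  let rep : Fin n → Prop := fun i => ∀ j : ℕ, i ≤ σ^[j] i
  -- going back along an orbit
  have hback : ∀ i (j : ℕ), ∃ m, σ^[m] (σ^[j] i) = i := by
    intro i j
    refine ⟨l i * (j + 1) - j, ?_⟩
    rw [← Function.iterate_add_apply]
    have h1 : l i * (j + 1) - j + j = l i * (j + 1) := by
      have := hl i
      have h2 : j ≤ l i * (j + 1) := by nlinarith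
      omega
    rw [h1]
    have h3 : Function.IsPeriodicPt σ (l i) i := hlit i
    exact h3.mul_const (j + 1)
  let k : Fin n → S := fun i => if rep i then a (Psi σ φ i (l i)) else 1
  have hkrep : ∀ i, rep i → k i = a (Psi σ φ i (l i)) := fun i hi => if_pos hi
  have hknot : ∀ i, ¬ rep i → k i = 1 := fun i hi => if_neg hi
  -- inside an orbit only the first element is a representative
  have hnotrep : ∀ i, rep i → ∀ j, 0 < j → j < l i → ¬ rep (σ^[j] i) := by
    intro i hi j hj hjl hrep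
    obtain ⟨m, hm⟩ := hback i j
    have h1 := hrep m
    rw [hm] at h1
    have h2 := hi j
    have h3 : σ^[j] i = i := le_antisymm h1 h2
    exact Function.not_isPeriodicPt_of_pos_of_lt_minimalPeriod hj.ne' hjl h3
  refine ⟨k, ?_⟩
  set Fx := {x : Fin n → S // ∀ i, k (σ i) * φ i (x i) * (k (σ i))⁻¹ = x (σ i)} with hFx
  have hF : ∀ (x : Fx) (i : Fin n), rep i → ∀ j, j < l i → x.1 (σ^[j] i) = Psi σ φ i j (x.1 i) := by
    intro x i hi j
    induction j with
    | zero => intro _; rfl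
    | succ j ih =>
      intro hj
      rw [Function.iterate_succ_apply', ← x.2, ← Function.iterate_succ_apply' σ j i,
        hknot _ (hnotrep i hi (j + 1) (Nat.succ_pos j) hj), ih (by omega)]
      simp [Psi]
  have hG : ∀ (x : Fx) (i : Fin n), rep i →
      a (Psi σ φ i (l i)) * Psi σ φ i (l i) (x.1 i) * (a (Psi σ φ i (l i)))⁻¹ = x.1 i := by
    intro x i hi
    obtain ⟨l', hl'⟩ : ∃ l', l i = l' + 1 := ⟨l i - 1, by have := hl i; omega⟩
    have h2 : σ (σ^[l'] i) = i := by
      have h5 := hlit i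
      rw [hl'] at h5
      rw [← Function.iterate_succ_apply' σ l' i]
      exact h5
    have h3 := x.2 (σ^[l'] i)
    rw [h2, hF x i hi l' (by omega), hkrep i hi] at h3
    have h4 : Psi σ φ i (l i) (x.1 i) = φ (σ^[l'] i) (Psi σ φ i l' (x.1 i)) := by
      rw [hl']
      rfl
    rw [h4]
    exact h3
  let E : Fx → (∀ i : {i // rep i}, {x : S //
      a (Psi σ φ i.1 (l i.1)) * Psi σ φ i.1 (l i.1) x * (a (Psi σ φ i.1 (l i.1)))⁻¹ = x}) :=
    fun x i => ⟨x.1 i.1, hG x i.1 i.2⟩
  have hE : Function.Injective E := by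
    intro x x' hxx
    apply Subtype.ext
    funext j
    -- the representative of `j`
    obtain ⟨m₀, hm₀⟩ : ∃ m₀, ∀ m, σ^[m₀] j ≤ σ^[m] j := by
      obtain ⟨y, ⟨m₀, rfl⟩, hy⟩ := WellFounded.has_min (wellFounded_lt (α := Fin n))
        (Set.range fun m => σ^[m] j) ⟨_, ⟨0, rfl⟩⟩
      exact ⟨m₀, fun m => not_lt.1 (hy _ ⟨m, rfl⟩)⟩
    set i := σ^[m₀] j with hi
    have hrep : rep i := by
      intro m
      rw [hi, ← Function.iterate_add_apply]
      exact hm₀ _
    obtain ⟨m, hm⟩ := hback j m₀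
    rw [← hi] at hm
    have h1 : σ^[m % l i] i = j := by
      rw [Function.iterate_mod_minimalPeriod_eq]
      exact hm
    have h2 := hF x i hrep (m % l i) (Nat.mod_lt _ (hl i))
    have h3 := hF x' i hrep (m % l i) (Nat.mod_lt _ (hl i))
    have h4 : x.1 i = x'.1 i := congrArg Subtype.val (congrFun hxx ⟨i, hrep⟩)
    rw [h1] at h2 h3
    rw [h2, h3, h4]
  have hcard : Nat.card Fx ≤ ∏ i : {i // rep i}, Nat.card {x : S //
      a (Psi σ φ i.1 (l i.1)) * Psi σ φ i.1 (l i.1) x * (a (Psi σ φ i.1 (l i.1)))⁻¹ = x} := by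
    rw [← Nat.card_pi]
    exact Nat.card_le_card_of_injective E hE
  have hle : ∏ i : {i // rep i}, Nat.card {x : S //
      a (Psi σ φ i.1 (l i.1)) * Psi σ φ i.1 (l i.1) x * (a (Psi σ φ i.1 (l i.1)))⁻¹ = x} ≤
      ∏ _i : {i // rep i}, c := Finset.prod_le_prod' fun i _ => ha1 _
  have hle2 : (∏ _i : {i // rep i}, c) ≤ c ^ n := by
    rw [Finset.prod_const, Finset.card_univ]
    refine Nat.pow_le_pow_right (by omega) ?_
    calc Fintype.card {i // rep i} ≤ Fintype.card (Fin n) := Fintype.card_subtype_le _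
      _ = n := Fintype.card_fin n
  refine ⟨(hcard.trans hle).trans hle2, fun hne => ?_⟩
  refine hcard.trans_lt ?_
  by_cases hall : ∀ i, rep i
  · -- all points are fixed by `σ`
    have hσ : ∀ i, σ i = i := by
      intro i
      obtain ⟨m, hm⟩ := hback i 1
      have h1 := hall (σ^[1] i) m
      rw [hm] at h1
      exact le_antisymm h1 (hall i 1)
    have hσ1 : σ = 1 := Equiv.ext hσ
    obtain ⟨i, hi⟩ : ∃ i, ¬ ∃ b, ∀ x, φ i x = b * x * b⁻¹ := by
      rcases hne with h | h
      · exact absurd hσ1 h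
      · exact h
    have hli : l i = 1 := by
      have h1 : Function.IsPeriodicPt σ 1 i := hσ i
      exact le_antisymm (h1.minimalPeriod_le Nat.one_pos) (hl i)
    have hlt : ∏ i : {i // rep i}, Nat.card {x : S //
        a (Psi σ φ i.1 (l i.1)) * Psi σ φ i.1 (l i.1) x * (a (Psi σ φ i.1 (l i.1)))⁻¹ = x} <
        ∏ _i : {i // rep i}, c := by
      refine Finset.prod_lt_prod (fun j _ => ?_) (fun j _ => ha1 _) ⟨⟨i, hall i⟩,
        Finset.mem_univ _, ?_⟩
      · have : Nonempty {x : S //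
            a (Psi σ φ j.1 (l j.1)) * Psi σ φ j.1 (l j.1) x * (a (Psi σ φ j.1 (l j.1)))⁻¹ = x} :=
          ⟨⟨1, by simp⟩⟩
        exact Nat.card_pos
      · rcases ha2 (Psi σ φ i (l i)) with h | ⟨b, hb⟩
        · exact h
        · exfalso
          apply hi
          refine ⟨b, fun x => ?_⟩
          rw [← hb x, hli]
          rfl
    exact hlt.trans_le hle2
  · push Not at hall
    obtain ⟨i₀, hi₀⟩ := hall
    refine hle.trans_lt ?_
    rw [Finset.prod_const, Finset.card_univ]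
    refine Nat.pow_lt_pow_right (by omega) ?_
    calc Fintype.card {i // rep i} < Fintype.card (Fin n) := Fintype.card_subtype_lt hi₀
      _ = n := Fintype.card_fin n

end Pool.Agent.CSK
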