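import Pool.Agent.CSK.Basic

/-! Class sizes and kernels of homomorphisms, second part (helper87). -/

set_option autoImplicit false

namespace Pool.Agent.CSK

open Subgroup

theorem cs_pos {G : Type*} [Group G] [Finite G] (g : G) :
    Nat.card {x : G // IsConj g x} ≠ 0 := by
  have : Nonempty {x : G // IsConj g x} := ⟨⟨g, IsConj.refl g⟩⟩
  exact Nat.card_pos.ne'

theorem cs_eq_index {G : Type*} [Group G] [Finite G] (g : G) :
    Nat.card {x : G // IsConj g x} = (centralizer {g}).index := by
  have h1 := cs_mul g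
  rw [← Subgroup.card_mul_index (centralizer {g}), mul_comm] at h1
  exact Nat.eq_of_mul_eq_mul_left Nat.card_pos h1

theorem cs_conj {G : Type*} [Group G] {g h : G} (hgh : IsConj g h) :
    Nat.card {x : G // IsConj g x} = Nat.card {x : G // IsConj h x} :=
  Nat.card_congr (Equiv.subtypeEquivRight fun _ =>
    ⟨fun h1 => hgh.symm.trans h1, fun h1 => hgh.trans h1⟩)

/-- the kernel of a homomorphism onto `H` is central if class sizes of `G` divide class sizes
of `H`, and for every prime `r` an element of `H` with the largest `r`-part of its class size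
generates `H` as a normal subgroup -/
theorem ker_le_center {G H : Type*} [Group G] [Group H] [Finite G] (f : G →* H)
    (hf : Function.Surjective f)
    (hdiv : ∀ g : G, ∃ h : H, Nat.card {x : G // IsConj g x} ∣ Nat.card {x : H // IsConj h x})
    (hgen : ∀ r : ℕ, r.Prime → ∃ h : H, (∀ h' : H,
      (Nat.card {x : H // IsConj h' x}).factorization r ≤
        (Nat.card {x : H // IsConj h x}).factorization r) ∧ normalClosure {h} = ⊤) :
    f.ker ≤ center G := by
  have hH : Finite H := Finite.of_surjective f hf
  -- elements over the class of `h` have centralisers of `r'`-index in the kernel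
  have hidx : ∀ r : ℕ, r.Prime → ∀ h : H, (∀ h' : H,
      (Nat.card {x : H // IsConj h' x}).factorization r ≤
        (Nat.card {x : H // IsConj h x}).factorization r) → ∀ y : G, IsConj h (f y) →
      ¬ r ∣ ((centralizer {y}).subgroupOf f.ker).index := by
    intro r hr h hmax y hy hdvd
    obtain ⟨h', hh'⟩ := hdiv y
    have h1 := (cs_ker f hf y).trans hh'
    rw [← cs_conj hy] at h1
    have h2 : ((Nat.card {x : H // IsConj h x}) * ((centralizer {y}).subgroupOf f.ker).index) ≠ 0 :=
      ne_zero_of_dvd_ne_zero (cs_pos h') h1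
    have h3 := (Nat.factorization_le_iff_dvd h2 (cs_pos h')).2 h1 r
    rw [Nat.factorization_mul (left_ne_zero_of_mul h2) (right_ne_zero_of_mul h2),
      Finsupp.add_apply] at h3
    have h4 : 1 ≤ (((centralizer {y}).subgroupOf f.ker).index).factorization r :=
      (hr.dvd_iff_one_le_factorization (right_ne_zero_of_mul h2)).1 hdvd
    have h5 := hmax h'
    omega
  -- the kernel is abelian
  have hab : ∀ a b : f.ker, a * b = b * a := by
    refine comm_of_burn fun r hr P => ?_
    obtain ⟨h, hmax, -⟩ := hgen r hr.out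
    obtain ⟨y, rfl⟩ := hf h
    refine burn f.ker y (fun ρ hρ => ?_) P
    apply hidx r hr.out (f y) hmax
    rw [map_mul, MonoidHom.mem_ker.1 hρ, mul_one]
  -- Sylow subgroups of the kernel are central
  have hsyl : ∀ r : ℕ, r.Prime → ∀ P : Sylow r f.ker, ∀ p ∈ P, p.1 ∈ center G := by
    intro r hr P p hp
    have : Fact r.Prime := ⟨hr⟩
    obtain ⟨h, hmax, hcl⟩ := hgen r hr
    have hcomm : ∀ y : G, IsConj h (f y) → y ∈ centralizer {p.1} := by
      intro y hy
      obtain ⟨x, hx⟩ := conj_in (P : Subgroup f.ker) P.2 _ (hidx r hr h hmax y hy)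
      have h1 := hx p hp
      have h2 : x⁻¹ * p * x = p := by
        rw [hab x⁻¹ p, mul_assoc, inv_mul_cancel, mul_one]
      rw [h2, mem_subgroupOf, mem_centralizer_singleton_iff] at h1
      rw [mem_centralizer_singleton_iff]
      exact h1.symm
    have hkerD : f.ker ≤ centralizer {p.1} := by
      intro ρ hρ
      rw [mem_centralizer_singleton_iff]
      have := congrArg Subtype.val (hab ⟨ρ, hρ⟩ p)
      exact this
    have hmap : (centralizer {p.1}).map f = ⊤ := by
      rw [eq_top_iff, ← hcl, normalClosure, closure_le]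
      intro z hz
      rw [Group.mem_conjugatesOfSet_iff] at hz
      obtain ⟨a, ha, haz⟩ := hz
      rw [Set.mem_singleton_iff] at ha
      subst ha
      obtain ⟨y, rfl⟩ := hf z
      exact ⟨y, hcomm y haz, rfl⟩
    rw [mem_center_iff]
    intro g
    have h1 : f g ∈ (centralizer {p.1}).map f := by
      rw [hmap]
      exact mem_top _
    obtain ⟨d, hd, hdg⟩ := h1
    have h2 : d⁻¹ * g ∈ f.ker := by
      rw [MonoidHom.mem_ker, map_mul, map_inv, hdg, inv_mul_cancel]
    have h3 : g ∈ centralizer {p.1} := by
      have := (centralizer {p.1}).mul_mem hd (hkerD h2)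
      rwa [mul_inv_cancel_left] at this
    exact mem_centralizer_singleton_iff.1 h3
  -- the index of the central part of the kernel is one
  have hone : ((center G).subgroupOf f.ker).index = 1 := by
    by_contra hne
    obtain ⟨r, hr, hrd⟩ := Nat.exists_prime_and_dvd hne
    have : Fact r.Prime := ⟨hr⟩
    obtain ⟨P⟩ : Nonempty (Sylow r f.ker) := inferInstance
    have hle : (P : Subgroup f.ker) ≤ (center G).subgroupOf f.ker := fun p hp => by
      rw [mem_subgroupOf]
      exact hsyl r hr P p hp
    exact P.not_dvd_index (hrd.trans (index_dvd_of_le hle))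
  rw [index_eq_one] at hone
  intro x hx
  have : (⟨x, hx⟩ : f.ker) ∈ (center G).subgroupOf f.ker := by
    rw [hone]
    exact mem_top _
  exact this

/-- class sizes in a direct product -/
theorem isConj_pi {ι : Type*} {S : ι → Type*} [∀ i, Group (S i)] (g h : ∀ i, S i) :
    IsConj g h ↔ ∀ i, IsConj (g i) (h i) := by
  constructor
  · intro hgh i
    obtain ⟨c, hc⟩ := isConj_iff.1 hgh
    exact isConj_iff.2 ⟨c i, congrFun hc i⟩
  · intro hgh
    choose c hc using fun i => isConj_iff.1 (hgh i)
    exact isConj_iff.2 ⟨c, funext hc⟩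

theorem cs_pi {ι : Type*} [Fintype ι] {S : ι → Type*} [∀ i, Group (S i)] (g : ∀ i, S i) :
    Nat.card {x : ∀ i, S i // IsConj g x} = ∏ i, Nat.card {x : S i // IsConj (g i) x} := by
  rw [← Nat.card_pi]
  refine Nat.card_congr ⟨fun x i => ⟨x.1 i, (isConj_pi _ _).1 x.2 i⟩,
    fun x => ⟨fun i => (x i).1, (isConj_pi _ _).2 fun i => (x i).2⟩, fun _ => rfl, fun _ => rfl⟩

/-- a nonabelian simple group has no centre -/
theorem exists_noncomm {S : Type*} [Group S] [IsSimpleGroup S] (hS : ∃ a b : S, a * b ≠ b * a)
    (a : S) (ha : a ≠ 1) : ∃ s, a * s ≠ s * a := by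
  by_contra hcon
  push Not at hcon
  have h1 : a ∈ center S := mem_center_iff.2 fun g => (hcon g).symm
  rcases (inferInstance : (center S).Normal).eq_bot_or_eq_top with h | h
  · rw [h, mem_bot] at h1
    exact ha h1
  · obtain ⟨a, b, hab⟩ := hS
    have : b ∈ center S := by
      rw [h]
      exact mem_top _
    exact hab (mem_center_iff.1 this a)

/-- the normal closure of an element with nontrivial coordinates in a product of nonabelian
simple groups -/
theorem normalClosure_pi {ι : Type*} [Finite ι] {S : ι → Type*} [∀ i, Group (S i)]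
    [∀ i, IsSimpleGroup (S i)] (hS : ∀ i, ∃ a b : S i, a * b ≠ b * a) (a : ∀ i, S i)
    (ha : ∀ i, a i ≠ 1) : normalClosure {a} = (⊤ : Subgroup (∀ i, S i)) := by
  classical
  rw [eq_top_iff]
  intro x _
  refine pi_mem_of_mulSingle_mem x fun i => ?_
  set N : Subgroup (∀ i, S i) := normalClosure {a} with hN
  have hNn : N.Normal := normalClosure_normal
  have haN : a ∈ N := subset_normalClosure rfl
  let φ : S i →* (∀ i, S i) := MonoidHom.mulSingle S i
  have hφ : ∀ s, φ s = Pi.mulSingle i s := fun s => rfl
  have hnorm : (N.comap φ).Normal := hNn.comap φ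
  obtain ⟨s, hs⟩ := exists_noncomm (hS i) (a i) (ha i)
  have h1 : a i * s * (a i)⁻¹ * s⁻¹ ∈ N.comap φ := by
    rw [mem_comap]
    have h2 : φ (a i * s * (a i)⁻¹ * s⁻¹) = a * (φ s * a⁻¹ * (φ s)⁻¹) := by
      funext j
      rw [hφ, hφ]
      rcases eq_or_ne j i with rfl | hj
      · simp [mul_assoc]
      · simp [Pi.mulSingle_eq_of_ne hj]
    rw [h2]
    exact N.mul_mem haN (hNn.conj_mem _ (N.inv_mem haN) _)
  rcases hnorm.eq_bot_or_eq_top with h | h
  · exfalso
    rw [h, mem_bot] at h1
    apply hs
    have := congrArg (fun z => z * s * a i) h1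
    simpa [mul_assoc] using this
  · have h3 : x i ∈ N.comap φ := by
      rw [h]
      exact mem_top _
    exact h3

/-- the hypothesis of `ker_le_center` for products of nonabelian simple groups -/
theorem hgen_pi {ι : Type*} [Finite ι] {S : ι → Type*} [∀ i, Group (S i)]
    [∀ i, Finite (S i)] [∀ i, IsSimpleGroup (S i)] (hS : ∀ i, ∃ a b : S i, a * b ≠ b * a)
    (r : ℕ) : ∃ h : (∀ i, S i), (∀ h' : (∀ i, S i),
      (Nat.card {x : (∀ i, S i) // IsConj h' x}).factorization r ≤
        (Nat.card {x : (∀ i, S i) // IsConj h x}).factorization r) ∧ normalClosure {h} = ⊤ := by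
  classical
  have := Fintype.ofFinite ι
  have hex : ∀ i, ∃ a : S i, a ≠ 1 ∧ ∀ a' : S i,
      (Nat.card {x : S i // IsConj a' x}).factorization r ≤
        (Nat.card {x : S i // IsConj a x}).factorization r := by
    intro i
    obtain ⟨a, ha⟩ := Finite.exists_max
      (fun a : S i => (Nat.card {x : S i // IsConj a x}).factorization r)
    rcases eq_or_ne a 1 with rfl | h1
    · obtain ⟨b, hb⟩ := exists_ne (1 : S i)
      refine ⟨b, hb, fun a' => (ha a').trans ?_⟩
      have : Nat.card {x : S i // IsConj 1 x} = 1 := by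
        rw [Nat.card_eq_one_iff_unique]
        refine ⟨⟨fun x y => ?_⟩, ⟨⟨1, IsConj.refl 1⟩⟩⟩
        apply Subtype.ext
        rw [isConj_one_right.1 x.2, isConj_one_right.1 y.2]
      rw [this]
      simp
    · exact ⟨a, h1, ha⟩
  choose a ha1 hamax using hex
  refine ⟨a, fun h' => ?_, normalClosure_pi hS a ha1⟩
  rw [cs_pi, cs_pi, Nat.factorization_prod fun i _ => cs_pos _,
    Nat.factorization_prod fun i _ => cs_pos _, Finsupp.finset_sum_apply,
    Finsupp.finset_sum_apply]
  exact Finset.sum_le_sum fun i _ => hamax i (h' i)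

/-- invariance of class sizes -/
theorem cs_equiv {G H : Type*} [Group G] [Group H] (e : G ≃* H) (g : G) :
    Nat.card {x : G // IsConj g x} = Nat.card {x : H // IsConj (e g) x} := by
  refine Nat.card_congr (e.toEquiv.subtypeEquiv fun x => ?_)
  rw [isConj_iff, isConj_iff]
  constructor
  · rintro ⟨c, hc⟩
    exact ⟨e c, by
      change e c * e g * (e c)⁻¹ = e x
      rw [← hc, map_mul, map_mul, map_inv]⟩
  · rintro ⟨c, hc⟩
    refine ⟨e.symm c, e.injective ?_⟩
    rw [map_mul, map_mul, map_inv, e.apply_symm_apply]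
    exact hc

/-- class sizes of a normal subgroup divide class sizes of the group -/
theorem cs_normal {G : Type*} [Group G] [Finite G] (N : Subgroup G) [N.Normal] (n : N) :
    Nat.card {x : N // IsConj n x} ∣ Nat.card {x : G // IsConj n.1 x} := by
  have h1 := cs_ker (QuotientGroup.mk' N) (QuotientGroup.mk'_surjective N) n.1
  rw [QuotientGroup.ker_mk'] at h1
  have h2 : Nat.card {x : N // IsConj n x} = ((centralizer {n.1}).subgroupOf N).index := by
    rw [cs_eq_index]
    congr 1
    ext x
    rw [mem_subgroupOf, mem_centralizer_singleton_iff, mem_centralizer_singleton_iff]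
    exact ⟨fun h => congrArg Subtype.val h, fun h => Subtype.ext h⟩
  rw [h2]
  exact (Dvd.intro_left _ rfl).trans h1

/-- class sizes of a subnormal subgroup divide class sizes of the group -/
theorem cs_subnormal {G : Type*} [Group G] [Finite G] (M : Subgroup G) (hM : M.IsSubnormal) :
    ∀ m : M, Nat.card {x : M // IsConj m x} ∣ Nat.card {x : G // IsConj m.1 x} := by
  induction hM with
  | top =>
    intro m
    rw [cs_equiv (Subgroup.topEquiv (G := G)) m]
    rfl
  | step N K hle _ hN ih =>
    intro n
    let n' : N.subgroupOf K := ⟨⟨n.1, hle n.2⟩, n.2⟩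
    have h1 := cs_normal (N.subgroupOf K) n'
    have h2 := ih n'.1
    have h3 := cs_equiv (Subgroup.subgroupOfEquivOfLe hle) n'
    have h4 : Subgroup.subgroupOfEquivOfLe hle n' = n := rfl
    rw [h4] at h3
    rw [← h3]
    exact h1.trans h2

/-- the kernel is the centre -/
theorem main {ι : Type*} [Finite ι] {S : ι → Type*} [∀ i, Group (S i)] [∀ i, Finite (S i)]
    [∀ i, IsSimpleGroup (S i)] (hS : ∀ i, ∃ a b : S i, a * b ≠ b * a) {G : Type*} [Group G]
    [Finite G] (hN : ∀ g : G, ∃ h : (∀ i, S i),
      Nat.card {x : G // IsConj g x} ∣ Nat.card {x : (∀ i, S i) // IsConj h x})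
    (M : Subgroup G) (hM : M.IsSubnormal) (f : M →* (∀ i, S i)) (hf : Function.Surjective f) :
    f.ker = center M := by
  apply le_antisymm
  · refine ker_le_center f hf (fun g => ?_) (fun r _ => hgen_pi hS r)
    obtain ⟨h, hh⟩ := hN g.1
    exact ⟨h, (cs_subnormal M hM g).trans hh⟩
  · intro z hz
    rw [MonoidHom.mem_ker]
    funext i
    by_contra hne
    obtain ⟨s, hs⟩ := exists_noncomm (hS i) (f z i) hne
    classical
    obtain ⟨m, hm⟩ := hf (Pi.mulSingle i s)
    have h1 := congrArg (fun u => f u i) (mem_center_iff.1 hz m)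
    simp only [map_mul, Pi.mul_apply, hm, Pi.mulSingle_eq_same] at h1
    exact hs h1.symm

end Pool.Agent.CSK
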