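import Pool.Agent.CSK.Mult
import Pool.Agent.CSK.Defs

/-! Groups with class sizes of a power of a simple group and enough composition factors:
subnormal subgroups (helper87). -/

set_option autoImplicit false

namespace Pool.Agent.CSK

open Subgroup

theorem normal_up {S : Type*} [Group S] [Finite S] [IsSimpleGroup S]
    (hS : ∃ a b : S, a * b ≠ b * a) (hP : SmallOuter S) (n : ℕ) {G : Type*} [Group G] [Finite G]
    (hN : ∀ g : G, ∃ h : (Fin n → S),
      Nat.card {x : G // IsConj g x} ∣ Nat.card {x : (Fin n → S) // IsConj h x})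
    (M : Subgroup G) (hM : M.Normal) (f : M →* (Fin n → S)) (hf : Function.Surjective f) :
    ∃ F : G →* (Fin n → S), Function.Surjective F ∧ F.ker = center G := by
  have hker : f.ker = center M := main (fun _ => hS) hN M hM.isSubnormal f hf
  refine mult hS hP n hN 1 (fun _ => (center M).map M.subtype) (fun _ => M) (fun _ => ?_)
    (fun _ => hM) (fun _ => ?_) (fun i j hij => ?_) (fun _ => n) (fun _ => f) (fun _ => hf)
    (fun _ => ?_) ?_
  · exact ConjAct.normal_of_characteristic_of_normal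
  · rintro _ ⟨x, -, rfl⟩
    exact x.2
  · exact absurd hij (by rw [Subsingleton.elim i j]; exact lt_irrefl _)
  · rw [hker]
    ext x
    rw [mem_subgroupOf]
    constructor
    · intro hx
      exact ⟨x, hx, rfl⟩
    · rintro ⟨y, hy, hyx⟩
      have : y = x := Subtype.ext hyx
      rwa [← this]
  · simp

theorem subnormal_up {S : Type*} [Group S] [Finite S] [IsSimpleGroup S]
    (hS : ∃ a b : S, a * b ≠ b * a) (hP : SmallOuter S) (n : ℕ) {G : Type*} [Group G] [Finite G]
    (hN : ∀ g : G, ∃ h : (Fin n → S),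
      Nat.card {x : G // IsConj g x} ∣ Nat.card {x : (Fin n → S) // IsConj h x})
    (M : Subgroup G) (hM : M.IsSubnormal) (hMf : ∃ f : M →* (Fin n → S), Function.Surjective f) :
    ∃ F : G →* (Fin n → S), Function.Surjective F := by
  induction hM with
  | top =>
    obtain ⟨f, hf⟩ := hMf
    exact ⟨f.comp (Subgroup.topEquiv (G := G)).symm.toMonoidHom,
      hf.comp (Subgroup.topEquiv (G := G)).symm.surjective⟩
  | step N K hle hK hNn ih =>
    apply ih
    obtain ⟨f, hf⟩ := hMf
    have hNK : ∀ g : K, ∃ h : (Fin n → S),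
        Nat.card {x : K // IsConj g x} ∣ Nat.card {x : (Fin n → S) // IsConj h x} := by
      intro g
      obtain ⟨h, hh⟩ := hN g.1
      exact ⟨h, (cs_subnormal K hK g).trans hh⟩
    obtain ⟨F, hF, -⟩ := normal_up hS hP n hNK (N.subgroupOf K) hNn
      (f.comp (Subgroup.subgroupOfEquivOfLe hle).toMonoidHom)
      (hf.comp (Subgroup.subgroupOfEquivOfLe hle).surjective)
    exact ⟨F, hF⟩

/-- the final theorem -/
theorem final {S : Type*} [Group S] [Finite S] [IsSimpleGroup S]
    (hS : ∃ a b : S, a * b ≠ b * a) (hP : SmallOuter S) (n : ℕ) {G : Type*} [Group G] [Finite G]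
    (hN : ∀ g : G, ∃ h : (Fin n → S),
      Nat.card {x : G // IsConj g x} ∣ Nat.card {x : (Fin n → S) // IsConj h x})
    (M : Subgroup G) (hM : M.IsSubnormal) (hMF : ManyFactors S M n) :
    ∃ F : G →* (Fin n → S), Function.Surjective F ∧ F.ker = center G := by
  have hNM : ∀ g : M, ∃ h : (Fin n → S),
      Nat.card {x : M // IsConj g x} ∣ Nat.card {x : (Fin n → S) // IsConj h x} := by
    intro g
    obtain ⟨h, hh⟩ := hN g.1
    exact ⟨h, (cs_subnormal M hM g).trans hh⟩
  obtain ⟨k, K, N, a, f, h1, h2, h3, h4⟩ := hMF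
  obtain ⟨f₀, hf₀, -⟩ := mult hS hP n hNM k K N (fun i => (h1 i).1) (fun i => (h1 i).2.1)
    (fun i => (h1 i).2.2) h2 a f (fun i => (h3 i).1) (fun i => (h3 i).2) h4
  obtain ⟨F, hF⟩ := subnormal_up hS hP n hN M hM ⟨f₀, hf₀⟩
  refine ⟨F, hF, le_antisymm (ker_le_center F hF hN fun r _ => hgen_pi (fun _ => hS) r) ?_⟩
  intro z hz
  rw [MonoidHom.mem_ker]
  apply center_pi hS
  intro x
  obtain ⟨g, rfl⟩ := hF x
  rw [← map_mul, ← map_mul, mem_center_iff.1 hz g]

end Pool.Agent.CSK
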