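import Pool.Agent.CSK.Mixed
import Pool.Agent.CSK.Sub
import Pool.Agent.CSK.DefsD

/-! Groups with class sizes of a power of a simple group and many large composition factors
(helper87). -/

set_option autoImplicit false

namespace Pool.Agent.CSK

open Subgroup

/-- trivial sections -/
theorem zero_section {S T : Type*} [Group S] [Group T] {G : Type*} [Group G] (K N : Subgroup G)
    {a : ℕ} (ha : a = 0) (f : N →* (Fin a → T)) (hker : f.ker = K.subgroupOf N) :
    ∃ f : N →* (Fin a → S), Function.Surjective f ∧ f.ker = K.subgroupOf N := by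
  subst ha
  refine ⟨1, fun z => ⟨1, Subsingleton.elim _ _⟩, ?_⟩
  rw [← hker]
  ext x
  rw [MonoidHom.mem_ker, MonoidHom.mem_ker]
  exact ⟨fun _ => Subsingleton.elim _ _, fun _ => Subsingleton.elim _ _⟩

theorem many_aux {S : Type*} [Group S] [Finite S] [IsSimpleGroup S]
    (hS : ∃ a b : S, a * b ≠ b * a) (c : ℕ) (hc2 : 2 ≤ c)
    (hP : ∀ ψ : S ≃* S, ∃ a : S, Nat.card {x : S // a * ψ x * a⁻¹ = x} ≤ c ∧
      (Nat.card {x : S // a * ψ x * a⁻¹ = x} < c ∨ ∃ b, ∀ x, ψ x = b * x * b⁻¹))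
    (M : ℕ) (hM1 : 1 ≤ M) (hMc : M * c = Nat.card S)
    (hMS : ∃ y : S, M = Nat.card {x : S // IsConj y x})
    {G : Type*} [Group G] [Finite G] (k : ℕ) (K N : Fin k → Subgroup G) (a : Fin k → ℕ)
    (h1 : ∀ i, (K i).Normal ∧ (N i).Normal ∧ K i ≤ N i) (h2 : ∀ i j, i < j → N i ≤ K j)
    (h3 : ∀ i, PowerSection S (K i) (N i) (a i)) :
    ∀ m (hm : m ≤ k), ∃ (L : Subgroup G) (e : ℕ),
      (∀ g : G, ∃ x ∈ L, M ^ (∑ i : Fin m, a (Fin.castLE hm i)) + e ≤
        (centralizer {x * g}).relIndex L) ∧ (∀ j : Fin k, m ≤ j.1 → L ≤ K j) ∧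
      ((∀ i : Fin k, i.1 < m → ∃ f : N i →* (Fin (a i) → S), Function.Surjective f ∧
        f.ker = (K i).subgroupOf (N i)) ∨ 0 < e) := by
  intro m
  induction m with
  | zero =>
    intro _
    refine ⟨⊥, 0, fun g => ⟨1, one_mem _, ?_⟩, fun _ _ => bot_le,
      Or.inl fun i hi => absurd hi (Nat.not_lt_zero _)⟩
    simpa using Nat.pos_of_ne_zero (rel_ne (centralizer {1 * g}) (⊥ : Subgroup G))
  | succ m ih =>
    intro hm
    obtain ⟨L, e, hq, hL, hgood⟩ := ih (by omega)
    obtain ⟨i, hi⟩ : ∃ i : Fin k, i = ⟨m, by omega⟩ := ⟨_, rfl⟩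
    have him : i.1 = m := by rw [hi]
    obtain ⟨hKn, hNn, hKN⟩ := h1 i
    have hLK : L ≤ K i := hL i (by omega)
    have hq' : ∀ g : G, ∃ x ∈ K i, M ^ (∑ i : Fin m, a (Fin.castLE (by omega) i)) + e ≤
        (centralizer {x * g}).relIndex (K i) := by
      intro g
      obtain ⟨x, hx, hxb⟩ := hq g
      exact ⟨x, hLK hx, hxb.trans (relIndex_le_of_le_right hLK (rel_ne _ _))⟩
    have hsum : ∑ i : Fin (m + 1), a (Fin.castLE hm i) =
        (∑ i : Fin m, a (Fin.castLE (by omega) i)) + a i := by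
      rw [Fin.sum_univ_castSucc]
      have h5 : Fin.castLE hm (Fin.last m) = i := Fin.ext (by simp [him])
      rw [h5]
      rfl
    have hNK : ∀ j : Fin k, m + 1 ≤ j.1 → N i ≤ K j := fun j hj =>
      h2 i j (Fin.lt_def.2 (by omega))
    have key : (∃ f : N i →* (Fin (a i) → S), Function.Surjective f ∧
        f.ker = (K i).subgroupOf (N i)) → ∃ (L : Subgroup G) (e : ℕ),
      (∀ g : G, ∃ x ∈ L, M ^ (∑ i : Fin (m + 1), a (Fin.castLE hm i)) + e ≤
        (centralizer {x * g}).relIndex L) ∧ (∀ j : Fin k, m + 1 ≤ j.1 → L ≤ K j) ∧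
      ((∀ i : Fin k, i.1 < m + 1 → ∃ f : N i →* (Fin (a i) → S), Function.Surjective f ∧
        f.ker = (K i).subgroupOf (N i)) ∨ 0 < e) := by
      rintro ⟨f, hf, hker⟩
      refine ⟨N i, e, ?_, hNK, ?_⟩
      · rw [hsum]
        have h4 := up (N i) (K i) hKN M (a i) _ 0 e hM1 (fun g => by
          obtain ⟨m₀, hm₀⟩ := sec_quality hS c hc2 hP (N i) (K i) hNn hKn hKN f hf hker g
          refine ⟨m₀, fun x hx => ?_⟩
          have h5 := hm₀ x hx
          rw [← hMc, mul_pow] at h5
          have hca : 0 < c ^ (a i) := Nat.pow_pos (by omega)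
          rw [add_zero]
          apply Nat.le_of_mul_le_mul_left _ hca
          calc c ^ (a i) * (M ^ (a i) * (centralizer {x * (m₀.1 * g)}).relIndex (K i))
              = M ^ (a i) * c ^ (a i) * (centralizer {x * (m₀.1 * g)}).relIndex (K i) := by ring
            _ ≤ _ := h5) hq'
        simpa using h4
      · rcases hgood with hgood | hgood
        · left
          intro j hj
          rcases Nat.lt_succ_iff_lt_or_eq.1 hj with h4 | h4
          · exact hgood j h4
          · have h5 : j = i := Fin.ext (by omega)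
            rw [h5]
            exact ⟨f, hf, hker⟩
        · exact Or.inr hgood
    rcases h3 i with hSf | ⟨T, iT, fT, sT, hTn, ⟨d, hd1, hd2⟩, f, hf, hker⟩
    · exact key hSf
    · by_cases ha : a i = 0
      · exact key (zero_section (K i) (N i) ha f hker)
      · refine ⟨N i, e + 1, ?_, hNK, Or.inr (Nat.succ_pos e)⟩
        obtain ⟨y, hy⟩ := hMS
        have hMd : M * d < Nat.card T := by
          rw [hy]
          exact hd2 y
        have hd2' : 2 ≤ d := by
          obtain ⟨b, hb⟩ := hd1 (MulEquiv.refl T)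
          have : 0 < Nat.card {x : T // b * (MulEquiv.refl T) x * b⁻¹ = x} := by
            have : Nonempty {x : T // b * (MulEquiv.refl T) x * b⁻¹ = x} := ⟨⟨1, by simp⟩⟩
            exact Nat.card_pos
          omega
        rw [hsum]
        refine up (N i) (K i) hKN M (a i) _ 1 e hM1 (fun g => ?_) hq'
        obtain ⟨m₀, hm₀⟩ := sec_quality hTn d hd2' (fun ψ => by
          obtain ⟨b, hb⟩ := hd1 ψ
          exact ⟨b, hb.le, Or.inl hb⟩) (N i) (K i) hNn hKn hKN f hf hker g
        refine ⟨m₀, fun x hx => ?_⟩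
        have h5 := hm₀ x hx
        have hda : 0 < d ^ (a i) := Nat.pow_pos (by omega)
        have h6 : (M * d) ^ (a i) < Nat.card T ^ (a i) := Nat.pow_lt_pow_left hMd ha
        have h7 : 0 < (centralizer {x * (m₀.1 * g)}).relIndex (K i) :=
          Nat.pos_of_ne_zero (rel_ne _ _)
        have h8 : d ^ (a i) * (M ^ (a i) * (centralizer {x * (m₀.1 * g)}).relIndex (K i)) <
            d ^ (a i) * (centralizer {x * (m₀.1 * g)}).relIndex (N i) := by
          calc d ^ (a i) * (M ^ (a i) * (centralizer {x * (m₀.1 * g)}).relIndex (K i))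
              = (M * d) ^ (a i) * (centralizer {x * (m₀.1 * g)}).relIndex (K i) := by
                rw [mul_pow]; ring
            _ < Nat.card T ^ (a i) * (centralizer {x * (m₀.1 * g)}).relIndex (K i) :=
                Nat.mul_lt_mul_of_pos_right h6 h7
            _ ≤ _ := h5
        exact Nat.lt_of_mul_lt_mul_left h8

/-- large factors do not occur -/
theorem many_excl {S : Type*} [Group S] [Finite S] [IsSimpleGroup S]
    (hS : ∃ a b : S, a * b ≠ b * a) (hP : SmallOuter S) (n : ℕ) {G : Type*}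
    [Group G] [Finite G]
    (hN : ∀ g : G, ∃ h : (Fin n → S),
      Nat.card {x : G // IsConj g x} ∣ Nat.card {x : (Fin n → S) // IsConj h x})
    (hG : ManyLarge S G n) : ManyFactors S G n := by
  classical
  obtain ⟨k, K, N, a, h1, h2, h3, h4⟩ := hG
  obtain ⟨x₀, hx₀⟩ := Finite.exists_min (fun x : S => Nat.card (centralizer {x}))
  obtain ⟨c, hc⟩ : ∃ c, Nat.card (centralizer {x₀}) = c := ⟨_, rfl⟩
  obtain ⟨M, hM⟩ : ∃ M, M = Nat.card {x : S // IsConj x₀ x} := ⟨_, rfl⟩
  rw [hc] at hx₀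
  have hMc : M * c = Nat.card S := by
    rw [hM, ← hc]
    exact cs_mul x₀
  have hcS : c < Nat.card S := by
    obtain ⟨u, v, huv⟩ := hS
    refine (hx₀ u).trans_lt ?_
    refine lt_of_le_of_ne (Subgroup.card_le_card_group _) fun h => huv ?_
    have h1 : centralizer {u} = ⊤ := Subgroup.card_eq_iff_eq_top _ |>.1 h
    have h2 : v ∈ centralizer {u} := by
      rw [h1]
      exact mem_top _
    exact (mem_centralizer_singleton_iff.1 h2).symm
  have hx₀1 : x₀ ≠ 1 := by
    intro h
    have h1 : centralizer {x₀} = ⊤ := by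
      rw [eq_top_iff]
      intro y _
      rw [mem_centralizer_singleton_iff, h]
      simp
    rw [h1, Subgroup.card_top] at hc
    omega
  have hc2 : 2 ≤ c := by
    have : Nontrivial (centralizer {x₀}) := by
      refine ⟨⟨⟨x₀, ?_⟩, 1, ?_⟩⟩
      · rw [mem_centralizer_singleton_iff]
      · intro h1
        exact hx₀1 (congrArg Subtype.val h1)
    rw [← hc]
    exact Finite.one_lt_card
  have hM2 : 2 ≤ M := by
    by_contra hcon
    have h1 : M ≤ 1 := by omega
    have h2 := Nat.mul_le_mul_right c h1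
    rw [hMc, one_mul] at h2
    omega
  have hP' : ∀ ψ : S ≃* S, ∃ a : S, Nat.card {x : S // a * ψ x * a⁻¹ = x} ≤ c ∧
      (Nat.card {x : S // a * ψ x * a⁻¹ = x} < c ∨ ∃ b, ∀ x, ψ x = b * x * b⁻¹) := by
    intro ψ
    rcases hP ψ with ⟨b, hb⟩ | ⟨a, ha⟩
    · refine ⟨x₀ * b⁻¹, le_of_eq ?_, Or.inr ⟨b, hb⟩⟩
      rw [← hc]
      refine Nat.card_congr (Equiv.subtypeEquivRight fun x => ?_)
      rw [mem_centralizer_singleton_iff, hb]
      have h1 : x₀ * b⁻¹ * (b * x * b⁻¹) * (x₀ * b⁻¹)⁻¹ = x₀ * x * x₀⁻¹ := by group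
      rw [h1, mul_inv_eq_iff_eq_mul]
      exact ⟨fun h => h.symm, fun h => h.symm⟩
    · have := ha x₀
      rw [hc] at this
      exact ⟨a, this.le, Or.inl this⟩
  have hbd : ∀ g : G, Nat.card {x : G // IsConj g x} ≤ M ^ n := by
    intro g
    obtain ⟨h, hh⟩ := hN g
    refine (Nat.le_of_dvd (Nat.pos_of_ne_zero (cs_pos h)) hh).trans ?_
    rw [cs_pi]
    have h2 : (∏ _i : Fin n, M) = M ^ n := by
      rw [Finset.prod_const, Finset.card_univ, Fintype.card_fin]
    rw [← h2]
    refine Finset.prod_le_prod' fun i _ => ?_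
    have h3 := cs_mul (h i)
    have h4 : Nat.card {x : S // IsConj (h i) x} * c ≤ M * c := by
      rw [hMc, ← h3]
      exact Nat.mul_le_mul_left _ (hx₀ (h i))
    exact Nat.le_of_mul_le_mul_right h4 (by omega)
  obtain ⟨L, e, hq, -, hgood⟩ := many_aux hS c hc2 hP' M (by omega) hMc ⟨x₀, hM⟩ k K N a h1 h2 h3
    k le_rfl
  have he : ¬ 0 < e := by
    intro he
    obtain ⟨x, -, hxb⟩ := hq 1
    rw [mul_one] at hxb
    have h5 := hbd x
    have h6 : (centralizer {x}).relIndex L ≤ Nat.card {y : G // IsConj x y} := by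
      rw [cs_eq_index, ← relIndex_top_right]
      exact relIndex_le_of_le_right le_top (rel_ne _ _)
    have h7 : M ^ n ≤ M ^ (∑ i : Fin k, a (Fin.castLE le_rfl i)) :=
      Nat.pow_le_pow_right (by omega) h4
    omega
  rcases hgood with hgood | hgood
  · choose f hf using fun i : Fin k => hgood i i.2
    exact ⟨k, K, N, a, f, h1, h2, hf, h4⟩
  · exact absurd hgood he

/-- the theorem for subnormal subgroups with many large factors -/
theorem many {S : Type*} [Group S] [Finite S] [IsSimpleGroup S]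
    (hS : ∃ a b : S, a * b ≠ b * a) (hP : SmallOuter S) (n : ℕ) {G : Type*} [Group G] [Finite G]
    (hN : ∀ g : G, ∃ h : (Fin n → S),
      Nat.card {x : G // IsConj g x} ∣ Nat.card {x : (Fin n → S) // IsConj h x})
    (M : Subgroup G) (hM : M.IsSubnormal) (hMF : ManyLarge S M n) :
    ∃ F : G →* (Fin n → S), Function.Surjective F ∧ F.ker = center G := by
  refine final hS hP n hN M hM (many_excl hS hP n (fun g => ?_) hMF)
  obtain ⟨h, hh⟩ := hN g.1
  exact ⟨h, (cs_subnormal M hM g).trans hh⟩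

end Pool.Agent.CSK
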