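import Pool.Agent.CSK.Series

/-! Groups with class sizes of a power of a simple group and enough composition factors
(helper87). -/

set_option autoImplicit false

namespace Pool.Agent.CSK

open Subgroup

/-- the chain of subgroups of a normal series -/
theorem exists_ch {S : Type*} [Group S] {G : Type*} [Group G] (k : ℕ)
    (K N : Fin k → Subgroup G) (hKn : ∀ i, (K i).Normal) (hNn : ∀ i, (N i).Normal)
    (hKN : ∀ i, K i ≤ N i) (hNK : ∀ i j, i < j → N i ≤ K j) (a : Fin k → ℕ)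
    (f : ∀ i, N i →* (Fin (a i) → S)) (hf : ∀ i, Function.Surjective (f i))
    (hker : ∀ i, (f i).ker = (K i).subgroupOf (N i)) :
    ∀ m (hm : m ≤ k), ∃ T : Subgroup G, Ch S T (∑ i : Fin m, a (Fin.castLE hm i)) ∧
      ∀ j : Fin k, m ≤ j.1 → T ≤ K j := by
  intro m
  induction m with
  | zero =>
    intro _
    exact ⟨⊥, by simpa using Ch.base, fun _ _ => bot_le⟩
  | succ m ih =>
    intro hm
    obtain ⟨T, hT, hTK⟩ := ih (by omega)
    refine ⟨N ⟨m, by omega⟩, ?_, fun j hj => hNK _ _ (Fin.lt_def.2 hj)⟩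
    rw [Fin.sum_univ_castSucc]
    exact Ch.step T (K ⟨m, by omega⟩) (N ⟨m, by omega⟩) _ _ hT (hTK _ le_rfl) (hKN _) (hKn _)
      (hNn _) (f ⟨m, by omega⟩) (hf _) (hker _)

theorem mult {S : Type*} [Group S] [Finite S] [IsSimpleGroup S]
    (hS : ∃ a b : S, a * b ≠ b * a)
    (hP : ∀ φ : S ≃* S, (∃ b : S, ∀ x, φ x = b * x * b⁻¹) ∨
      ∃ a : S, ∀ y : S, Nat.card {x : S // a * φ x * a⁻¹ = x} < Nat.card (centralizer {y}))
    (n : ℕ) {G : Type*} [Group G] [Finite G]
    (hN : ∀ g : G, ∃ h : (Fin n → S),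
      Nat.card {x : G // IsConj g x} ∣ Nat.card {x : (Fin n → S) // IsConj h x})
    (k : ℕ) (K N : Fin k → Subgroup G) (hKn : ∀ i, (K i).Normal) (hNn : ∀ i, (N i).Normal)
    (hKN : ∀ i, K i ≤ N i) (hNK : ∀ i j, i < j → N i ≤ K j) (a : Fin k → ℕ)
    (f : ∀ i, N i →* (Fin (a i) → S)) (hf : ∀ i, Function.Surjective (f i))
    (hker : ∀ i, (f i).ker = (K i).subgroupOf (N i)) (hsum : n ≤ ∑ i, a i) :
    ∃ F : G →* (Fin n → S), Function.Surjective F ∧ F.ker = center G := by
  classical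
  -- smallest centraliser
  obtain ⟨x₀, hx₀⟩ := Finite.exists_min (fun x : S => Nat.card (centralizer {x}))
  obtain ⟨c, hc⟩ : ∃ c, Nat.card (centralizer {x₀}) = c := ⟨_, rfl⟩
  rw [hc] at hx₀
  have hcS : c < Nat.card S := by
    obtain ⟨u, v, huv⟩ := hS
    refine (hx₀ u).trans_lt ?_
    refine lt_of_le_of_ne (Subgroup.card_le_card_group _) fun h => huv ?_
    have h1 : centralizer {u} = ⊤ := Subgroup.card_eq_iff_eq_top _ |>.1 h
    have h2 : v ∈ centralizer {u} := by
      rw [h1]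
      exact mem_top _
    exact (mem_centralizer_singleton_iff.1 h2).symm
  have hx₀1 : x₀ ≠ 1 := by
    intro h
    have h1 : centralizer {x₀} = ⊤ := by
      rw [eq_top_iff]
      intro y _
      rw [mem_centralizer_singleton_iff, h]
      simp
    rw [h1, Subgroup.card_top] at hc
    omega
  have hc2 : 2 ≤ c := by
    have : Nontrivial (centralizer {x₀}) := by
      refine ⟨⟨⟨x₀, ?_⟩, 1, ?_⟩⟩
      · rw [mem_centralizer_singleton_iff]
      · intro h1
        exact hx₀1 (congrArg Subtype.val h1)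
    rw [← hc]
    exact Finite.one_lt_card
  have hP' : ∀ ψ : S ≃* S, ∃ a : S, Nat.card {x : S // a * ψ x * a⁻¹ = x} ≤ c ∧
      (Nat.card {x : S // a * ψ x * a⁻¹ = x} < c ∨ ∃ b, ∀ x, ψ x = b * x * b⁻¹) := by
    intro ψ
    rcases hP ψ with ⟨b, hb⟩ | ⟨a, ha⟩
    · refine ⟨x₀ * b⁻¹, le_of_eq ?_, Or.inr ⟨b, hb⟩⟩
      rw [← hc]
      refine Nat.card_congr (Equiv.subtypeEquivRight fun x => ?_)
      rw [mem_centralizer_singleton_iff, hb]
      have h1 : x₀ * b⁻¹ * (b * x * b⁻¹) * (x₀ * b⁻¹)⁻¹ = x₀ * x * x₀⁻¹ := by group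
      rw [h1, mul_inv_eq_iff_eq_mul]
      exact ⟨fun h => h.symm, fun h => h.symm⟩
    · have := ha x₀
      rw [hc] at this
      exact ⟨a, this.le, Or.inl this⟩
  -- sizes of classes
  have hBd : ∀ g : G, Nat.card {x : G // IsConj g x} * c ^ n ≤ Nat.card S ^ n := by
    intro g
    obtain ⟨h, hh⟩ := hN g
    refine (Nat.mul_le_mul_right _ (Nat.le_of_dvd (Nat.pos_of_ne_zero (cs_pos h)) hh)).trans ?_
    rw [cs_pi]
    have h1 : (∏ i, Nat.card {x : S // IsConj (h i) x}) * (∏ _i : Fin n, c) ≤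
        ∏ _i : Fin n, Nat.card S := by
      rw [← Finset.prod_mul_distrib]
      refine Finset.prod_le_prod' fun i _ => ?_
      rw [← cs_mul (h i)]
      exact Nat.mul_le_mul_left _ (hx₀ (h i))
    have h2 : (∏ _i : Fin n, c) = c ^ n := by
      rw [Finset.prod_const, Finset.card_univ, Fintype.card_fin]
    have h3 : (∏ _i : Fin n, Nat.card S) = Nat.card S ^ n := by
      rw [Finset.prod_const, Finset.card_univ, Fintype.card_fin]
    rwa [h2, h3] at h1
  obtain ⟨T, hT, -⟩ := exists_ch k K N hKn hNn hKN hNK a f hf hker k le_rfl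
  have hsum' : ∑ i : Fin k, a (Fin.castLE le_rfl i) = ∑ i, a i := rfl
  rw [hsum'] at hT
  -- not more than `n` factors
  have hle : ∑ i, a i ≤ n := by
    by_contra hcon
    push Not at hcon
    obtain ⟨d, hd⟩ : ∃ d, ∑ i, a i = n + (d + 1) := ⟨∑ i, a i - n - 1, by omega⟩
    rw [hd] at hT
    obtain ⟨x, -, hx⟩ := quality hS c hc2 hP' hT 1
    rw [mul_one] at hx
    have h1 : (centralizer {x}).relIndex T ≤ Nat.card {y : G // IsConj x y} := by
      rw [cs_eq_index, ← relIndex_top_right]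
      exact relIndex_le_of_le_right le_top (rel_ne _ _)
    have h2 := hBd x
    have h3 : Nat.card S ^ (n + (d + 1)) * c ^ n ≤ c ^ (n + (d + 1)) * Nat.card S ^ n := by
      calc Nat.card S ^ (n + (d + 1)) * c ^ n
          ≤ (c ^ (n + (d + 1)) * Nat.card {y : G // IsConj x y}) * c ^ n :=
            Nat.mul_le_mul_right _ (hx.trans (Nat.mul_le_mul_left _ h1))
        _ = c ^ (n + (d + 1)) * (Nat.card {y : G // IsConj x y} * c ^ n) := by ring
        _ ≤ c ^ (n + (d + 1)) * Nat.card S ^ n := Nat.mul_le_mul_left _ h2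
    have hcn : 0 < c ^ n := Nat.pow_pos (by omega)
    have hSn : 0 < Nat.card S ^ n := Nat.pow_pos Nat.card_pos
    have h4 : Nat.card S ^ (d + 1) ≤ c ^ (d + 1) := by
      have h5 : (c ^ n * Nat.card S ^ n) * Nat.card S ^ (d + 1) ≤
          (c ^ n * Nat.card S ^ n) * c ^ (d + 1) := by
        calc (c ^ n * Nat.card S ^ n) * Nat.card S ^ (d + 1)
            = Nat.card S ^ (n + (d + 1)) * c ^ n := by rw [pow_add]; ring
          _ ≤ c ^ (n + (d + 1)) * Nat.card S ^ n := h3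
          _ = (c ^ n * Nat.card S ^ n) * c ^ (d + 1) := by rw [pow_add]; ring
      exact Nat.le_of_mul_le_mul_left h5 (Nat.mul_pos hcn hSn)
    exact absurd h4 (not_le.2 (Nat.pow_lt_pow_left hcS (Nat.succ_ne_zero d)))
  have hbn : ∑ i, a i = n := le_antisymm hle hsum
  rw [hbn] at hT
  obtain ⟨ι', _, F', hcard, hF'⟩ := climb hS c hc2 hP' n x₀ hx₀1 hc hBd hT (Fin 0)
    (1 : G →* (Fin 0 → S)) (fun z => ⟨1, Subsingleton.elim _ _⟩) (fun x _ => by simp) (by simp)
  let e : Fin n ≃ ι' := (Fintype.equivFinOfCardEq hcard).symm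
  let F : G →* (Fin n → S) := MonoidHom.mk' (fun g i => F' g (e i)) fun g g' => by
    funext i
    simp
  have hF : ∀ g i, F g i = F' g (e i) := fun _ _ => rfl
  have hFs : Function.Surjective F := by
    intro z
    obtain ⟨g, hg⟩ := hF' (fun j => z (e.symm j))
    refine ⟨g, funext fun i => ?_⟩
    rw [hF, hg]
    simp
  refine ⟨F, hFs, le_antisymm (ker_le_center F hFs hN fun r _ => hgen_pi (fun _ => hS) r) ?_⟩
  intro z hz
  rw [MonoidHom.mem_ker]
  apply center_pi hS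
  intro x
  obtain ⟨g, rfl⟩ := hFs x
  rw [← map_mul, ← map_mul, mem_center_iff.1 hz g]

end Pool.Agent.CSK
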