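import Pool.Agent.CSK.Series
import Pool.Agent.CSK.DefsB

/-! Groups with class sizes of a power of a simple group: the multiplicity of the simple group from
one prime (helper87). -/

set_option autoImplicit false

namespace Pool.Agent.CSK

open Subgroup

/-- the theorem for a chain with at least `n` factors -/
theorem mult_ch {S : Type*} [Group S] [Finite S] [IsSimpleGroup S]
    (hS : ∃ a b : S, a * b ≠ b * a) (hP : SmallOuter S)
    (n : ℕ) {G : Type*} [Group G] [Finite G]
    (hN : ∀ g : G, ∃ h : (Fin n → S),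
      Nat.card {x : G // IsConj g x} ∣ Nat.card {x : (Fin n → S) // IsConj h x})
    {T : Subgroup G} {b : ℕ} (hT : Ch S T b) (hnb : n ≤ b) :
    ∃ F : G →* (Fin n → S), Function.Surjective F ∧ F.ker = center G := by
  classical
  obtain ⟨x₀, hx₀⟩ := Finite.exists_min (fun x : S => Nat.card (centralizer {x}))
  obtain ⟨c, hc⟩ : ∃ c, Nat.card (centralizer {x₀}) = c := ⟨_, rfl⟩
  rw [hc] at hx₀
  have hcS : c < Nat.card S := by
    obtain ⟨u, v, huv⟩ := hS
    refine (hx₀ u).trans_lt ?_
    refine lt_of_le_of_ne (Subgroup.card_le_card_group _) fun h => huv ?_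
    have h1 : centralizer {u} = ⊤ := Subgroup.card_eq_iff_eq_top _ |>.1 h
    have h2 : v ∈ centralizer {u} := by
      rw [h1]
      exact mem_top _
    exact (mem_centralizer_singleton_iff.1 h2).symm
  have hx₀1 : x₀ ≠ 1 := by
    intro h
    have h1 : centralizer {x₀} = ⊤ := by
      rw [eq_top_iff]
      intro y _
      rw [mem_centralizer_singleton_iff, h]
      simp
    rw [h1, Subgroup.card_top] at hc
    omega
  have hc2 : 2 ≤ c := by
    have : Nontrivial (centralizer {x₀}) := by
      refine ⟨⟨⟨x₀, ?_⟩, 1, ?_⟩⟩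
      · rw [mem_centralizer_singleton_iff]
      · intro h1
        exact hx₀1 (congrArg Subtype.val h1)
    rw [← hc]
    exact Finite.one_lt_card
  have hP' : ∀ ψ : S ≃* S, ∃ a : S, Nat.card {x : S // a * ψ x * a⁻¹ = x} ≤ c ∧
      (Nat.card {x : S // a * ψ x * a⁻¹ = x} < c ∨ ∃ b, ∀ x, ψ x = b * x * b⁻¹) := by
    intro ψ
    rcases hP ψ with ⟨b, hb⟩ | ⟨a, ha⟩
    · refine ⟨x₀ * b⁻¹, le_of_eq ?_, Or.inr ⟨b, hb⟩⟩
      rw [← hc]
      refine Nat.card_congr (Equiv.subtypeEquivRight fun x => ?_)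
      rw [mem_centralizer_singleton_iff, hb]
      have h1 : x₀ * b⁻¹ * (b * x * b⁻¹) * (x₀ * b⁻¹)⁻¹ = x₀ * x * x₀⁻¹ := by group
      rw [h1, mul_inv_eq_iff_eq_mul]
      exact ⟨fun h => h.symm, fun h => h.symm⟩
    · have := ha x₀
      rw [hc] at this
      exact ⟨a, this.le, Or.inl this⟩
  have hBd : ∀ g : G, Nat.card {x : G // IsConj g x} * c ^ n ≤ Nat.card S ^ n := by
    intro g
    obtain ⟨h, hh⟩ := hN g
    refine (Nat.mul_le_mul_right _ (Nat.le_of_dvd (Nat.pos_of_ne_zero (cs_pos h)) hh)).trans ?_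
    rw [cs_pi]
    have h1 : (∏ i, Nat.card {x : S // IsConj (h i) x}) * (∏ _i : Fin n, c) ≤
        ∏ _i : Fin n, Nat.card S := by
      rw [← Finset.prod_mul_distrib]
      refine Finset.prod_le_prod' fun i _ => ?_
      rw [← cs_mul (h i)]
      exact Nat.mul_le_mul_left _ (hx₀ (h i))
    have h2 : (∏ _i : Fin n, c) = c ^ n := by
      rw [Finset.prod_const, Finset.card_univ, Fintype.card_fin]
    have h3 : (∏ _i : Fin n, Nat.card S) = Nat.card S ^ n := by
      rw [Finset.prod_const, Finset.card_univ, Fintype.card_fin]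
    rwa [h2, h3] at h1
  -- not more than `n` factors
  have hle : b ≤ n := by
    by_contra hcon
    push Not at hcon
    obtain ⟨d, rfl⟩ : ∃ d, b = n + (d + 1) := ⟨b - n - 1, by omega⟩
    obtain ⟨x, -, hx⟩ := quality hS c hc2 hP' hT 1
    rw [mul_one] at hx
    have h1 : (centralizer {x}).relIndex T ≤ Nat.card {y : G // IsConj x y} := by
      rw [cs_eq_index, ← relIndex_top_right]
      exact relIndex_le_of_le_right le_top (rel_ne _ _)
    have h2 := hBd x
    have h3 : Nat.card S ^ (n + (d + 1)) * c ^ n ≤ c ^ (n + (d + 1)) * Nat.card S ^ n := by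
      calc Nat.card S ^ (n + (d + 1)) * c ^ n
          ≤ (c ^ (n + (d + 1)) * Nat.card {y : G // IsConj x y}) * c ^ n :=
            Nat.mul_le_mul_right _ (hx.trans (Nat.mul_le_mul_left _ h1))
        _ = c ^ (n + (d + 1)) * (Nat.card {y : G // IsConj x y} * c ^ n) := by ring
        _ ≤ c ^ (n + (d + 1)) * Nat.card S ^ n := Nat.mul_le_mul_left _ h2
    have hcn : 0 < c ^ n := Nat.pow_pos (by omega)
    have hSn : 0 < Nat.card S ^ n := Nat.pow_pos Nat.card_pos
    have h4 : Nat.card S ^ (d + 1) ≤ c ^ (d + 1) := by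
      have h5 : (c ^ n * Nat.card S ^ n) * Nat.card S ^ (d + 1) ≤
          (c ^ n * Nat.card S ^ n) * c ^ (d + 1) := by
        calc (c ^ n * Nat.card S ^ n) * Nat.card S ^ (d + 1)
            = Nat.card S ^ (n + (d + 1)) * c ^ n := by rw [pow_add]; ring
          _ ≤ c ^ (n + (d + 1)) * Nat.card S ^ n := h3
          _ = (c ^ n * Nat.card S ^ n) * c ^ (d + 1) := by rw [pow_add]; ring
      exact Nat.le_of_mul_le_mul_left h5 (Nat.mul_pos hcn hSn)
    exact absurd h4 (not_le.2 (Nat.pow_lt_pow_left hcS (Nat.succ_ne_zero d)))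
  obtain rfl : b = n := le_antisymm hle hnb
  obtain ⟨ι', _, F', hcard, hF'⟩ := climb hS c hc2 hP' b x₀ hx₀1 hc hBd hT (Fin 0)
    (1 : G →* (Fin 0 → S)) (fun z => ⟨1, Subsingleton.elim _ _⟩) (fun x _ => by simp) (by simp)
  let e : Fin b ≃ ι' := (Fintype.equivFinOfCardEq hcard).symm
  let F : G →* (Fin b → S) := MonoidHom.mk' (fun g i => F' g (e i)) fun g g' => by
    funext i
    simp
  have hF : ∀ g i, F g i = F' g (e i) := fun _ _ => rfl
  have hFs : Function.Surjective F := by
    intro z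
    obtain ⟨g, hg⟩ := hF' (fun j => z (e.symm j))
    refine ⟨g, funext fun i => ?_⟩
    rw [hF, hg]
    simp
  refine ⟨F, hFs, le_antisymm (ker_le_center F hFs hN fun r _ => hgen_pi (fun _ => hS) r) ?_⟩
  intro z hz
  rw [MonoidHom.mem_ker]
  apply center_pi hS
  intro x
  obtain ⟨g, rfl⟩ := hFs x
  rw [← map_mul, ← map_mul, mem_center_iff.1 hz g]

/-- extending a chain by a section without factors -/
theorem Ch.extend {S : Type*} [Group S] {G : Type*} [Group G] {K N : Subgroup G} {b : ℕ}
    (h : Ch S K b) (hKN : K ≤ N) (hN : N.Normal) : Ch S N b := by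
  have := Ch.step (S := S) K N N b 0 h hKN le_rfl hN hN 1 (fun z => ⟨1, Subsingleton.elim _ _⟩) (by
    ext x
    simp)
  simpa using this

/-- the chain of a series and the `r`-part of the order -/
theorem exists_ch_at {S : Type*} [Group S] [Finite S] {G : Type*} [Group G] [Finite G] {r : ℕ}
    (hr : r.Prime) (L : ℕ → Subgroup G) (h0 : L 0 = ⊥) (hn : ∀ i, (L i).Normal) (k : ℕ)
    (h : ∀ i < k, L i ≤ L (i + 1) ∧ (¬ r ∣ (L i).relIndex (L (i + 1)) ∨
      ∃ (a : ℕ) (f : L (i + 1) →* (Fin a → S)), Function.Surjective f ∧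
        f.ker = (L i).subgroupOf (L (i + 1)))) :
    ∀ m ≤ k, ∃ b, Ch S (L m) b ∧
      (Nat.card (L m)).factorization r = b * (Nat.card S).factorization r := by
  intro m
  induction m with
  | zero =>
    intro _
    refine ⟨0, ?_, ?_⟩
    · rw [h0]
      exact Ch.base
    · rw [h0]
      simp
  | succ m ih =>
    intro hm
    obtain ⟨b, hb, hbr⟩ := ih (by omega)
    obtain ⟨hle, hor⟩ := h m (by omega)
    have hcard : Nat.card (L m) * (L m).relIndex (L (m + 1)) = Nat.card (L (m + 1)) := by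
      have h1 := Subgroup.card_mul_index ((L m).subgroupOf (L (m + 1)))
      rwa [Nat.card_congr (Subgroup.subgroupOfEquivOfLe hle).toEquiv] at h1
    have hfac : (Nat.card (L (m + 1))).factorization r =
        (Nat.card (L m)).factorization r + ((L m).relIndex (L (m + 1))).factorization r := by
      rw [← hcard, Nat.factorization_mul Nat.card_pos.ne' (rel_ne _ _), Finsupp.add_apply]
    rcases hor with hor | ⟨a, f, hf, hker⟩
    · refine ⟨b, hb.extend hle (hn _), ?_⟩
      rw [hfac, hbr, Nat.factorization_eq_zero_of_not_dvd hor, add_zero]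
    · refine ⟨b + a, Ch.step (L m) (L m) (L (m + 1)) b a hb le_rfl hle (hn _) (hn _) f hf hker, ?_⟩
      have h1 : (L m).relIndex (L (m + 1)) = Nat.card S ^ a := by
        have h2 : (L m).relIndex (L (m + 1)) = f.ker.index := by
          rw [hker]
          rfl
        rw [h2, index_ker, MonoidHom.range_eq_top.2 hf, Subgroup.card_top, Nat.card_pi,
          Finset.prod_const, Finset.card_univ, Fintype.card_fin]
      rw [hfac, hbr, h1, Nat.factorization_pow, Finsupp.smul_apply, smul_eq_mul, add_mul]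

/-- one prime is enough -/
theorem one_prime {S : Type*} [Group S] [Finite S] [IsSimpleGroup S]
    (hS : ∃ a b : S, a * b ≠ b * a) (hP : SmallOuter S) {r : ℕ} (hr : r.Prime)
    (hrS : r ∣ Nat.card S) (hx : ∃ x : S, ¬ r ∣ Nat.card (centralizer {x})) (n : ℕ) {G : Type*}
    [Group G] [Finite G]
    (hN : ∀ g : G, ∃ h : (Fin n → S),
      Nat.card {x : G // IsConj g x} ∣ Nat.card {x : (Fin n → S) // IsConj h x})
    (hN' : ∀ h : (Fin n → S), ∃ g : G,
      Nat.card {x : (Fin n → S) // IsConj h x} ∣ Nat.card {x : G // IsConj g x})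
    (hG : SeriesAt S G r) :
    ∃ F : G →* (Fin n → S), Function.Surjective F ∧ F.ker = center G := by
  obtain ⟨k, L, h0, hk, hn, h⟩ := hG
  obtain ⟨b, hb, hbr⟩ := exists_ch_at hr L h0 hn k h k le_rfl
  rw [hk, Subgroup.card_top] at hbr
  refine mult_ch hS hP n hN hb ?_
  obtain ⟨x, hx⟩ := hx
  obtain ⟨g, hg⟩ := hN' (fun _ => x)
  have h1 : (Nat.card {y : S // IsConj x y}).factorization r = (Nat.card S).factorization r := by
    rw [← cs_mul x, Nat.factorization_mul (cs_pos x) Nat.card_pos.ne', Finsupp.add_apply,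
      Nat.factorization_eq_zero_of_not_dvd hx, add_zero]
  have h2 : (Nat.card {y : (Fin n → S) // IsConj (fun _ => x) y}).factorization r =
      n * (Nat.card S).factorization r := by
    rw [cs_pi, Finset.prod_const, Finset.card_univ, Fintype.card_fin, Nat.factorization_pow,
      Finsupp.smul_apply, smul_eq_mul, h1]
  have h3 : Nat.card {y : (Fin n → S) // IsConj (fun _ => x) y} ∣ Nat.card G := by
    refine hg.trans ?_
    rw [← cs_mul g]
    exact Dvd.intro _ rfl
  have h4 := (Nat.factorization_le_iff_dvd (cs_pos _) Nat.card_pos.ne').2 h3 r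
  rw [h2, hbr] at h4
  have h5 : 0 < (Nat.card S).factorization r := hr.factorization_pos_of_dvd Nat.card_pos.ne' hrS
  exact Nat.le_of_mul_le_mul_right h4 h5

end Pool.Agent.CSK
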