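import Pool.Agent.CSK.AutPi
import Pool.Agent.CSK.FixCount

/-! Normal series with sections which are powers of a simple group (helper87). -/

set_option autoImplicit false

namespace Pool.Agent.CSK

open Subgroup

theorem center_pi {ι S : Type*} [Group S] [IsSimpleGroup S]
    (hS : ∃ a b : S, a * b ≠ b * a) (z : ι → S) (hz : ∀ x, z * x = x * z) : z = 1 := by
  classical
  funext i
  by_contra hne
  obtain ⟨s, hs⟩ := exists_noncomm hS (z i) hne
  have h1 := congrFun (hz (Pi.mulSingle i s)) i
  simp only [Pi.mul_apply, Pi.mulSingle_eq_same] at h1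
  exact hs h1

theorem conj_uniq {ι S : Type*} [Group S] [IsSimpleGroup S] (hS : ∃ a b : S, a * b ≠ b * a)
    (u v : ι → S) (huv : ∀ x, u * x * u⁻¹ = v * x * v⁻¹) : u = v := by
  have h1 : v⁻¹ * u = 1 := by
    apply center_pi hS
    intro x
    have h2 := congrArg (fun y => v⁻¹ * y * u) (huv x)
    simpa [mul_assoc] using h2
  exact (inv_mul_eq_one.1 h1).symm

/-- the action of `G` on a section -/
theorem action {G H : Type*} [Group G] [Group H] [Finite H] (M : Subgroup G) [M.Normal]
    (f : M →* H) (hf : Function.Surjective f)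
    (hinv : ∀ (g : G) (m : M), f m = 1 → f (MulAut.conjNormal g m) = 1) :
    ∃ A : G → (H →* H), (∀ g (m : M), A g (f m) = f (MulAut.conjNormal g m)) ∧
      (∀ g, Function.Bijective (A g)) ∧ (∀ g g' x, A (g * g') x = A g (A g' x)) := by
  have hact : ∀ g : G, ∃ A : H →* H, ∀ m : M, A (f m) = f (MulAut.conjNormal g m) := by
    intro g
    have h1 : f.ker ≤ (f.comp (MulAut.conjNormal g : M ≃* M).toMonoidHom).ker := by
      intro m hm
      rw [MonoidHom.mem_ker] at hm ⊢
      exact hinv g m hm
    refine ⟨MonoidHom.liftOfSurjective f hf ⟨_, h1⟩, fun m => ?_⟩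
    exact MonoidHom.liftOfRightInverse_comp_apply f _ (Function.rightInverse_surjInv hf) ⟨_, h1⟩ m
  choose A hA using hact
  refine ⟨A, hA, fun g => ?_, fun g g' x => ?_⟩
  · refine Finite.surjective_iff_bijective.1 fun y => ?_
    obtain ⟨m, rfl⟩ := hf y
    obtain ⟨u, rfl⟩ := (MulAut.conjNormal g : M ≃* M).surjective m
    exact ⟨f u, hA g u⟩
  · obtain ⟨m, rfl⟩ := hf x
    rw [hA, hA, hA, map_mul]
    rfl

theorem rel_ne {G : Type*} [Group G] [Finite G] (D N : Subgroup G) : D.relIndex N ≠ 0 :=
  Subgroup.index_ne_zero_of_finite (H := D.subgroupOf N)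

/-- counting centralisers in a section -/
theorem count_section {G H : Type*} [Group G] [Finite G] [Group H] [Finite H] (M K : Subgroup G)
    (hKM : K ≤ M) (f : M →* H) (hf : Function.Surjective f) (hker : f.ker = K.subgroupOf M)
    (D : Subgroup G) (P : H → Prop) (hP : ∀ u : M, u.1 ∈ D → P (f u)) :
    Nat.card H * D.relIndex K ≤ Nat.card {x : H // P x} * D.relIndex M := by
  let ψ : D.subgroupOf M →* H := f.comp (D.subgroupOf M).subtype
  have e1 : Nat.card ψ.ker * Nat.card ψ.range = Nat.card (D.subgroupOf M) := by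
    rw [← index_ker, Subgroup.card_mul_index]
  have e2 : Nat.card ψ.ker = Nat.card (D.subgroupOf K) := by
    refine Nat.card_congr ⟨fun x => ⟨⟨x.1.1.1, ?_⟩, x.1.2⟩,
      fun x => ⟨⟨⟨x.1.1, hKM x.1.2⟩, x.2⟩, ?_⟩, fun _ => rfl, fun _ => rfl⟩
    · have h1 : x.1.1 ∈ f.ker := x.2
      rw [hker] at h1
      exact h1
    · change (⟨x.1.1, hKM x.1.2⟩ : M) ∈ f.ker
      rw [hker]
      exact x.1.2
  have e3 : Nat.card ψ.range ≤ Nat.card {x : H // P x} := by
    refine Nat.card_le_card_of_injective
      (fun x : ψ.range => (⟨x.1, ?_⟩ : {x : H // P x})) fun x y hxy => ?_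
    · obtain ⟨u, hu⟩ := x.2
      rw [← hu]
      exact hP u.1 u.2
    · have := congrArg Subtype.val hxy
      exact Subtype.ext this
  have e4 : Nat.card K * Nat.card H = Nat.card M := by
    have h1 : Nat.card f.ker = Nat.card K := by
      rw [hker]
      exact Nat.card_congr (Subgroup.subgroupOfEquivOfLe hKM).toEquiv
    rw [← h1, ← Subgroup.card_mul_index f.ker, index_ker, MonoidHom.range_eq_top.2 hf,
      Subgroup.card_top]
  have e5 : Nat.card (D.subgroupOf M) * D.relIndex M = Nat.card M := Subgroup.card_mul_index _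
  have e6 : Nat.card (D.subgroupOf K) * D.relIndex K = Nat.card K := Subgroup.card_mul_index _
  have hpos : 0 < Nat.card (D.subgroupOf K) := Nat.card_pos
  apply Nat.le_of_mul_le_mul_left _ hpos
  calc Nat.card (D.subgroupOf K) * (Nat.card H * D.relIndex K)
      = Nat.card K * Nat.card H := by rw [← e6]; ring
    _ = Nat.card (D.subgroupOf K) * Nat.card ψ.range * D.relIndex M := by
        rw [e4, ← e5, ← e1, e2]
    _ ≤ Nat.card (D.subgroupOf K) * Nat.card {x : H // P x} * D.relIndex M :=
        Nat.mul_le_mul_right _ (Nat.mul_le_mul_left _ e3)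
    _ = Nat.card (D.subgroupOf K) * (Nat.card {x : H // P x} * D.relIndex M) := by ring

/-- chains of normal subgroups; `b` counts the factors `S` -/
inductive Ch (S : Type*) [Group S] {G : Type*} [Group G] : Subgroup G → ℕ → Prop
  | base : Ch S ⊥ 0
  | step (K K' N : Subgroup G) (b a : ℕ) (hK : Ch S K b) (h1 : K ≤ K') (h2 : K' ≤ N)
      (hK'n : K'.Normal) (hNn : N.Normal) (f : N →* (Fin a → S)) (hf : Function.Surjective f)
      (hker : f.ker = K'.subgroupOf N) : Ch S N (b + a)

theorem Ch.normal {S : Type*} [Group S] {G : Type*} [Group G] {N : Subgroup G} {b : ℕ}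
    (h : Ch S N b) : N.Normal := by
  cases h with
  | base => exact normal_bot
  | step K K' N b a hK h1 h2 hK'n hNn f hf hker => exact hNn

/-- invariance of the kernel of a section -/
theorem sec_inv {G H : Type*} [Group G] [Group H] (N K' : Subgroup G) [N.Normal]
    (hK' : K'.Normal) (f : N →* H) (hker : f.ker = K'.subgroupOf N) (g : G) (m : N)
    (hm : f m = 1) : f (MulAut.conjNormal g m) = 1 := by
  have h1 : m ∈ f.ker := hm
  rw [hker, mem_subgroupOf] at h1
  rw [← MonoidHom.mem_ker, hker, mem_subgroupOf, MulAut.conjNormal_apply]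
  exact hK'.conj_mem _ h1 g

section main

variable {S : Type*} [Group S] [Finite S] [IsSimpleGroup S] (hS : ∃ a b : S, a * b ≠ b * a)
  (c : ℕ) (hc2 : 2 ≤ c)
  (hP : ∀ ψ : S ≃* S, ∃ a : S, Nat.card {x : S // a * ψ x * a⁻¹ = x} ≤ c ∧
      (Nat.card {x : S // a * ψ x * a⁻¹ = x} < c ∨ ∃ b, ∀ x, ψ x = b * x * b⁻¹))

include hS hc2 hP

/-- the best choice of an element of a coset of a section -/
theorem best {G : Type*} [Group G] [Finite G] (N K' : Subgroup G) [N.Normal]
    (hK' : K'.Normal) (hK'N : K' ≤ N) {a : ℕ} (f : N →* (Fin a → S)) (hf : Function.Surjective f)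
    (hker : f.ker = K'.subgroupOf N) (g : G) :
    (∃ b : Fin a → S, ∀ m : N, f (MulAut.conjNormal g m) = b * f m * b⁻¹) ∧
      (∃ m₀ : N, ∀ x ∈ K', Nat.card S ^ a * (centralizer {x * (m₀.1 * g)}).relIndex K' ≤
        c ^ a * (centralizer {x * (m₀.1 * g)}).relIndex N) ∨
    (∃ m₀ : N, ∀ x ∈ K', Nat.card S ^ a * (centralizer {x * (m₀.1 * g)}).relIndex K' <
        c ^ a * (centralizer {x * (m₀.1 * g)}).relIndex N) := by
  classical
  obtain ⟨A, hA, hAbij, -⟩ := action N f hf (sec_inv N K' hK' f hker)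
  obtain ⟨σ, φ, hσ⟩ := aut_pi hS (A g) (hAbij g)
  obtain ⟨k, hk1, hk2⟩ := fix_both c hc2 σ φ hP
  obtain ⟨m₀, hm₀⟩ := hf k
  have hcount : ∀ x ∈ K', Nat.card S ^ a * (centralizer {x * (m₀.1 * g)}).relIndex K' ≤
      Nat.card {x : Fin a → S // ∀ i, k (σ i) * φ i (x i) * (k (σ i))⁻¹ = x (σ i)} *
        (centralizer {x * (m₀.1 * g)}).relIndex N := by
    intro x hx
    have h0 : Nat.card (Fin a → S) = Nat.card S ^ a := by
      rw [Nat.card_pi, Finset.prod_const, Finset.card_univ, Fintype.card_fin]
    rw [← h0]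
    refine count_section N K' hK'N f hf hker _ _ fun u hu i => ?_
    rw [mem_centralizer_singleton_iff] at hu
    have hx1 : f ⟨x, hK'N hx⟩ = 1 := by
      rw [← MonoidHom.mem_ker, hker, mem_subgroupOf]
      exact hx
    have h1 : u = ⟨x, hK'N hx⟩ * (m₀ * MulAut.conjNormal g u * m₀⁻¹) * ⟨x, hK'N hx⟩⁻¹ := by
      apply Subtype.ext
      change u.1 = x * (m₀.1 * (MulAut.conjNormal g u : N).1 * m₀.1⁻¹) * x⁻¹
      rw [MulAut.conjNormal_apply]
      have h2 : x * (m₀.1 * (g * u.1 * g⁻¹) * m₀.1⁻¹) * x⁻¹ =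
          (x * (m₀.1 * g)) * u.1 * (x * (m₀.1 * g))⁻¹ := by group
      rw [h2, ← hu]
      group
    have h3 : f u = k * A g (f u) * k⁻¹ := by
      conv_lhs => rw [h1]
      rw [map_mul, map_mul, map_inv, hx1, map_mul, map_mul, map_inv, hm₀, hA]
      simp
    have h4 := congrFun h3 (σ i)
    rw [Pi.mul_apply, Pi.mul_apply, Pi.inv_apply, hσ] at h4
    exact h4.symm
  by_cases hne : σ ≠ 1 ∨ ∃ i, ¬ ∃ b, ∀ x, φ i x = b * x * b⁻¹
  · right
    refine ⟨m₀, fun x hx => (hcount x hx).trans_lt ?_⟩
    refine Nat.mul_lt_mul_of_pos_right (hk2 hne) ?_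
    exact Nat.pos_of_ne_zero (rel_ne _ _)
  · left
    refine ⟨?_, m₀, fun x hx => (hcount x hx).trans (Nat.mul_le_mul_right _ hk1)⟩
    push Not at hne
    obtain ⟨hσ1, hφ⟩ := hne
    choose b hb using hφ
    refine ⟨b, fun m => ?_⟩
    rw [← hA]
    funext i
    have h1 := hσ (f m) i
    rw [hσ1] at h1
    change A g (f m) i = _ at h1
    rw [h1, hb]
    rfl

/-- every coset of the top of a chain contains an element with large index of centraliser -/
theorem quality {G : Type*} [Group G] [Finite G] {N : Subgroup G} {b : ℕ} (h : Ch S N b) :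
    ∀ g : G, ∃ x ∈ N, Nat.card S ^ b ≤ c ^ b * (centralizer {x * g}).relIndex N := by
  induction h with
  | base =>
    intro g
    exact ⟨1, one_mem _, by simp⟩
  | step K K' N b a hK h1 h2 hK'n hNn f hf hker ih =>
    intro g
    obtain ⟨m₀, hm₀⟩ : ∃ m₀ : N, ∀ x ∈ K',
        Nat.card S ^ a * (centralizer {x * (m₀.1 * g)}).relIndex K' ≤
        c ^ a * (centralizer {x * (m₀.1 * g)}).relIndex N := by
      rcases best hS c hc2 hP N K' hK'n h2 f hf hker g with ⟨-, m₀, hm₀⟩ | ⟨m₀, hm₀⟩
      · exact ⟨m₀, hm₀⟩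
      · exact ⟨m₀, fun x hx => (hm₀ x hx).le⟩
    obtain ⟨x, hx, hxb⟩ := ih (m₀.1 * g)
    refine ⟨x * m₀.1, N.mul_mem (h2 (h1 hx)) m₀.2, ?_⟩
    rw [mul_assoc]
    have h3 := hm₀ x (h1 hx)
    have h4 : (centralizer {x * (m₀.1 * g)}).relIndex K ≤
        (centralizer {x * (m₀.1 * g)}).relIndex K' := relIndex_le_of_le_right h1 (rel_ne _ _)
    calc Nat.card S ^ (b + a) = Nat.card S ^ b * Nat.card S ^ a := pow_add _ _ _
      _ ≤ (c ^ b * (centralizer {x * (m₀.1 * g)}).relIndex K') * Nat.card S ^ a :=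
          Nat.mul_le_mul_right _ (hxb.trans (Nat.mul_le_mul_left _ h4))
      _ = c ^ b * (Nat.card S ^ a * (centralizer {x * (m₀.1 * g)}).relIndex K') := by ring
      _ ≤ c ^ b * (c ^ a * (centralizer {x * (m₀.1 * g)}).relIndex N) :=
          Nat.mul_le_mul_left _ h3
      _ = c ^ (b + a) * (centralizer {x * (m₀.1 * g)}).relIndex N := by rw [pow_add]; ring

omit [Finite S] [IsSimpleGroup S] hS hc2 hP in
/-- elements over a generating class generate -/
theorem gen_over {G H : Type*} [Group G] [Group H] (F : G →* H) (hF : Function.Surjective F)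
    (h : H) (hcl : normalClosure {h} = ⊤) (D : Subgroup G) (hD : ∀ y, IsConj h (F y) → y ∈ D)
    (g : G) : g ∈ D := by
  obtain ⟨y₀, rfl⟩ := hF h
  have hkerD : F.ker ≤ D := by
    intro ρ hρ
    have h1 : y₀ * ρ ∈ D := by
      apply hD
      rw [map_mul, MonoidHom.mem_ker.1 hρ, mul_one]
    have := D.mul_mem (D.inv_mem (hD y₀ (IsConj.refl _))) h1
    rwa [inv_mul_cancel_left] at this
  have hmap : D.map F = ⊤ := by
    rw [eq_top_iff, ← hcl, normalClosure, closure_le]
    intro z hz
    rw [Group.mem_conjugatesOfSet_iff] at hz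
    obtain ⟨a, ha, haz⟩ := hz
    rw [Set.mem_singleton_iff] at ha
    subst ha
    obtain ⟨y, rfl⟩ := hF z
    exact ⟨y, hD y haz, rfl⟩
  have h1 : F g ∈ D.map F := by
    rw [hmap]
    exact mem_top _
  obtain ⟨d, hd, hdg⟩ := h1
  have h2 : d⁻¹ * g ∈ F.ker := by
    rw [MonoidHom.mem_ker, map_mul, map_inv, hdg, inv_mul_cancel]
  have := D.mul_mem hd (hkerD h2)
  rwa [mul_inv_cancel_left] at this

/-- the group acts by inner automorphisms on the top section, and a map onto a power extends -/
theorem climb {G : Type*} [Group G] [Finite G] (n : ℕ) (x₀ : S) (hx₀ : x₀ ≠ 1)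
    (hx₀c : Nat.card (centralizer {x₀}) = c)
    (hBd : ∀ g : G, Nat.card {x : G // IsConj g x} * c ^ n ≤ Nat.card S ^ n)
    {N : Subgroup G} {b : ℕ} (h : Ch S N b) :
    ∀ (ι : Type) [Fintype ι] (F : G →* (ι → S)), Function.Surjective F → N ≤ F.ker →
      b + Fintype.card ι = n → ∃ (ι' : Type) (_ : Fintype ι') (F' : G →* (ι' → S)),
        Fintype.card ι' = n ∧ Function.Surjective F' := by
  classical
  induction h with
  | base =>
    intro ι _ F hF _ hn
    exact ⟨ι, inferInstance, F, by omega, hF⟩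
  | step K K' N b a hK h1 h2 hK'n hNn f hf hker ih =>
    intro ι _ F hF hNF hn
    have hcl : normalClosure {(fun _ => x₀ : ι → S)} = (⊤ : Subgroup (ι → S)) :=
      normalClosure_pi (fun _ => hS) _ fun _ => hx₀
    -- elements acting by inner automorphisms
    let D : Subgroup G :=
      { carrier := {g | ∃ b : Fin a → S, ∀ m : N, f (MulAut.conjNormal g m) = b * f m * b⁻¹}
        mul_mem' := by
          rintro g g' ⟨u, hu⟩ ⟨v, hv⟩
          refine ⟨u * v, fun m => ?_⟩
          rw [map_mul]
          change f (MulAut.conjNormal g (MulAut.conjNormal g' m)) = _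
          rw [hu, hv]
          group
        one_mem' := ⟨1, fun m => by simp⟩
        inv_mem' := by
          rintro g ⟨u, hu⟩
          refine ⟨u⁻¹, fun m => ?_⟩
          have h3 := hu (MulAut.conjNormal g⁻¹ m)
          have h4 : MulAut.conjNormal g (MulAut.conjNormal g⁻¹ m) = m := by
            apply Subtype.ext
            rw [MulAut.conjNormal_apply, MulAut.conjNormal_apply]
            group
          rw [h4] at h3
          rw [h3]
          group }
    have hD : ∀ g : G, g ∈ D := by
      refine gen_over F hF _ hcl D fun y hy => ?_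
      rcases best hS c hc2 hP N K' hK'n h2 f hf hker y with ⟨hb, -⟩ | ⟨m₀, hm₀⟩
      · exact hb
      · exfalso
        obtain ⟨x, hx, hxb⟩ := quality hS c hc2 hP hK (m₀.1 * y)
        set y₂ : G := x * (m₀.1 * y) with hy₂
        have h3 := hm₀ x (h1 hx)
        have h4 : (centralizer {y₂}).relIndex K ≤ (centralizer {y₂}).relIndex K' :=
          relIndex_le_of_le_right h1 (rel_ne _ _)
        have h5 : (centralizer {y₂}).relIndex N ≤ (centralizer {y₂}).relIndex F.ker :=
          relIndex_le_of_le_right hNF (rel_ne _ _)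
        have hFy : F y₂ = F y := by
          rw [hy₂, map_mul, map_mul, MonoidHom.mem_ker.1 (hNF (h2 (h1 hx))),
            MonoidHom.mem_ker.1 (hNF m₀.2), one_mul, one_mul]
        have h6 := cs_ker F hF y₂
        have h7 : Nat.card {x : ι → S // IsConj (F y₂) x} * c ^ Fintype.card ι =
            Nat.card S ^ Fintype.card ι := by
          rw [hFy, ← cs_conj hy, cs_pi]
          have h8 : ∀ i : ι, Nat.card {x : S // IsConj ((fun _ => x₀ : ι → S) i) x} * c =
              Nat.card S := fun _ => by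
            rw [← hx₀c]
            exact cs_mul x₀
          rw [Finset.prod_const, Finset.card_univ, ← mul_pow]
          congr 1
          rw [← hx₀c]
          exact cs_mul x₀
        have h9 : Nat.card {x : ι → S // IsConj (F y₂) x} * (centralizer {y₂}).relIndex F.ker ≤
            Nat.card {x : G // IsConj y₂ x} :=
          Nat.le_of_dvd (Nat.pos_of_ne_zero (cs_pos y₂)) h6
        have h10 := hBd y₂
        have hcb : 0 < c ^ b := Nat.pow_pos (by omega)
        have hSi : 0 < Nat.card S ^ Fintype.card ι := Nat.pow_pos Nat.card_pos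
        have h11 : Nat.card S ^ (b + a) < c ^ (b + a) * (centralizer {y₂}).relIndex N := by
          calc Nat.card S ^ (b + a) = Nat.card S ^ b * Nat.card S ^ a := pow_add _ _ _
            _ ≤ (c ^ b * (centralizer {y₂}).relIndex K') * Nat.card S ^ a :=
                Nat.mul_le_mul_right _ (hxb.trans (Nat.mul_le_mul_left _ h4))
            _ = c ^ b * (Nat.card S ^ a * (centralizer {y₂}).relIndex K') := by ring
            _ < c ^ b * (c ^ a * (centralizer {y₂}).relIndex N) :=
                Nat.mul_lt_mul_of_pos_left h3 hcb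
            _ = c ^ (b + a) * (centralizer {y₂}).relIndex N := by rw [pow_add]; ring
        have h12 : Nat.card S ^ n < Nat.card S ^ n := by
          calc Nat.card S ^ n = Nat.card S ^ (b + a) * Nat.card S ^ Fintype.card ι := by
                rw [← pow_add, hn]
            _ < (c ^ (b + a) * (centralizer {y₂}).relIndex N) * Nat.card S ^ Fintype.card ι :=
                Nat.mul_lt_mul_of_pos_right h11 hSi
            _ ≤ (c ^ (b + a) * (centralizer {y₂}).relIndex F.ker) *
                Nat.card S ^ Fintype.card ι :=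
                Nat.mul_le_mul_right _ (Nat.mul_le_mul_left _ h5)
            _ = (Nat.card {x : ι → S // IsConj (F y₂) x} * (centralizer {y₂}).relIndex F.ker) *
                c ^ n := by
                rw [← h7, ← hn, pow_add c (b + a)]
                ring
            _ ≤ Nat.card {x : G // IsConj y₂ x} * c ^ n := Nat.mul_le_mul_right _ h9
            _ ≤ Nat.card S ^ n := h10
        exact lt_irrefl _ h12
    choose u hu using hD
    have huniq : ∀ g (v : Fin a → S), (∀ m : N, f (MulAut.conjNormal g m) = v * f m * v⁻¹) →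
        u g = v := by
      intro g v hv
      apply conj_uniq hS
      intro x
      obtain ⟨m, rfl⟩ := hf x
      rw [← hu g m, hv m]
    let Fa : G →* (Fin a → S) := MonoidHom.mk' u fun g g' => by
      apply huniq
      intro m
      rw [map_mul]
      change f (MulAut.conjNormal g (MulAut.conjNormal g' m)) = _
      rw [hu g, hu g']
      group
    have hFa : ∀ m : N, Fa m.1 = f m := by
      intro m
      apply huniq
      intro m'
      rw [← map_inv, ← map_mul, ← map_mul]
      congr 1
    let F' : G →* (Fin a ⊕ ι → S) := MonoidHom.mk' (fun g => Sum.elim (Fa g) (F g)) fun g g' => by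
      funext j
      rcases j with j | j
      · simp
      · simp
    have hF' : ∀ g, F' g = Sum.elim (Fa g) (F g) := fun _ => rfl
    refine ih (Fin a ⊕ ι) F' ?_ ?_ ?_
    · intro z
      obtain ⟨g, hg⟩ := hF (fun i => z (Sum.inr i))
      obtain ⟨m, hm⟩ := hf ((fun i => z (Sum.inl i)) * (Fa g)⁻¹)
      refine ⟨m.1 * g, ?_⟩
      rw [hF', map_mul, map_mul, hFa, hm, MonoidHom.mem_ker.1 (hNF m.2), hg]
      funext j
      rcases j with j | j
      · simp
      · simp
    · intro x hx
      rw [MonoidHom.mem_ker, hF']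
      have h3 : Fa x = 1 := by
        have h4 := hFa ⟨x, h2 (h1 hx)⟩
        rw [h4, ← MonoidHom.mem_ker, hker, mem_subgroupOf]
        exact h1 hx
      rw [h3, MonoidHom.mem_ker.1 (hNF (h2 (h1 hx)))]
      funext j
      rcases j with j | j
      · rfl
      · rfl
    · rw [Fintype.card_sum, Fintype.card_fin]
      omega

end main

end Pool.Agent.CSK
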